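import Pool.Agent.H33R6.Defs

/-! Project TU: final assembly from the main counting statement. -/

namespace Pool.Agent.H33R6.Final

open Finset

open scoped Classical

theorem final (hRES : S_RES) (hDV : S_DV) (hCON : S_CON) (hSZU : S_SZU) (hFIB : S_FIB)
    (hMAIN : S_MAIN) : S_FINAL := by
  intro j hj
  obtain ⟨k, r0, s0, hres⟩ := hRES j hj
  obtain ⟨c, hc, X1, hX1⟩ := hMAIN j k r0 s0 hres
  obtain ⟨X2, hX2⟩ := hFIB j k r0 s0 hres
  have hk : k = 1 ∨ k = 4 := hres.1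
  refine ⟨c / 4 ^ 1001, by positivity, max (max X1 X2) 0, fun X hX => ?_⟩
  have hXa : X1 ≤ X := le_trans (le_trans (le_max_left _ _) (le_max_left _ _)) hX
  have hXb : X2 ≤ X := le_trans (le_trans (le_max_right _ _) (le_max_left _ _)) hX
  have hX0 : 0 ≤ X := le_trans (le_max_right _ _) hX
  set T := (VD (Dx X)).sigma (fun v => Gd k r0 s0 v (Kx X v) (Yx X) (Bx X)) with hT
  set S : Set ℕ := {d : ℕ | (d : ℝ) ≤ X ∧ Squarefree d ∧ d % 8 = j ∧ Cgr d} with hS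
  have hSfin : S.Finite := by
    apply Set.Finite.subset (Set.finite_Iic ⌊X⌋₊)
    intro d hd
    exact Nat.le_floor hd.1
  -- the map
  have hmap : ∀ t ∈ T, dv k t.1 t.2.1 t.2.2 ∈ hSfin.toFinset := by
    intro t ht
    rw [Set.Finite.mem_toFinset]
    rw [hT, Finset.mem_sigma] at ht
    obtain ⟨hv, hg⟩ := ht
    have hadm : Adm t.1 := (Finset.mem_filter.1 hv).2
    obtain ⟨hg0, hsv, -⟩ := Finset.mem_filter.1 hg
    obtain ⟨hbox, hr, hs, hdiv⟩ := Finset.mem_filter.1 hg0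
    obtain ⟨hb1, hb2⟩ := Finset.mem_product.1 hbox
    rw [Finset.mem_Ioc] at hb1 hb2
    have hspos : 0 < t.2.2 := by omega
    have hlt : t.2.2 < t.2.1 := by omega
    obtain ⟨hd1, hd2, hd3, -⟩ := hDV j k r0 s0 hres t.1 hadm t.2.1 t.2.2 hspos hlt hr hs hdiv hsv
    have hq : 0 < qv t.1 := Finset.prod_pos (fun i _ => (hadm.1 i).1)
    refine ⟨?_, hd2, ?_, hCON k hk (qv t.1) t.2.1 t.2.2 hq hspos hlt hd1⟩
    · have := hSZU k r0 s0 hk t.1 hadm X hX0 t.2 hg0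
      linarith
    · rw [hd3]
      rcases hj with h | h | h | h | h | h <;> subst h <;> rfl
  have hcard : T.card ≤ 4 ^ 1001 * hSfin.toFinset.card := by
    apply Finset.card_le_mul_card_image_of_maps_to hmap
    intro d _
    exact hX2 X hXb d
  have hTc : (T.card : ℝ) = ∑ v ∈ VD (Dx X), ((Gd k r0 s0 v (Kx X v) (Yx X) (Bx X)).card : ℝ) := by
    rw [hT, Finset.card_sigma]
    push_cast
    rfl
  have h1 := hX1 X hXa
  rw [← hTc] at h1
  have h2 : (T.card : ℝ) ≤ 4 ^ 1001 * (S.ncard : ℝ) := by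
    rw [Set.ncard_eq_toFinset_card S hSfin]
    exact_mod_cast hcard
  have h3 : c * X ^ (1 / 2 : ℝ) * (Real.log X) ^ 4 ≤ 4 ^ 1001 * (S.ncard : ℝ) := h1.trans h2
  have h4 : c / 4 ^ 1001 * X ^ (1 / 2 : ℝ) * Real.log X ^ 4
      = (c * X ^ (1 / 2 : ℝ) * (Real.log X) ^ 4) / 4 ^ 1001 := by ring
  rw [h4, div_le_iff₀ (by positivity)]
  linarith

end Pool.Agent.H33R6.Final
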