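import Pool.Agent.H33R6.Defs

namespace Pool.Agent.H33R6.TCL

open Finset

open scoped Classical

/-- integers of an interval in a residue class -/
theorem cl_count (A L m c : ℕ) (hm : 1 ≤ m) :
    (L : ℝ) / m - 1 ≤ (((Ioc A (A + L)).filter (fun x => x ≡ c [MOD m])).card : ℝ) := by
  have h1 := Nat.Ioc_filter_modEq_card A (A + L) (r := m) (by omega) c
  obtain ⟨x, hx⟩ : ∃ x : ℚ, x = ((A : ℚ) - c) / m := ⟨_, rfl⟩
  have hm0 : (0:ℚ) < m := by exact_mod_cast hm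
  have h2 : (((A + L : ℕ) : ℚ) - c) / m = x + (L : ℚ) / m := by
    rw [hx]; push_cast; ring
  rw [h2, ← hx] at h1
  have h3 : ((((Ioc A (A + L)).filter (fun x => x ≡ c [MOD m])).card : ℤ) : ℚ) ≥
      (L : ℚ) / m - 1 := by
    rw [h1]
    have h4 := Int.lt_floor_add_one (x + (L : ℚ) / m)
    have h5 := Int.floor_le x
    have h6 : ((⌊x + (L : ℚ) / m⌋ - ⌊x⌋ : ℤ) : ℚ) ≤
        ((max (⌊x + (L : ℚ) / m⌋ - ⌊x⌋) 0 : ℤ) : ℚ) := by
      exact_mod_cast le_max_left _ _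
    push_cast at h6 ⊢
    linarith
  have h7 : (L : ℚ) / m - 1 ≤ (((Ioc A (A + L)).filter (fun x => x ≡ c [MOD m])).card : ℚ) := by
    exact_mod_cast h3
  have h8 : (((L : ℚ) / m - 1 : ℚ) : ℝ) ≤
      ((((Ioc A (A + L)).filter (fun x => x ≡ c [MOD m])).card : ℚ) : ℝ) := Rat.cast_le.2 h7
  push_cast at h8
  exact h8

theorem cl_cop {n : ℕ} (h : Nat.Coprime n 210) : Nat.Coprime Mo (n ^ 2) := by
  apply Nat.Coprime.pow_right
  have h2 : Nat.Coprime n 2 := Nat.Coprime.coprime_dvd_right (by norm_num) h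
  have h3 : Nat.Coprime n 3 := Nat.Coprime.coprime_dvd_right (by norm_num) h
  have h5 : Nat.Coprime n 5 := Nat.Coprime.coprime_dvd_right (by norm_num) h
  have h7 : Nat.Coprime n 7 := Nat.Coprime.coprime_dvd_right (by norm_num) h
  have e : Mo = 2 ^ 5 * 3 ^ 2 * 5 * 7 := by norm_num [Mo]
  rw [e]
  exact (((h2.pow_right 5).mul_right (h3.pow_right 2)).mul_right h5 |>.mul_right h7).symm

theorem t_CL : S_CL := by
  intro r0 s0 hr0 hs0 v hv K hK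
  obtain ⟨hv1, hv2⟩ := hv
  have hMo : 1 ≤ Mo := by norm_num [Mo]
  have hpos : ∀ i, 1 ≤ (v i) ^ 2 := fun i => Nat.one_le_pow _ _ (hv1 i).1
  have hcM : ∀ i, Nat.Coprime Mo ((v i) ^ 2) := fun i => cl_cop (hv1 i).2
  have hcv : ∀ i j, i ≠ j → Nat.Coprime ((v i) ^ 2) ((v j) ^ 2) := fun i j h =>
    Nat.Coprime.pow 2 2 (hv2 i j h)
  obtain ⟨m1, hm1⟩ : ∃ m1, m1 = Mo * (v 1) ^ 2 := ⟨_, rfl⟩
  obtain ⟨m2, hm2⟩ : ∃ m2, m2 = Mo * (v 0) ^ 2 * (v 2) ^ 2 * (v 3) ^ 2 := ⟨_, rfl⟩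
  have hm1p : 1 ≤ m1 := by rw [hm1]; exact Nat.mul_pos hMo (hpos 1)
  have hm2p : 1 ≤ m2 := by
    rw [hm2]; exact Nat.mul_pos (Nat.mul_pos (Nat.mul_pos hMo (hpos 0)) (hpos 2)) (hpos 3)
  -- residue of `s`
  obtain ⟨c1, hc1, hc1'⟩ : ∃ c1, c1 ≡ s0 [MOD Mo] ∧ c1 ≡ 0 [MOD (v 1) ^ 2] :=
    ⟨_, (Nat.chineseRemainder (hcM 1) s0 0).2⟩
  -- residue of `r`
  have hc2 : ∀ s : ℕ, ∃ c2, c2 ≡ r0 [MOD Mo] ∧ c2 ≡ 0 [MOD (v 0) ^ 2] ∧ c2 ≡ s [MOD (v 2) ^ 2] ∧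
      c2 ≡ ((v 3) ^ 2 - 1) * s [MOD (v 3) ^ 2] := by
    intro s
    obtain ⟨x1, h1, h1'⟩ : ∃ x, x ≡ r0 [MOD Mo] ∧ x ≡ 0 [MOD (v 0) ^ 2] :=
      ⟨_, (Nat.chineseRemainder (hcM 0) r0 0).2⟩
    have co2 : Nat.Coprime (Mo * (v 0) ^ 2) ((v 2) ^ 2) :=
      Nat.Coprime.mul_left (hcM 2) (hcv 0 2 (by decide))
    obtain ⟨x2, h2, h2'⟩ : ∃ x, x ≡ x1 [MOD Mo * (v 0) ^ 2] ∧ x ≡ s [MOD (v 2) ^ 2] :=
      ⟨_, (Nat.chineseRemainder co2 x1 s).2⟩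
    have co3 : Nat.Coprime (Mo * (v 0) ^ 2 * (v 2) ^ 2) ((v 3) ^ 2) :=
      Nat.Coprime.mul_left (Nat.Coprime.mul_left (hcM 3) (hcv 0 3 (by decide)))
        (hcv 2 3 (by decide))
    obtain ⟨x3, h3, h3'⟩ : ∃ x, x ≡ x2 [MOD Mo * (v 0) ^ 2 * (v 2) ^ 2] ∧
        x ≡ ((v 3) ^ 2 - 1) * s [MOD (v 3) ^ 2] :=
      ⟨_, (Nat.chineseRemainder co3 x2 (((v 3) ^ 2 - 1) * s)).2⟩
    have h4 : x3 ≡ x2 [MOD Mo * (v 0) ^ 2] := Nat.ModEq.of_mul_right _ h3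
    have h5 : x3 ≡ x1 [MOD Mo * (v 0) ^ 2] := h4.trans h2
    exact ⟨x3, (Nat.ModEq.of_mul_right _ h5).trans h1, (Nat.ModEq.of_mul_left _ h5).trans h1',
      (Nat.ModEq.of_mul_left _ h3).trans h2', h3'⟩
  choose c2 hc2a hc2b hc2c hc2d using hc2
  obtain ⟨S, hS⟩ : ∃ S, S = (Ioc K (K + K)).filter (fun x => x ≡ c1 [MOD m1]) := ⟨_, rfl⟩
  obtain ⟨R, hR⟩ : ∃ R : ℕ → Finset ℕ, R = fun s =>
    (Ioc (4 * K) (4 * K + 4 * K)).filter (fun x => x ≡ c2 s [MOD m2]) := ⟨_, rfl⟩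
  have hcard : (S.sigma R).card ≤ (G0 r0 s0 v K).card := by
    refine Finset.card_le_card_of_injOn (fun t => (t.2, t.1)) ?_ ?_
    · rintro ⟨s, r⟩ ht
      have ht' := Finset.mem_coe.1 ht
      rw [Finset.mem_sigma] at ht'
      obtain ⟨h1, h2⟩ := ht'
      simp only [hS, hR, Finset.mem_filter, Finset.mem_Ioc] at h1 h2
      obtain ⟨⟨ha, hb⟩, hc⟩ := h1
      obtain ⟨⟨hd, he⟩, hf⟩ := h2
      rw [Finset.mem_coe]
      unfold G0
      rw [Finset.mem_filter, Finset.mem_product, Finset.mem_Ioc, Finset.mem_Ioc]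
      have hrs : s < r := by omega
      rw [hm1] at hc
      rw [hm2] at hf
      have hsMo : s ≡ s0 [MOD Mo] := (Nat.ModEq.of_mul_right _ hc).trans hc1
      have hs1 : s ≡ 0 [MOD (v 1) ^ 2] := (Nat.ModEq.of_mul_left _ hc).trans hc1'
      have hf3 : r ≡ ((v 3) ^ 2 - 1) * s [MOD (v 3) ^ 2] :=
        (Nat.ModEq.of_mul_left _ hf).trans (hc2d s)
      have hf' : r ≡ c2 s [MOD Mo * (v 0) ^ 2 * (v 2) ^ 2] := Nat.ModEq.of_mul_right _ hf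
      have hf2 : r ≡ s [MOD (v 2) ^ 2] := (Nat.ModEq.of_mul_left _ hf').trans (hc2c s)
      have hf'' : r ≡ c2 s [MOD Mo * (v 0) ^ 2] := Nat.ModEq.of_mul_right _ hf'
      have hf0 : r ≡ 0 [MOD (v 0) ^ 2] := (Nat.ModEq.of_mul_left _ hf'').trans (hc2b s)
      have hfM : r ≡ r0 [MOD Mo] := (Nat.ModEq.of_mul_right _ hf'').trans (hc2a s)
      have he' : r ≤ 8 * K := by omega
      have hb' : s ≤ 2 * K := by omega
      refine ⟨⟨⟨hd, he'⟩, ha, hb'⟩, ?_, ?_, ?_⟩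
      · show r % Mo = r0
        rw [hfM, Nat.mod_eq_of_lt hr0]
      · show s % Mo = s0
        rw [hsMo, Nat.mod_eq_of_lt hs0]
      · intro i
        fin_cases i
        · show (v 0) ^ 2 ∣ r
          exact (Nat.modEq_zero_iff_dvd).1 hf0
        · show (v 1) ^ 2 ∣ s
          exact (Nat.modEq_zero_iff_dvd).1 hs1
        · show (v 2) ^ 2 ∣ r - s
          exact (Nat.modEq_iff_dvd' hrs.le).1 hf2.symm
        · show (v 3) ^ 2 ∣ r + s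
          have h3 : r + s ≡ ((v 3) ^ 2 - 1) * s + s [MOD (v 3) ^ 2] := hf3.add_right s
          have h4 : ((v 3) ^ 2 - 1) * s + s = (v 3) ^ 2 * s := by
            have := hpos 3
            obtain ⟨n, hn⟩ : ∃ n, (v 3) ^ 2 = n + 1 := ⟨(v 3) ^ 2 - 1, by omega⟩
            rw [hn, Nat.add_sub_cancel]; ring
          rw [h4] at h3
          exact (Nat.modEq_zero_iff_dvd).1 (h3.trans ((Nat.modEq_zero_iff_dvd).2 ⟨s, rfl⟩))
    · rintro ⟨s, r⟩ _ ⟨s', r'⟩ _ h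
      simp only [Prod.mk.injEq] at h
      obtain ⟨rfl, rfl⟩ := h
      rfl
  -- the main term
  have hW : W K v = (K : ℝ) / m1 * (4 * K / m2) := by
    unfold W qv
    rw [hm1, hm2, Fin.prod_univ_four]
    push_cast
    have hv0 : ∀ i, (v i : ℝ) ≠ 0 := by
      intro i
      have := (hv1 i).1
      positivity
    have h0 := hv0 0
    have h1 := hv0 1
    have h2 := hv0 2
    have h3 := hv0 3
    have hM : (Mo : ℝ) ≠ 0 := by norm_num [Mo]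
    field_simp
  obtain ⟨a, ha⟩ : ∃ a : ℝ, a = (K : ℝ) / m1 := ⟨_, rfl⟩
  obtain ⟨b, hb⟩ : ∃ b : ℝ, b = 4 * (K : ℝ) / m2 := ⟨_, rfl⟩
  rw [hW, ← ha, ← hb]
  have hK0 : (1 : ℝ) ≤ K := by exact_mod_cast hK
  have hm1R : (1 : ℝ) ≤ m1 := by exact_mod_cast hm1p
  have hm2R : (1 : ℝ) ≤ m2 := by exact_mod_cast hm2p
  have ha0 : 0 ≤ a := by rw [ha]; positivity
  have hb0 : 0 ≤ b := by rw [hb]; positivity
  have haK : a ≤ K := by
    rw [ha]; exact div_le_self (by linarith) hm1R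
  have hbK : b ≤ 4 * K := by
    rw [hb]; exact div_le_self (by linarith) hm2R
  have hcard0 : (0 : ℝ) ≤ ((G0 r0 s0 v K).card : ℝ) := Nat.cast_nonneg _
  rcases lt_or_ge a 1 with h1 | h1
  · nlinarith
  rcases lt_or_ge b 1 with h2 | h2
  · nlinarith
  have hScard : a - 1 ≤ (S.card : ℝ) := by
    rw [ha, hS]
    exact cl_count K K m1 c1 hm1p
  have hRcard : ∀ s, b - 1 ≤ ((R s).card : ℝ) := by
    intro s
    rw [hb, hR]
    have := cl_count (4 * K) (4 * K) m2 (c2 s) hm2p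
    push_cast at this
    exact this
  have h3 : ((S.sigma R).card : ℝ) ≥ (a - 1) * (b - 1) := by
    rw [Finset.card_sigma]
    push_cast
    calc ∑ s ∈ S, ((R s).card : ℝ) ≥ ∑ _s ∈ S, (b - 1) := Finset.sum_le_sum fun s _ => hRcard s
      _ = S.card * (b - 1) := by rw [Finset.sum_const, nsmul_eq_mul]
      _ ≥ (a - 1) * (b - 1) := mul_le_mul_of_nonneg_right hScard (by linarith)
  have h4 : ((S.sigma R).card : ℝ) ≤ ((G0 r0 s0 v K).card : ℝ) := by exact_mod_cast hcard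
  nlinarith

end Pool.Agent.H33R6.TCL
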