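import Pool.Agent.H33R6.Defs

namespace Pool.Agent.H33R6.TCON

open Finset Pool.Agent.H33R6

theorem t_CON : S_CON := by
  intro k hk q r s hq hs hsr hdvd
  obtain ⟨w, hw0, hwk⟩ : ∃ w : ℚ, 0 < w ∧ w ^ 2 = (k : ℚ) := by
    rcases hk with rfl | rfl
    · exact ⟨1, by norm_num, by norm_num⟩
    · exact ⟨2, by norm_num, by norm_num⟩
  have hqQ : (0 : ℚ) < q := by exact_mod_cast hq
  have hsQ : (0 : ℚ) < s := by exact_mod_cast hs
  have hsrQ : (s : ℚ) < r := by exact_mod_cast hsr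
  have hrQ : (0 : ℚ) < r := hsQ.trans hsrQ
  set t : ℚ := 1 / (w * q) with ht
  have ht0 : 0 < t := by rw [ht]; positivity
  have hk0 : (0 : ℚ) < k := by rw [← hwk]; positivity
  have hval : ((D0 r s / (k * q ^ 2) : ℕ) : ℚ) =
      (r : ℚ) * s * ((r : ℚ) - s) * ((r : ℚ) + s) / ((k : ℚ) * (q : ℚ) ^ 2) := by
    rw [Nat.cast_div hdvd (by push_cast; positivity)]
    unfold D0
    push_cast
    rw [Nat.cast_sub hsr.le]
  have hlt : (s : ℚ) ^ 2 < (r : ℚ) ^ 2 := by nlinarith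
  refine ⟨((r : ℚ) ^ 2 - (s : ℚ) ^ 2) * t, 2 * r * s * t, ((r : ℚ) ^ 2 + (s : ℚ) ^ 2) * t,
    mul_pos (by linarith) ht0, by positivity, by positivity, by ring, ?_⟩
  rw [hval, ← hwk, ht]
  field_simp
  ring

end Pool.Agent.H33R6.TCON
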