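import Pool.Agent.H33R6.Defs

/-! Task CU: upper bound for points in residue classes in a box. -/

namespace Pool.Agent.H33R6.TCU

open Finset

open scoped Classical

/-- an interval `(a, a + L]` contains at most `L / m + 1` elements of a set lying in one class
modulo `m` -/
theorem card_class (a L m : ℕ) (hm : 1 ≤ m) (S : Finset ℕ) (hS : S ⊆ Ioc a (a + L))
    (h : ∀ x ∈ S, ∀ y ∈ S, x ≡ y [MOD m]) : (S.card : ℝ) ≤ (L : ℝ) / m + 1 := by
  rcases S.eq_empty_or_nonempty with rfl | ⟨x0, hx0⟩
  · simp only [card_empty, Nat.cast_zero]; positivity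
  -- map x ↦ (x - a - 1) / m is injective into range (L / m + 1)... use (x - min) / m
  set b := S.min' ⟨x0, hx0⟩ with hb
  have hbS : b ∈ S := S.min'_mem _
  have hba : a < b := (mem_Ioc.1 (hS hbS)).1
  have hmap : ∀ x ∈ S, (x - b) / m ∈ range ((L - 1) / m + 1) := by
    intro x hx
    have h1 := mem_Ioc.1 (hS hx)
    rw [mem_range, Nat.lt_succ_iff]
    apply Nat.div_le_div_right
    omega
  have hinj : Set.InjOn (fun x => (x - b) / m) (S : Set ℕ) := by
    intro x hx y hy hxy
    have hbx : b ≤ x := S.min'_le x hx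
    have hby : b ≤ y := S.min'_le y hy
    have h1 : m ∣ x - b := (Nat.modEq_iff_dvd' hbx).1 (h b hbS x hx)
    have h2 : m ∣ y - b := (Nat.modEq_iff_dvd' hby).1 (h b hbS y hy)
    obtain ⟨u, hu⟩ := h1
    obtain ⟨w, hw⟩ := h2
    simp only [hu, hw] at hxy
    rw [Nat.mul_div_cancel_left _ (by omega), Nat.mul_div_cancel_left _ (by omega)] at hxy
    subst hxy
    omega
  have hc := card_le_card_of_injOn _ hmap hinj
  rw [card_range] at hc
  have h3 : (((L - 1) / m : ℕ) : ℝ) ≤ (L : ℝ) / m := by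
    refine (Nat.cast_div_le).trans ?_
    apply div_le_div_of_nonneg_right _ (by positivity)
    exact_mod_cast Nat.sub_le L 1
  calc (S.card : ℝ) ≤ (((L - 1) / m + 1 : ℕ) : ℝ) := by exact_mod_cast hc
    _ = (((L - 1) / m : ℕ) : ℝ) + 1 := by push_cast; rfl
    _ ≤ _ := by linarith

theorem t_CU : S_CU := by
  intro K m1 m2 hm1 hm2 S hS h1 h2
  have hA : ((S.image Prod.snd).card : ℝ) ≤ (K : ℝ) / m1 + 1 := by
    apply card_class K K m1 hm1
    · intro y hy
      obtain ⟨a, ha, rfl⟩ := mem_image.1 hy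
      have := (mem_product.1 (hS ha)).2
      rwa [two_mul] at this
    · intro x hx y hy
      obtain ⟨a, ha, rfl⟩ := mem_image.1 hx
      obtain ⟨b, hb, rfl⟩ := mem_image.1 hy
      exact h1 a ha b hb
  have hB : ∀ y ∈ S.image Prod.snd,
      ((S.filter (fun a => a.2 = y)).card : ℝ) ≤ 4 * (K : ℝ) / m2 + 1 := by
    intro y hy
    have hc : (S.filter (fun a => a.2 = y)).card
        = ((S.filter (fun a => a.2 = y)).image Prod.fst).card := by
      rw [card_image_of_injOn]
      intro a ha b hb hab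
      have ha' := (mem_filter.1 ha).2
      have hb' := (mem_filter.1 hb).2
      exact Prod.ext hab (ha'.trans hb'.symm)
    rw [hc]
    have := card_class (4 * K) (4 * K) m2 hm2 ((S.filter (fun a => a.2 = y)).image Prod.fst) ?_ ?_
    · push_cast at this
      exact this
    · intro x hx
      obtain ⟨a, ha, rfl⟩ := mem_image.1 hx
      have := (mem_product.1 (hS (mem_filter.1 ha).1)).1
      rw [mem_Ioc] at this ⊢
      omega
    · intro x hx z hz
      obtain ⟨a, ha, rfl⟩ := mem_image.1 hx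
      obtain ⟨b, hb, rfl⟩ := mem_image.1 hz
      have ha' := mem_filter.1 ha
      have hb' := mem_filter.1 hb
      exact h2 a ha'.1 b hb'.1 (ha'.2.trans hb'.2.symm)
  have hS' : (S.card : ℝ) = ∑ y ∈ S.image Prod.snd, ((S.filter (fun a => a.2 = y)).card : ℝ) := by
    rw [card_eq_sum_card_image Prod.snd S]
    push_cast
    rfl
  rw [hS']
  calc ∑ y ∈ S.image Prod.snd, ((S.filter (fun a => a.2 = y)).card : ℝ)
      ≤ ∑ y ∈ S.image Prod.snd, (4 * (K : ℝ) / m2 + 1) := sum_le_sum hB
    _ = ((S.image Prod.snd).card : ℝ) * (4 * (K : ℝ) / m2 + 1) := by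
        rw [sum_const, nsmul_eq_mul]
    _ ≤ _ := by
        apply mul_le_mul_of_nonneg_right hA
        positivity

end Pool.Agent.H33R6.TCU
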