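import Pool.Agent.H33R6.Defs

/-!
DV: the value is squarefree and in the right class.
-/

namespace Pool.Agent.H33R6.TDV

open Finset Pool.Agent.H33R6

theorem D0_eq (r s : ℕ) : D0 r s = ∏ i, fm i r s := by
  rw [Fin.prod_univ_four]
  rfl

/-- a prime dividing two forms divides both coordinates -/
theorem two_forms (p r s : ℕ) (hp : p.Prime) (h2 : p ≠ 2) (hsr : s < r) (i j : Fin 4)
    (hij : i ≠ j) (hi : p ∣ fm i r s) (hj : p ∣ fm j r s) : p ∣ r ∧ p ∣ s := by
  have c2 : Nat.Coprime p 2 := (Nat.coprime_primes hp Nat.prime_two).2 h2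
  have e1 : r - (r - s) = s := by omega
  have e2 : r + s - r = s := by omega
  have e3 : (r - s) + s = r := by omega
  have e4 : r + s - s = r := by omega
  have e5 : (r - s) + (r + s) = 2 * r := by omega
  have e6 : (r + s) - (r - s) = 2 * s := by omega
  have k1 : p ∣ r → p ∣ r - s → p ∣ r ∧ p ∣ s := fun h h' =>
    ⟨h, by have := Nat.dvd_sub h h'; rwa [e1] at this⟩
  have k2 : p ∣ r → p ∣ r + s → p ∣ r ∧ p ∣ s := fun h h' =>
    ⟨h, by have := Nat.dvd_sub h' h; rwa [e2] at this⟩
  have k3 : p ∣ s → p ∣ r - s → p ∣ r ∧ p ∣ s := fun h h' =>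
    ⟨by have := Nat.dvd_add h' h; rwa [e3] at this, h⟩
  have k4 : p ∣ s → p ∣ r + s → p ∣ r ∧ p ∣ s := fun h h' =>
    ⟨by have := Nat.dvd_sub h' h; rwa [e4] at this, h⟩
  have k5 : p ∣ r - s → p ∣ r + s → p ∣ r ∧ p ∣ s := fun h h' =>
    ⟨by
      have := Nat.dvd_add h h'
      rw [e5] at this
      exact c2.dvd_of_dvd_mul_left this, by
      have := Nat.dvd_sub h' h
      rw [e6] at this
      exact c2.dvd_of_dvd_mul_left this⟩
  have f0 : fm 0 r s = r := rfl
  have f1 : fm 1 r s = s := rfl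
  have f2 : fm 2 r s = r - s := rfl
  have f3 : fm 3 r s = r + s := rfl
  fin_cases i <;> fin_cases j <;> simp only [Fin.zero_eta, Fin.mk_one, Fin.reduceFinMk, f0, f1,
    f2, f3, ne_eq, not_true_eq_false] at hi hj hij
  · exact ⟨hi, hj⟩
  · exact k1 hi hj
  · exact k2 hi hj
  · exact ⟨hj, hi⟩
  · exact k3 hi hj
  · exact k4 hi hj
  · exact k1 hj hi
  · exact k3 hj hi
  · exact k5 hi hj
  · exact k2 hj hi
  · exact k4 hj hi
  · exact k5 hj hi

theorem small (p : ℕ) (hp : p.Prime) (h : p < 11) : p = 2 ∨ p = 3 ∨ p = 5 ∨ p = 7 := by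
  interval_cases p <;> tauto

theorem t_DV : S_DV := by
  intro j k r0 s0 hRes v hv r s hs hsr hr0 hs0 hdiv hSv
  obtain ⟨hk, hj4, -, -, hR⟩ := hRes
  obtain ⟨hkD, hmod, h9, h5, h7⟩ := hR r s hs hsr hr0 hs0
  have hD : D0 r s = ∏ i, fm i r s := D0_eq r s
  set D : ℕ := D0 r s with hDd
  set q : ℕ := qv v with hq
  have hD0 : 0 < D := by
    rw [hDd]
    unfold D0
    exact Nat.mul_pos (Nat.mul_pos (Nat.mul_pos (by omega) hs) (by omega)) (by omega)
  -- the square divides
  have hq2 : q ^ 2 ∣ D := by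
    rw [hD, hq]
    unfold qv
    rw [← Finset.prod_pow]
    exact Finset.prod_dvd_prod_of_dvd _ _ fun i _ => hdiv i
  have hq210 : Nat.Coprime q 210 := by
    rw [hq]
    unfold qv
    exact Nat.Coprime.prod_left fun i _ => (hv.1 i).2
  have hqodd : Nat.Coprime q 2 := hq210.coprime_dvd_right (by norm_num)
  have hqo : q % 2 = 1 := by
    rcases Nat.mod_two_eq_zero_or_one q with h | h
    · exfalso
      have h2 : 2 ∣ q := Nat.dvd_of_mod_eq_zero h
      have := Nat.dvd_gcd h2 (dvd_refl 2)
      rw [hqodd] at this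
      norm_num at this
    · exact h
  have hkq : Nat.Coprime k (q ^ 2) := by
    rcases hk with h | h
    · rw [h]; exact Nat.coprime_one_left _
    · rw [h]
      have h4 : (4 : ℕ) = 2 ^ 2 := by norm_num
      rw [h4]
      exact Nat.Coprime.pow 2 2 hqodd.symm
  have hkq2 : k * q ^ 2 ∣ D := hkq.mul_dvd_of_dvd_of_dvd hkD hq2
  obtain ⟨d, hd⟩ := hkq2
  have hk0 : 0 < k := by rcases hk with h | h <;> omega
  have hq0 : 0 < q ^ 2 := by
    have : q ≠ 0 := by omega
    positivity
  have hdv : dv k v r s = d := by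
    unfold dv
    rw [← hDd, hd, ← hq]
    exact Nat.mul_div_cancel_left d (by positivity)
  have hDk : D / k = q ^ 2 * d := by
    rw [hd, mul_assoc]
    exact Nat.mul_div_cancel_left _ hk0
  rw [hDk] at hmod
  have hq8 : q ^ 2 % 8 = 1 := by
    have h8 : q % 8 = 1 ∨ q % 8 = 3 ∨ q % 8 = 5 ∨ q % 8 = 7 := by omega
    rw [Nat.pow_mod]
    rcases h8 with h | h | h | h <;> rw [h]
  have hd8 : d % 8 = j % 8 := by
    rw [Nat.mul_mod, hq8, one_mul, Nat.mod_mod] at hmod
    exact hmod
  have hdD : d ∣ D := ⟨k * q ^ 2, by rw [hd]; ring⟩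
  -- coprime
  have hrD : r * s ∣ D := ⟨(r - s) * (r + s), by rw [hDd]; unfold D0; ring⟩
  have hcop : Nat.Coprime r s := by
    by_contra hcon
    obtain ⟨p, hp, hpr, hps⟩ := Nat.Prime.not_coprime_iff_dvd.1 hcon
    have hpD : p * p ∣ D := (mul_dvd_mul hpr hps).trans hrD
    by_cases h11 : 11 ≤ p
    · exact (hSv p hp h11).1 ⟨hpr, hps⟩
    rcases small p hp (by omega) with h | h | h | h
    · subst h
      obtain ⟨a, rfl⟩ := hpr
      obtain ⟨b, rfl⟩ := hps
      have h16 : 16 ∣ D := by
        refine ⟨a * b * (a - b) * (a + b), ?_⟩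
        rw [hDd]
        unfold D0
        rw [← Nat.mul_sub, ← Nat.mul_add]
        ring
      have h4 : 4 ∣ q ^ 2 * d := by
        rcases hk with h | h
        · rw [h, one_mul] at hd
          rw [← hd]
          exact (show (4 : ℕ) ∣ 16 by norm_num).trans h16
        · rw [h, mul_assoc] at hd
          rw [hd] at h16
          have h44 : (16 : ℕ) = 4 * 4 := by norm_num
          rw [h44] at h16
          exact Nat.dvd_of_mul_dvd_mul_left (by norm_num) h16
      obtain ⟨c, hc⟩ := h4
      have h8 : (q ^ 2 * d) % 8 = d % 8 := by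
        rw [Nat.mul_mod, hq8, one_mul, Nat.mod_mod]
      omega
    · subst h
      exact h9 hpD
    · subst h
      exact h5 ((dvd_mul_right 5 5).trans hpD)
    · subst h
      exact h7 ((dvd_mul_right 7 7).trans hpD)
  refine ⟨⟨d, hd⟩, ?_, ?_, hcop⟩
  · rw [hdv, Nat.squarefree_iff_prime_squarefree]
    intro p hp hpd
    by_cases h11 : 11 ≤ p
    · have hpD : p ∣ ∏ i, fm i r s := by
        rw [← hD]
        exact ((dvd_mul_right p p).trans hpd).trans hdD
      obtain ⟨i, -, hi⟩ := (Nat.Prime.prime hp).exists_mem_finset_dvd hpD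
      have hother : ∀ l, l ≠ i → ¬ p ∣ fm l r s := fun l hl hpl =>
        (hSv p hp h11).1 (two_forms p r s hp (by omega) hsr l i hl hpl hi)
      have hvother : ∀ l, l ≠ i → Nat.Coprime (v i) (fm l r s) := by
        intro l hl
        by_contra hcon
        obtain ⟨t, ht, htv, htl⟩ := Nat.Prime.not_coprime_iff_dvd.1 hcon
        have ht2 : t ≠ 2 := by
          rintro rfl
          have h210 := (hv.1 i).2
          have := Nat.dvd_gcd htv (show (2 : ℕ) ∣ 210 by norm_num)
          rw [h210] at this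
          norm_num at this
        have hti : t ∣ fm i r s := (htv.trans (dvd_pow_self _ two_ne_zero)).trans (hdiv i)
        obtain ⟨hr', hs'⟩ := two_forms t r s ht ht2 hsr l i hl htl hti
        have := Nat.dvd_gcd hr' hs'
        rw [hcop] at this
        exact ht.one_lt.ne' (Nat.dvd_one.1 this)
      have hcp : Nat.Coprime (p ^ 2 * (v i) ^ 2) (∏ l ∈ univ.erase i, fm l r s) := by
        refine Nat.Coprime.prod_right fun l hl => ?_
        have hl' := (Finset.mem_erase.1 hl).1
        refine Nat.Coprime.mul_left ?_ ?_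
        · exact Nat.Coprime.pow_left 2 ((Nat.Prime.coprime_iff_not_dvd hp).2 (hother l hl'))
        · exact Nat.Coprime.pow_left 2 (hvother l hl')
      have hbig : p ^ 2 * (v i) ^ 2 ∣ D := by
        have h1 : v i ∣ q := Finset.dvd_prod_of_mem v (Finset.mem_univ i)
        have h2 : p ^ 2 * (v i) ^ 2 ∣ d * q ^ 2 := by
          refine mul_dvd_mul ?_ (pow_dvd_pow_of_dvd h1 2)
          rw [sq]
          exact hpd
        refine h2.trans ⟨k, ?_⟩
        rw [hd]
        ring
      rw [hD, ← Finset.mul_prod_erase univ (fun l => fm l r s) (Finset.mem_univ i)] at hbig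
      exact (hSv p hp h11).2 i (hcp.dvd_of_dvd_mul_right hbig)
    · rcases small p hp (by omega) with h | h | h | h
      · subst h
        obtain ⟨c, hc⟩ := hpd
        omega
      · subst h
        exact h9 (hpd.trans hdD)
      · subst h
        exact h5 (((dvd_mul_right 5 5).trans hpd).trans hdD)
      · subst h
        exact h7 (((dvd_mul_right 7 7).trans hpd).trans hdD)
  · rw [hdv]
    exact hd8

end Pool.Agent.H33R6.TDV
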