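import Pool.Agent.H33R6.Defs

namespace Pool.Agent.H33R6.TEI

open Finset
open scoped Classical

lemma gen (hCU : S_CU) (K r0 s0 : ℕ) (w : Fin 4 → ℕ) (u1 u2 : ℕ) (hw : ∀ i, 1 ≤ w i)
    (h1 : 1 ≤ u1) (h2 : 1 ≤ u2)
    (hM : ∀ i, Nat.Coprime (w i) Mo) (hM1 : Nat.Coprime u1 Mo) (hM2 : Nat.Coprime u2 Mo)
    (hc : ∀ i j, i ≠ j → Nat.Coprime (w i) (w j))
    (hc1 : Nat.Coprime u1 (w 1)) (hc2 : ∀ i, i ≠ 1 → Nat.Coprime u2 (w i))
    (S : Finset (ℕ × ℕ)) (hS : S ⊆ (Ioc (4 * K) (8 * K)) ×ˢ (Ioc K (2 * K)))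
    (hr : ∀ a ∈ S, a.1 % Mo = r0) (hs : ∀ a ∈ S, a.2 % Mo = s0)
    (hf : ∀ a ∈ S, ∀ i, w i ∣ fm i a.1 a.2)
    (hu1 : ∀ a ∈ S, u1 ∣ a.2) (hu2 : ∀ a ∈ S, u2 ∣ a.1) :
    (S.card : ℝ) ≤ ((K : ℝ) / (Mo * w 1 * u1 : ℕ) + 1) *
      (4 * (K : ℝ) / (Mo * w 0 * w 2 * w 3 * u2 : ℕ) + 1) := by
  have hMo : 1 ≤ Mo := by unfold Mo; norm_num
  have key : ∀ {m a b : ℕ}, m ∣ a → m ∣ b → a ≡ b [MOD m] := fun {m a b} ha hb =>
    ((Nat.modEq_zero_iff_dvd).2 ha).trans ((Nat.modEq_zero_iff_dvd).2 hb).symm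
  apply hCU K (Mo * w 1 * u1) (Mo * w 0 * w 2 * w 3 * u2)
  · exact Nat.one_le_iff_ne_zero.2 (by
      have := hw 1
      positivity)
  · exact Nat.one_le_iff_ne_zero.2 (by
      have := hw 0
      have := hw 2
      have := hw 3
      positivity)
  · exact hS
  · intro a ha b hb
    have e1 : a.2 ≡ b.2 [MOD Mo] := by
      unfold Nat.ModEq; rw [hs a ha, hs b hb]
    have e2 : a.2 ≡ b.2 [MOD w 1] := key (by simpa [fm] using hf a ha 1) (by simpa [fm] using hf b hb 1)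
    have e3 : a.2 ≡ b.2 [MOD u1] := key (hu1 a ha) (hu1 b hb)
    have f1 : a.2 ≡ b.2 [MOD Mo * w 1] :=
      (Nat.modEq_and_modEq_iff_modEq_mul (hM 1).symm).1 ⟨e1, e2⟩
    exact (Nat.modEq_and_modEq_iff_modEq_mul (Nat.Coprime.mul_left hM1.symm hc1.symm)).1 ⟨f1, e3⟩
  · intro a ha b hb hab
    have e1 : a.1 ≡ b.1 [MOD Mo] := by
      unfold Nat.ModEq; rw [hr a ha, hr b hb]
    have e2 : a.1 ≡ b.1 [MOD w 0] := key (by simpa [fm] using hf a ha 0) (by simpa [fm] using hf b hb 0)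
    have e3 : a.1 ≡ b.1 [MOD u2] := key (hu2 a ha) (hu2 b hb)
    have e4 : a.1 ≡ b.1 [MOD w 2] := by
      have g1 : w 2 ∣ a.1 - a.2 := by simpa [fm] using hf a ha 2
      have g2 : w 2 ∣ b.1 - b.2 := by simpa [fm] using hf b hb 2
      have k0 := key g1 g2
      have ma := hS ha
      have mb := hS hb
      simp only [mem_product, mem_Ioc] at ma mb
      have k1 := k0.add_right a.2
      rw [Nat.sub_add_cancel (by omega), hab, Nat.sub_add_cancel (by omega)] at k1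
      exact k1
    have e5 : a.1 ≡ b.1 [MOD w 3] := by
      have g1 : w 3 ∣ a.1 + a.2 := by simpa [fm] using hf a ha 3
      have g2 : w 3 ∣ b.1 + b.2 := by simpa [fm] using hf b hb 3
      have k0 := key g1 g2
      rw [hab] at k0
      exact Nat.ModEq.add_right_cancel' _ k0
    have f1 : a.1 ≡ b.1 [MOD Mo * w 0] :=
      (Nat.modEq_and_modEq_iff_modEq_mul (hM 0).symm).1 ⟨e1, e2⟩
    have f2 : a.1 ≡ b.1 [MOD Mo * w 0 * w 2] :=
      (Nat.modEq_and_modEq_iff_modEq_mul (Nat.Coprime.mul_left (hM 2).symm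
        (hc 0 2 (by decide)))).1 ⟨f1, e4⟩
    have f3 : a.1 ≡ b.1 [MOD Mo * w 0 * w 2 * w 3] :=
      (Nat.modEq_and_modEq_iff_modEq_mul (Nat.Coprime.mul_left (Nat.Coprime.mul_left (hM 3).symm
        (hc 0 3 (by decide))) (hc 2 3 (by decide)))).1 ⟨f2, e5⟩
    exact (Nat.modEq_and_modEq_iff_modEq_mul (Nat.Coprime.mul_left (Nat.Coprime.mul_left
      (Nat.Coprime.mul_left hM2.symm (hc2 0 (by decide)).symm) (hc2 2 (by decide)).symm)
        (hc2 3 (by decide)).symm)).1 ⟨f3, e3⟩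

/-- the numerical estimate -/
lemma num (K m1 m2 : ℕ) (hK : 1 ≤ K) (h1 : 1 ≤ m1) (h2 : 1 ≤ m2) :
    ((K : ℝ) / m1 + 1) * (4 * (K : ℝ) / m2 + 1) ≤ 4 * (K : ℝ) ^ 2 / ((m1 : ℝ) * m2) + 6 * K := by
  have hK' : (1 : ℝ) ≤ K := by exact_mod_cast hK
  have h1' : (1 : ℝ) ≤ m1 := by exact_mod_cast h1
  have h2' : (1 : ℝ) ≤ m2 := by exact_mod_cast h2
  have a1 : (K : ℝ) / m1 ≤ K := div_le_self (by positivity) h1'
  have a2 : 4 * (K : ℝ) / m2 ≤ 4 * K := div_le_self (by positivity) h2'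
  have e : ((K : ℝ) / m1 + 1) * (4 * (K : ℝ) / m2 + 1) =
      4 * (K : ℝ) ^ 2 / ((m1 : ℝ) * m2) + ((K : ℝ) / m1 + 4 * (K : ℝ) / m2 + 1) := by
    field_simp
    ring
  rw [e]
  linarith

lemma cop_Mo {p : ℕ} (hp : p.Prime) (h : 11 ≤ p) : Nat.Coprime p Mo := by
  rw [Nat.Prime.coprime_iff_not_dvd hp]
  intro hd
  have e : Mo = 2 ^ 5 * 3 ^ 2 * 5 * 7 := by unfold Mo; norm_num
  rw [e] at hd
  rcases (Nat.Prime.dvd_mul hp).1 hd with h1 | h1
  · rcases (Nat.Prime.dvd_mul hp).1 h1 with h2 | h2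
    · rcases (Nat.Prime.dvd_mul hp).1 h2 with h3 | h3
      · have := Nat.le_of_dvd (by norm_num) (hp.dvd_of_dvd_pow h3); omega
      · have := Nat.le_of_dvd (by norm_num) (hp.dvd_of_dvd_pow h3); omega
    · have := Nat.le_of_dvd (by norm_num) h2; omega
  · have := Nat.le_of_dvd (by norm_num) h1; omega

lemma cop_v {x : ℕ} (h : Nat.Coprime x 210) : Nat.Coprime x Mo := by
  have e : (210 : ℕ) = 2 * 3 * 5 * 7 := by norm_num
  rw [e] at h
  have h7 := Nat.Coprime.coprime_mul_left_right h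
  have h235 := Nat.Coprime.coprime_mul_right_right h
  have h5 := Nat.Coprime.coprime_mul_left_right h235
  have h23 := Nat.Coprime.coprime_mul_right_right h235
  have h3 := Nat.Coprime.coprime_mul_left_right h23
  have h2 := Nat.Coprime.coprime_mul_right_right h23
  have e : Mo = 2 ^ 5 * 3 ^ 2 * 5 * 7 := by unfold Mo; norm_num
  rw [e]
  exact Nat.Coprime.mul_right (Nat.Coprime.mul_right (Nat.Coprime.mul_right
    (h2.pow_right 5) (h3.pow_right 2)) h5) h7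

lemma qv_eq (v : Fin 4 → ℕ) : qv v = v 0 * v 1 * v 2 * v 3 := by
  simp [qv, Fin.prod_univ_four]

theorem t_EI : S_CU → S_EI := by
  intro hCU r0 s0 v hv K hK p hp hp11 e he i
  obtain ⟨hv1, hv2⟩ := hv
  have hcM : Nat.Coprime p Mo := cop_Mo hp hp11
  have hpp : 0 < p := hp.pos
  have hv0 : ∀ i, 0 < v i := fun i => (hv1 i).1
  have hp' : (0 : ℝ) < p := by exact_mod_cast hpp
  have hW : 0 ≤ W K v / (p : ℝ) ^ e + 6 * K := by
    unfold W; positivity
  set S := (G0 r0 s0 v K).filter (fun t => ¬ (p ∣ t.1 ∧ p ∣ t.2) ∧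
      p ^ e * (v i) ^ 2 ∣ fm i t.1 t.2) with hSdef
  have memS : ∀ a ∈ S, (a.1 ∈ Ioc (4 * K) (8 * K) ∧ a.2 ∈ Ioc K (2 * K)) ∧ a.1 % Mo = r0 ∧
      a.2 % Mo = s0 ∧ (∀ i, (v i) ^ 2 ∣ fm i a.1 a.2) ∧ ¬ (p ∣ a.1 ∧ p ∣ a.2) ∧
      p ^ e * (v i) ^ 2 ∣ fm i a.1 a.2 := by
    intro a ha
    rw [hSdef, mem_filter, G0, mem_filter, mem_product] at ha
    tauto
  by_cases hj : ∃ j, j ≠ i ∧ p ∣ v j
  · obtain ⟨j, hji, hpj⟩ := hj
    have hem : S = ∅ := by
      rw [Finset.eq_empty_iff_forall_notMem]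
      intro a ha
      obtain ⟨⟨m1, m2⟩, _, _, h3, h4, h5⟩ := memS a ha
      rw [mem_Ioc] at m1 m2
      have d1 : p ∣ fm i a.1 a.2 :=
        ((dvd_pow_self p (by omega)).trans (dvd_mul_right _ _)).trans h5
      have d2 : p ∣ fm j a.1 a.2 := (hpj.trans (dvd_pow_self _ (by norm_num))).trans (h3 j)
      apply h4
      have z1 : (p : ℤ) ∣ (fm i a.1 a.2 : ℤ) := by exact_mod_cast d1
      have z2 : (p : ℤ) ∣ (fm j a.1 a.2 : ℤ) := by exact_mod_cast d2
      have hle : a.2 ≤ a.1 := by omega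
      have hodd : ∀ x : ℕ, (p : ℤ) ∣ 2 * (x : ℤ) → p ∣ x := by
        intro x hx
        have : p ∣ 2 * x := by exact_mod_cast hx
        rcases (Nat.Prime.dvd_mul hp).1 this with h | h
        · have := Nat.le_of_dvd (by norm_num) h; omega
        · exact h
      have hone : ∀ x : ℕ, (p : ℤ) ∣ (x : ℤ) → p ∣ x := by
        intro x hx; exact_mod_cast hx
      have c2 : ((a.1 - a.2 : ℕ) : ℤ) = (a.1 : ℤ) - a.2 := by push_cast [hle]; ring
      have cases4 : ∀ x y : ℤ, ∀ (i j : Fin 4), j ≠ i →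
          (p : ℤ) ∣ ![x, y, x - y, x + y] i → (p : ℤ) ∣ ![x, y, x - y, x + y] j →
          (p : ℤ) ∣ 2 * x ∧ (p : ℤ) ∣ 2 * y := by
        intro x y i j hji h1 h2
        fin_cases i <;> fin_cases j <;> simp at h1 h2 hji ⊢ <;>
          obtain ⟨c, hc⟩ := h1 <;> obtain ⟨d, hd⟩ := h2
        · exact ⟨⟨2 * c, by rw [hc]; ring⟩, ⟨2 * d, by rw [hd]; ring⟩⟩
        · exact ⟨⟨2 * c, by rw [hc]; ring⟩, ⟨2 * c - 2 * d, by linear_combination 2 * hc - 2 * hd⟩⟩
        · exact ⟨⟨2 * c, by rw [hc]; ring⟩, ⟨2 * d - 2 * c, by linear_combination 2 * hd - 2 * hc⟩⟩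
        · exact ⟨⟨2 * d, by rw [hd]; ring⟩, ⟨2 * c, by rw [hc]; ring⟩⟩
        · exact ⟨⟨2 * c + 2 * d, by linear_combination 2 * hc + 2 * hd⟩, ⟨2 * c, by rw [hc]; ring⟩⟩
        · exact ⟨⟨2 * d - 2 * c, by linear_combination 2 * hd - 2 * hc⟩, ⟨2 * c, by rw [hc]; ring⟩⟩
        · exact ⟨⟨2 * d, by rw [hd]; ring⟩, ⟨2 * d - 2 * c, by linear_combination 2 * hd - 2 * hc⟩⟩
        · exact ⟨⟨2 * c + 2 * d, by linear_combination 2 * hc + 2 * hd⟩, ⟨2 * d, by rw [hd]; ring⟩⟩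
        · exact ⟨⟨c + d, by linear_combination hc + hd⟩, ⟨d - c, by linear_combination hd - hc⟩⟩
        · exact ⟨⟨2 * d, by rw [hd]; ring⟩, ⟨2 * c - 2 * d, by linear_combination 2 * hc - 2 * hd⟩⟩
        · exact ⟨⟨2 * c - 2 * d, by linear_combination 2 * hc - 2 * hd⟩, ⟨2 * d, by rw [hd]; ring⟩⟩
        · exact ⟨⟨c + d, by linear_combination hc + hd⟩, ⟨c - d, by linear_combination hc - hd⟩⟩
      have conv : ∀ l : Fin 4, ((fm l a.1 a.2 : ℕ) : ℤ) =
          ![(a.1 : ℤ), (a.2 : ℤ), (a.1 : ℤ) - a.2, (a.1 : ℤ) + a.2] l := by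
        intro l
        fin_cases l <;> simp [fm, c2]
      rw [conv] at z1 z2
      obtain ⟨k1, k2⟩ := cases4 _ _ i j hji z1 z2
      exact ⟨hodd _ k1, hodd _ k2⟩
    rw [hem]
    simpa using hW
  · push Not at hj
    set w : Fin 4 → ℕ := fun l => if l = i then p ^ e * (v l) ^ 2 else (v l) ^ 2 with hw
    have hg := gen hCU K r0 s0 w 1 1 ?_ le_rfl le_rfl ?_ (Nat.coprime_one_left _)
      (Nat.coprime_one_left _) ?_ (Nat.coprime_one_left _) (fun _ _ => Nat.coprime_one_left _)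
      S ?_ (fun a ha => (memS a ha).2.1) (fun a ha => (memS a ha).2.2.1) ?_
      (fun _ _ => one_dvd _) (fun _ _ => one_dvd _)
    · refine hg.trans ?_
      have hwp : ∀ l, 1 ≤ w l := by
        intro l
        have := hv0 l
        simp only [hw]
        split_ifs <;> exact Nat.one_le_iff_ne_zero.2 (by positivity)
      have hMo : 1 ≤ Mo := by unfold Mo; norm_num
      refine (num K _ _ hK ?_ ?_).trans ?_
      · exact Nat.one_le_iff_ne_zero.2 (by have := hwp 1; positivity)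
      · exact Nat.one_le_iff_ne_zero.2 (by
          have := hwp 0
          have := hwp 2
          have := hwp 3
          positivity)
      · have hprod : (((Mo * w 1 * 1 : ℕ) : ℝ) * ((Mo * w 0 * w 2 * w 3 * 1 : ℕ) : ℝ)) =
            (Mo : ℝ) ^ 2 * (qv v : ℝ) ^ 2 * (p : ℝ) ^ e := by
          have : (Mo * w 1 * 1) * (Mo * w 0 * w 2 * w 3 * 1) = Mo ^ 2 * (qv v) ^ 2 * p ^ e := by
            rw [qv_eq]
            simp only [hw]
            fin_cases i <;> simp <;> ring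
          exact_mod_cast this
        rw [hprod]
        have : 4 * (K : ℝ) ^ 2 / ((Mo : ℝ) ^ 2 * (qv v : ℝ) ^ 2 * (p : ℝ) ^ e) =
            W K v / (p : ℝ) ^ e := by
          unfold W; rw [div_div]
        rw [this]
    · intro l
      have := hv0 l
      simp only [hw]
      split_ifs <;> exact Nat.one_le_iff_ne_zero.2 (by positivity)
    · intro l
      simp only [hw]
      split_ifs
      · exact Nat.Coprime.mul_left (hcM.pow_left e) ((cop_v (hv1 l).2).pow_left 2)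
      · exact (cop_v (hv1 l).2).pow_left 2
    · intro l l' hll
      have hbase : Nat.Coprime ((v l) ^ 2) ((v l') ^ 2) := (hv2 l l' hll).pow 2 2
      have hpc : ∀ m, m ≠ i → Nat.Coprime (p ^ e) ((v m) ^ 2) := fun m hm =>
        ((Nat.Prime.coprime_iff_not_dvd hp).2 (hj m hm)).pow e 2
      simp only [hw]
      split_ifs with c1 c2 c2
      · exact absurd (c1.trans c2.symm) hll
      · exact Nat.Coprime.mul_left (hpc l' c2) hbase
      · exact Nat.Coprime.mul_right (hpc l c1).symm hbase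
      · exact hbase
    · intro a ha
      have := (memS a ha).1
      rw [mem_product]; exact this
    · intro a ha l
      simp only [hw]
      split_ifs with c
      · subst c
        exact (memS a ha).2.2.2.2.2
      · exact (memS a ha).2.2.2.1 l

end Pool.Agent.H33R6.TEI
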