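import Pool.Agent.H33R6.Defs
import Pool.Agent.H33R6.TEI

namespace Pool.Agent.H33R6.TE0

open Finset
open scoped Classical
open Pool.Agent.H33R6.TEI (gen num cop_Mo cop_v qv_eq)

theorem t_E0 : S_CU → S_E0 := by
  intro hCU r0 s0 v hv K hK p hp hp11
  obtain ⟨hv1, hv2⟩ := hv
  have hcM : Nat.Coprime p Mo := cop_Mo hp hp11
  have hpp : 0 < p := hp.pos
  have hv0 : ∀ i, 0 < v i := fun i => (hv1 i).1
  have hMo : 1 ≤ Mo := by unfold Mo; norm_num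
  have hp' : (0 : ℝ) < p := by exact_mod_cast hpp
  have hK' : (1 : ℝ) ≤ K := by exact_mod_cast hK
  set S := (G0 r0 s0 v K).filter (fun t => p ∣ t.1 ∧ p ∣ t.2) with hSdef
  have memS : ∀ a ∈ S, (a.1 ∈ Ioc (4 * K) (8 * K) ∧ a.2 ∈ Ioc K (2 * K)) ∧ a.1 % Mo = r0 ∧
      a.2 % Mo = s0 ∧ (∀ i, (v i) ^ 2 ∣ fm i a.1 a.2) ∧ p ∣ a.1 ∧ p ∣ a.2 := by
    intro a ha
    rw [hSdef, mem_filter, G0, mem_filter, mem_product] at ha
    tauto
  have hSub : S ⊆ (Ioc (4 * K) (8 * K)) ×ˢ (Ioc K (2 * K)) := by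
    intro a ha
    have := (memS a ha).1
    rw [mem_product]; exact this
  have base : ∀ u1 u2 : ℕ, 1 ≤ u1 → 1 ≤ u2 → Nat.Coprime u1 Mo → Nat.Coprime u2 Mo →
      Nat.Coprime u1 (v 1) → (∀ i, i ≠ 1 → Nat.Coprime u2 (v i)) →
      (∀ a ∈ S, u1 ∣ a.2) → (∀ a ∈ S, u2 ∣ a.1) →
      (S.card : ℝ) ≤ ((K : ℝ) / (Mo * (v 1) ^ 2 * u1 : ℕ) + 1) *
      (4 * (K : ℝ) / (Mo * (v 0) ^ 2 * (v 2) ^ 2 * (v 3) ^ 2 * u2 : ℕ) + 1) := by
    intro u1 u2 h1 h2 c1 c2 d1 d2 e1 e2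
    exact gen hCU K r0 s0 (fun l => (v l) ^ 2) u1 u2
      (fun i => Nat.one_le_iff_ne_zero.2 (by have := hv0 i; positivity)) h1 h2
      (fun i => (cop_v (hv1 i).2).pow_left 2) c1 c2
      (fun i j hij => (hv2 i j hij).pow 2 2) (d1.pow_right 2)
      (fun i hi => (d2 i hi).pow_right 2) S hSub (fun a ha => (memS a ha).2.1)
      (fun a ha => (memS a ha).2.2.1) (fun a ha => (memS a ha).2.2.2.1) e1 e2
  have p1 : 1 ≤ (v 1) ^ 2 := Nat.one_le_iff_ne_zero.2 (by have := hv0 1; positivity)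
  have p2 : 1 ≤ (v 0) ^ 2 * (v 2) ^ 2 * (v 3) ^ 2 := Nat.one_le_iff_ne_zero.2 (by
    have := hv0 0
    have := hv0 2
    have := hv0 3
    positivity)
  by_cases hpq : p ∣ qv v
  · rw [if_pos hpq]
    have hex : ∃ l, p ∣ v l := by
      rw [qv] at hpq
      obtain ⟨l, _, hl⟩ := (Prime.dvd_finsetProd_iff hp.prime _).1 hpq
      exact ⟨l, hl⟩
    obtain ⟨l, hl⟩ := hex
    have hcop : ∀ m, m ≠ l → Nat.Coprime p (v m) := by
      intro m hm
      exact Nat.Coprime.coprime_dvd_left hl (hv2 l m (Ne.symm hm))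
    have fin1 : ∀ m1 m2 : ℕ, 1 ≤ m1 → 1 ≤ m2 → m1 * m2 = Mo ^ 2 * (qv v) ^ 2 * p →
        (S.card : ℝ) ≤ ((K : ℝ) / (m1 : ℕ) + 1) * (4 * (K : ℝ) / (m2 : ℕ) + 1) →
        (S.card : ℝ) ≤ W K v / p + 6 * K := by
      intro m1 m2 h1 h2 h3 h4
      refine h4.trans ((num K m1 m2 hK h1 h2).trans ?_)
      have h3' : (m1 : ℝ) * m2 = (Mo : ℝ) ^ 2 * (qv v : ℝ) ^ 2 * p := by exact_mod_cast h3
      rw [h3']
      have : 4 * (K : ℝ) ^ 2 / ((Mo : ℝ) ^ 2 * (qv v : ℝ) ^ 2 * p) = W K v / p := by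
        unfold W; rw [div_div]
      rw [this]
    by_cases hl1 : l = 1
    · subst hl1
      refine fin1 _ _ ?_ ?_ ?_ (base 1 p le_rfl hpp (Nat.coprime_one_left _) hcM
        (Nat.coprime_one_left _) (fun i hi => hcop i hi) (fun _ _ => one_dvd _)
        (fun a ha => (memS a ha).2.2.2.2.1))
      · exact Nat.one_le_iff_ne_zero.2 (by positivity)
      · have := hv0 0
        have := hv0 2
        have := hv0 3
        exact Nat.one_le_iff_ne_zero.2 (by positivity)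
      · rw [qv_eq]; ring
    · refine fin1 _ _ ?_ ?_ ?_ (base p 1 hpp le_rfl hcM (Nat.coprime_one_left _)
        (hcop 1 (Ne.symm hl1)) (fun i _ => Nat.coprime_one_left _)
        (fun a ha => (memS a ha).2.2.2.2.2) (fun _ _ => one_dvd _))
      · exact Nat.one_le_iff_ne_zero.2 (by positivity)
      · have := hv0 0
        have := hv0 2
        have := hv0 3
        exact Nat.one_le_iff_ne_zero.2 (by positivity)
      · rw [qv_eq]; ring
  · rw [if_neg hpq]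
    have hcop : ∀ m, Nat.Coprime p (v m) := by
      intro m
      rw [Nat.Prime.coprime_iff_not_dvd hp]
      intro h
      exact hpq (h.trans (Finset.dvd_prod_of_mem v (mem_univ m)))
    have hb := base p p hpp hpp hcM hcM (hcop 1) (fun i _ => hcop i)
      (fun a ha => (memS a ha).2.2.2.2.2) (fun a ha => (memS a ha).2.2.2.2.1)
    refine hb.trans ?_
    set m1 : ℕ := Mo * (v 1) ^ 2 * p with hm1
    set m2 : ℕ := Mo * (v 0) ^ 2 * (v 2) ^ 2 * (v 3) ^ 2 * p with hm2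
    have g1 : p ≤ m1 := by
      rw [hm1]
      exact Nat.le_mul_of_pos_left _ (Nat.mul_pos hMo p1)
    have g2 : p ≤ m2 := by
      rw [hm2, mul_assoc Mo, mul_assoc Mo]
      exact Nat.le_mul_of_pos_left _ (Nat.mul_pos hMo p2)
    have g1' : (p : ℝ) ≤ m1 := by exact_mod_cast g1
    have g2' : (p : ℝ) ≤ m2 := by exact_mod_cast g2
    have hm1p : (0 : ℝ) < m1 := lt_of_lt_of_le hp' g1'
    have hm2p : (0 : ℝ) < m2 := lt_of_lt_of_le hp' g2'
    have a1 : (K : ℝ) / m1 ≤ K / p := div_le_div_of_nonneg_left (by positivity) hp' g1'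
    have a2 : 4 * (K : ℝ) / m2 ≤ 4 * K / p := div_le_div_of_nonneg_left (by positivity) hp' g2'
    have e : ((K : ℝ) / m1 + 1) * (4 * (K : ℝ) / m2 + 1) =
        4 * (K : ℝ) ^ 2 / ((m1 : ℝ) * m2) + ((K : ℝ) / m1 + 4 * (K : ℝ) / m2 + 1) := by
      field_simp
      ring
    rw [e]
    have h3' : (m1 : ℝ) * m2 = (Mo : ℝ) ^ 2 * (qv v : ℝ) ^ 2 * (p : ℝ) ^ 2 := by
      have : m1 * m2 = Mo ^ 2 * (qv v) ^ 2 * p ^ 2 := by
        rw [hm1, hm2, qv_eq]; ring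
      exact_mod_cast this
    rw [h3']
    have h4 : 4 * (K : ℝ) ^ 2 / ((Mo : ℝ) ^ 2 * (qv v : ℝ) ^ 2 * (p : ℝ) ^ 2) =
        W K v / (p : ℝ) ^ 2 := by
      unfold W; rw [div_div]
    rw [h4]
    have h5 : 5 * (K : ℝ) / p = K / p + 4 * K / p := by ring
    rw [h5]
    linarith

end Pool.Agent.H33R6.TE0
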