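import Pool.Agent.H33R6.Defs

set_option autoImplicit false

namespace Pool.Agent.H33R6.TFIB

open Finset

open scoped Classical

theorem root (X : ℝ) (hX : (2 : ℝ) ^ 100 ≤ X) : ∃ x : ℝ, 2 ≤ x ∧ X = x ^ 100 ∧
    X ^ (1 / 100 : ℝ) = x ∧ X ^ (1 / 4 : ℝ) = x ^ 25 := by
  have hX0 : (0 : ℝ) ≤ X := le_trans (by positivity) hX
  refine ⟨X ^ (1 / 100 : ℝ), ?_, ?_, rfl, ?_⟩
  · have h1 : ((2 : ℝ) ^ 100) ^ (1 / 100 : ℝ) ≤ X ^ (1 / 100 : ℝ) :=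
      Real.rpow_le_rpow (by positivity) hX (by norm_num)
    have h2 : ((2 : ℝ) ^ 100) ^ (1 / 100 : ℝ) = 2 := by
      rw [← Real.rpow_natCast, ← Real.rpow_mul (by norm_num)]
      norm_num
    linarith
  · rw [← Real.rpow_natCast, ← Real.rpow_mul hX0]
    norm_num
  · rw [← Real.rpow_natCast, ← Real.rpow_mul hX0]
    norm_num

theorem data {k r0 s0 : ℕ} {X : ℝ} {t : (_ : Fin 4 → ℕ) × ℕ × ℕ}
    (ht : t ∈ (VD (Dx X)).sigma (fun v => Gd k r0 s0 v (Kx X v) (Yx X) (Bx X))) :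
    Adm t.1 ∧ (∀ i, t.1 i ≤ Dx X) ∧ t.2 ∈ G0 r0 s0 t.1 (Kx X t.1) ∧ 0 < t.2.2 ∧
      t.2.2 < t.2.1 ∧ t.2.1 ≤ 8 * Kx X t.1 ∧ t.2.2 ≤ 2 * Kx X t.1 ∧ t.2.1 % Mo = r0 ∧
      t.2.2 % Mo = s0 ∧ (∀ i, (t.1 i) ^ 2 ∣ fm i t.2.1 t.2.2) ∧ Sv t.1 t.2.1 t.2.2 ∧
      (sm (Yx X) (dv k t.1 t.2.1 t.2.2) : ℝ) ≤ Bx X := by
  obtain ⟨v, r, s⟩ := t
  rw [mem_sigma] at ht
  obtain ⟨h1, h2⟩ := ht
  simp only at h1 h2
  unfold VD at h1
  rw [mem_filter, Fintype.mem_piFinset] at h1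
  unfold Gd at h2
  rw [mem_filter] at h2
  obtain ⟨h3, h4, h5⟩ := h2
  have h6 := h3
  unfold G0 at h6
  rw [mem_filter, mem_product, mem_Ioc, mem_Ioc] at h6
  obtain ⟨⟨⟨h7, h8⟩, h9, h10⟩, h11, h12, h13⟩ := h6
  simp only at h7 h8 h9 h10 h11 h12 h13 h4 h5
  refine ⟨h1.2, fun i => (mem_Icc.1 (h1.1 i)).2, h3, ?_, ?_, h8, h10, h11, h12, h13, h4, h5⟩
  · show 0 < s
    omega
  · show s < r
    omega

theorem kbound {X x : ℝ} (hx : 2 ≤ x) (hX : X = x ^ 100) (hD : X ^ (1 / 100 : ℝ) = x)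
    (v : Fin 4 → ℕ) (hv : ∀ i, v i ≤ Dx X) : (Kx X v : ℝ) ≤ x ^ 27 / 8 := by
  have hx0 : (0 : ℝ) ≤ x := by linarith
  have h1 : ∀ i, (v i : ℝ) ≤ x := by
    intro i
    have h2 : (v i : ℝ) ≤ (Dx X : ℝ) := by exact_mod_cast hv i
    refine h2.trans ?_
    unfold Dx
    rw [hD]
    exact Nat.floor_le hx0
  have h2 : (qv v : ℝ) ≤ x ^ 4 := by
    unfold qv
    push_cast
    calc ∏ i, (v i : ℝ) ≤ ∏ _i : Fin 4, x :=
          Finset.prod_le_prod (fun i _ => Nat.cast_nonneg _) fun i _ => h1 i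
      _ = x ^ 4 := by simp
  have h3 : ((qv v : ℝ) ^ 2 * X) ^ (1 / 4 : ℝ) ≤ x ^ 27 := by
    have h4 : (qv v : ℝ) ^ 2 * X ≤ (x ^ 27) ^ 4 := by
      rw [hX]
      have h5 : (qv v : ℝ) ^ 2 ≤ (x ^ 4) ^ 2 := by
        exact pow_le_pow_left₀ (Nat.cast_nonneg _) h2 2
      calc (qv v : ℝ) ^ 2 * x ^ 100 ≤ (x ^ 4) ^ 2 * x ^ 100 :=
            mul_le_mul_of_nonneg_right h5 (by positivity)
        _ = (x ^ 27) ^ 4 := by ring
    have h6 : ((qv v : ℝ) ^ 2 * X) ^ (1 / 4 : ℝ) ≤ ((x ^ 27) ^ 4) ^ (1 / 4 : ℝ) := by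
      refine Real.rpow_le_rpow ?_ h4 (by norm_num)
      rw [hX]
      positivity
    have h7 : ((x ^ 27) ^ 4) ^ (1 / 4 : ℝ) = x ^ 27 := by
      have := Real.pow_rpow_inv_natCast (x := x ^ 27) (n := 4) (by positivity) (by norm_num)
      rw [show (1 / 4 : ℝ) = ((4 : ℕ) : ℝ)⁻¹ by norm_num]
      exact this
    rw [h7] at h6
    exact h6
  unfold Kx
  refine (Nat.floor_le ?_).trans ?_
  · refine div_nonneg (Real.rpow_nonneg ?_ _) (by norm_num)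
    rw [hX]
    positivity
  · linarith

theorem t_FIB (hDV : S_DV) (hVU : S_VU) (hINJ : S_INJ) (hSMR : S_SMR) (hNP : S_NP)
    (hSZU : S_SZU) (hSZL : S_SZL) : S_FIB := by
  intro j k r0 s0 hR
  obtain ⟨X0, hX0⟩ := hSZL
  refine ⟨max X0 ((2 : ℝ) ^ 100), fun X hX d => ?_⟩
  have hXa : X0 ≤ X := le_trans (le_max_left _ _) hX
  have hXb : (2 : ℝ) ^ 100 ≤ X := le_trans (le_max_right _ _) hX
  have hXp : 0 < X := lt_of_lt_of_le (by positivity) hXb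
  obtain ⟨x, hx, hx100, hxD, hx4⟩ := root X hXb
  set F := ((VD (Dx X)).sigma (fun v => Gd k r0 s0 v (Kx X v) (Yx X) (Bx X))).filter
    (fun t => dv k t.1 t.2.1 t.2.2 = d) with hF
  have hk : k = 1 ∨ k = 4 := hR.1
  have hk0 : 0 < k := by rcases hk with rfl | rfl <;> norm_num
  -- facts on one member
  have hmem : ∀ t ∈ F, k * (qv t.1) ^ 2 ∣ D0 t.2.1 t.2.2 ∧ Squarefree d ∧
      Nat.Coprime t.2.1 t.2.2 ∧ (d : ℝ) ≤ X / 4 ∧ X / 6000 ≤ (d : ℝ) ∧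
      (sm (Yx X) d : ℝ) ≤ Bx X ∧ dv k t.1 t.2.1 t.2.2 = d := by
    intro t ht
    rw [hF, mem_filter] at ht
    obtain ⟨h1, h2⟩ := ht
    obtain ⟨hA, hD, hG, hs0, hsr, hr8, hs2, hr, hs, hsq, hSv, hsm⟩ := data h1
    obtain ⟨a1, a2, a3, a4⟩ := hDV j k r0 s0 hR t.1 hA t.2.1 t.2.2 hs0 hsr hr hs hsq hSv
    rw [h2] at a2 hsm
    refine ⟨a1, a2, a4, ?_, ?_, hsm, h2⟩
    · have := hSZU k r0 s0 hk t.1 hA X hXp.le t.2 hG
      rw [h2] at this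
      exact this
    · have := hX0 X hXa k r0 s0 hk t.1 hA t.2 hG a1
      rw [h2] at this
      exact this
  rcases F.eq_empty_or_nonempty with hE | ⟨t0, ht0⟩
  · rw [hE]; simp
  obtain ⟨-, hdsq, -, hdu, hdl, hdsm, -⟩ := hmem t0 ht0
  have hdpos : 0 < d := by
    have : (0 : ℝ) < d := lt_of_lt_of_le (by positivity) hdl
    exact_mod_cast this
  set P := d.primeFactors.filter (fun p => Yx X < p) with hP
  have hcard : P.card ≤ 999 := by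
    apply hNP (Yx X) d 999 hdpos
    have h1 : X ^ (1 / 1000 : ℝ) < (Yx X : ℝ) + 1 := by
      unfold Yx
      exact Nat.lt_floor_add_one _
    have h2 : X < ((Yx X : ℝ) + 1) ^ 1000 := by
      have h3 : (X ^ (1 / 1000 : ℝ)) ^ 1000 = X := by
        rw [← Real.rpow_natCast, ← Real.rpow_mul hXp.le]
        norm_num
      calc X = (X ^ (1 / 1000 : ℝ)) ^ 1000 := h3.symm
        _ < ((Yx X : ℝ) + 1) ^ 1000 :=
          pow_lt_pow_left₀ h1 (Real.rpow_nonneg hXp.le _) (by norm_num)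
    have h4 : (d : ℝ) < (((Yx X + 1) ^ (999 + 1) : ℕ) : ℝ) := by
      push_cast
      have : (d : ℝ) < X := by linarith
      exact this.trans h2
    exact_mod_cast h4
  -- the product of the large primes is large
  have hro : x ^ 54 / 4 < ((∏ p ∈ P, p : ℕ) : ℝ) := by
    have h1 : sm (Yx X) d * ro (Yx X) d = d := hSMR (Yx X) d hdsq
    have h2 : (sm (Yx X) d : ℝ) * (ro (Yx X) d : ℝ) = d := by exact_mod_cast h1
    have h3 : (sm (Yx X) d : ℝ) ≤ x ^ 25 := by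
      have : Bx X = x ^ 25 := hx4
      rw [← this]; exact hdsm
    have h4 : x ^ 100 / 6000 ≤ x ^ 25 * (ro (Yx X) d : ℝ) := by
      calc x ^ 100 / 6000 = X / 6000 := by rw [hx100]
        _ ≤ (d : ℝ) := hdl
        _ = (sm (Yx X) d : ℝ) * (ro (Yx X) d : ℝ) := h2.symm
        _ ≤ x ^ 25 * (ro (Yx X) d : ℝ) := mul_le_mul_of_nonneg_right h3 (Nat.cast_nonneg _)
    have hx25 : 0 < x ^ 25 := by positivity
    have h5 : x ^ 75 / 6000 ≤ (ro (Yx X) d : ℝ) := by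
      have h6 : x ^ 25 * (x ^ 75 / 6000) ≤ x ^ 25 * (ro (Yx X) d : ℝ) := by
        calc x ^ 25 * (x ^ 75 / 6000) = x ^ 100 / 6000 := by ring
          _ ≤ _ := h4
      exact le_of_mul_le_mul_left h6 hx25
    have h7 : x ^ 54 / 4 < x ^ 75 / 6000 := by
      have h8 : (2 : ℝ) ^ 21 ≤ x ^ 21 := pow_le_pow_left₀ (by norm_num) hx 21
      have h9 : (0 : ℝ) < x ^ 54 := by positivity
      have h10 : x ^ 75 = x ^ 54 * x ^ 21 := by ring
      rw [h10]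
      nlinarith [mul_le_mul_of_nonneg_left h8 h9.le]
    exact lt_of_lt_of_le h7 h5
  have hrs : ∀ t ∈ F, ∀ t' ∈ F, t.2.1 * t'.2.2 < ∏ p ∈ P, p := by
    intro t ht t' ht'
    rw [hF, mem_filter] at ht ht'
    obtain ⟨-, hD, -, -, -, hr8, -, -⟩ := data ht.1
    obtain ⟨-, hD', -, -, -, -, hs2, -⟩ := data ht'.1
    have h1 := kbound hx hx100 hxD t.1 hD
    have h2 := kbound hx hx100 hxD t'.1 hD'
    have h3 : (t.2.1 : ℝ) ≤ 8 * (Kx X t.1 : ℝ) := by exact_mod_cast hr8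
    have h4 : (t'.2.2 : ℝ) ≤ 2 * (Kx X t'.1 : ℝ) := by exact_mod_cast hs2
    have h5 : (t.2.1 : ℝ) * (t'.2.2 : ℝ) ≤ x ^ 27 * (x ^ 27 / 4) :=
      mul_le_mul (by linarith) (by linarith) (Nat.cast_nonneg _) (by positivity)
    have h6 : ((t.2.1 * t'.2.2 : ℕ) : ℝ) < ((∏ p ∈ P, p : ℕ) : ℝ) := by
      refine lt_of_le_of_lt ?_ hro
      push_cast
      calc (t.2.1 : ℝ) * (t'.2.2 : ℝ) ≤ x ^ 27 * (x ^ 27 / 4) := h5
        _ = x ^ 54 / 4 := by ring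
    exact_mod_cast h6
  -- the distribution of the primes
  have hdist : ∀ t ∈ F, ∀ p ∈ P, ∃ i, p ∣ fm i t.2.1 t.2.2 := by
    intro t ht p hp
    obtain ⟨h1, -, -, -, -, -, h2⟩ := hmem t ht
    rw [hP, mem_filter] at hp
    have hpp : p.Prime := Nat.prime_of_mem_primeFactors hp.1
    have hpd : p ∣ d := Nat.dvd_of_mem_primeFactors hp.1
    have h3 : p ∣ D0 t.2.1 t.2.2 := by
      rw [← h2] at hpd
      exact hpd.trans (Nat.div_dvd_of_dvd h1)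
    unfold D0 at h3
    rcases (hpp.dvd_mul).1 h3 with h3 | h3
    · rcases (hpp.dvd_mul).1 h3 with h3 | h3
      · rcases (hpp.dvd_mul).1 h3 with h3 | h3
        · exact ⟨0, h3⟩
        · exact ⟨1, h3⟩
      · exact ⟨2, h3⟩
    · exact ⟨3, h3⟩
  let f : ((_ : Fin 4 → ℕ) × ℕ × ℕ) → ({p // p ∈ P} → Fin 4) := fun t p =>
    if h : ∃ i, (p : ℕ) ∣ fm i t.2.1 t.2.2 then h.choose else 0
  have hf : ∀ t ∈ F, ∀ p : {p // p ∈ P}, (p : ℕ) ∣ fm (f t p) t.2.1 t.2.2 := by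
    intro t ht p
    have h := hdist t ht p p.2
    simp only [f, dif_pos h]
    exact h.choose_spec
  have hinj : Set.InjOn f F := by
    intro t ht t' ht' hff
    have ht1 := ht
    have ht1' := ht'
    rw [mem_coe] at ht ht'
    obtain ⟨-, -, hc, -, -, -, -⟩ := hmem t ht
    obtain ⟨-, -, hc', -, -, -, -⟩ := hmem t' ht'
    have hu := ht
    have hu' := ht'
    rw [hF, mem_filter] at hu hu'
    obtain ⟨hA, hD, hG, hs0, hsr, hr8, hs2, hr, hs, hsq, hSv, hsm⟩ := data hu.1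
    obtain ⟨hA', hD', hG', hs0', hsr', hr8', hs2', hr', hs', hsq', hSv', hsm'⟩ := data hu'.1
    have h1 := hINJ t.2.1 t.2.2 t'.2.1 t'.2.2 P hs0 hsr hs0' hsr' hc hc'
      (fun p hp => by
        rw [hP, mem_filter] at hp
        exact Nat.prime_of_mem_primeFactors hp.1)
      (fun p hp => ⟨f t ⟨p, hp⟩, hf t ht ⟨p, hp⟩, by
        rw [hff]
        exact hf t' ht' ⟨p, hp⟩⟩)
      (hrs t ht t' ht') (hrs t' ht' t ht)
    obtain ⟨e1, e2⟩ := h1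
    have e3 : t.1 = t'.1 := by
      refine hVU t.1 t'.1 hA hA' t.2.1 t.2.2 hs0 hsr hsq ?_ hSv ?_
      · rw [e1, e2]; exact hsq'
      · rw [e1, e2]; exact hSv'
    obtain ⟨v, r, s⟩ := t
    obtain ⟨v', r', s'⟩ := t'
    simp only at e1 e2 e3
    subst e1 e2 e3
    rfl
  have hle : F.card ≤ (univ : Finset ({p // p ∈ P} → Fin 4)).card :=
    Finset.card_le_card_of_injOn f (fun t _ => mem_coe.2 (mem_univ _)) hinj
  refine hle.trans ?_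
  rw [Finset.card_univ, Fintype.card_fun, Fintype.card_fin, Fintype.card_coe]
  exact Nat.pow_le_pow_right (by norm_num) (by omega)

end Pool.Agent.H33R6.TFIB
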