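import Pool.Agent.H33R6.Defs

namespace Pool.Agent.H33R6.TH1

open Finset Pool.Agent.H33R6

open scoped Classical

/-- sum of `1/n`, `n ≤ D` coprime to `m` -/
noncomputable def FF (m D : ℕ) : ℝ := ∑ n ∈ (Icc 1 D).filter (fun n => Nat.Coprime n m), (1 : ℝ) / n

theorem step (m D p : ℕ) (hp : p.Prime) : (1 - 1 / (p : ℝ)) * FF m D ≤ FF (p * m) D := by
  set A : Finset ℕ := (Icc 1 D).filter (fun n => Nat.Coprime n m) with hA
  have hpR : (0 : ℝ) < p := by exact_mod_cast hp.pos
  have h1 : ∑ n ∈ A.filter (fun n => p ∣ n), (1 : ℝ) / n + ∑ n ∈ A.filter (fun n => ¬ p ∣ n),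
      (1 : ℝ) / n = FF m D := by
    unfold FF
    exact Finset.sum_filter_add_sum_filter_not _ _ _
  have h2 : A.filter (fun n => ¬ p ∣ n) = (Icc 1 D).filter (fun n => Nat.Coprime n (p * m)) := by
    ext n
    simp only [hA, Finset.mem_filter, Nat.coprime_mul_iff_right]
    have : Nat.Coprime n p ↔ ¬ p ∣ n := by
      rw [Nat.coprime_comm]
      exact hp.coprime_iff_not_dvd
    rw [this]
    tauto
  have h3 : ∑ n ∈ A.filter (fun n => p ∣ n), (1 : ℝ) / n ≤ 1 / (p : ℝ) * FF m D := by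
    have hsub : A.filter (fun n => p ∣ n) ⊆ A.image (fun n => p * n) := by
      intro n hn
      rw [Finset.mem_filter, hA, Finset.mem_filter, Finset.mem_Icc] at hn
      obtain ⟨⟨⟨hn1, hnD⟩, hcop⟩, n', rfl⟩ := hn
      rw [Finset.mem_image]
      refine ⟨n', ?_, rfl⟩
      rw [hA, Finset.mem_filter, Finset.mem_Icc]
      have hn'0 : 1 ≤ n' := by
        rcases Nat.eq_zero_or_pos n' with h | h
        · subst h; simp at hn1
        · exact h
      refine ⟨⟨hn'0, ?_⟩, Nat.Coprime.coprime_mul_left hcop⟩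
      exact le_trans (Nat.le_mul_of_pos_left n' hp.pos) hnD
    refine (Finset.sum_le_sum_of_subset_of_nonneg hsub (fun n _ _ => by positivity)).trans ?_
    rw [Finset.sum_image (fun a _ b _ h => Nat.eq_of_mul_eq_mul_left hp.pos h)]
    unfold FF
    rw [Finset.mul_sum]
    apply le_of_eq
    apply Finset.sum_congr rfl
    intro n _
    push_cast
    rw [one_div_mul_one_div]
  have h4 : ∑ n ∈ A.filter (fun n => ¬ p ∣ n), (1 : ℝ) / n = FF (p * m) D := by
    rw [h2]; rfl
  rw [h4] at h1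
  linarith [h1, h3]

theorem base (D : ℕ) : Real.log (D + 1) ≤ FF 1 D := by
  have h1 := log_add_one_le_harmonic D
  have h2 : ((harmonic D : ℚ) : ℝ) = FF 1 D := by
    unfold FF
    rw [harmonic_eq_sum_Icc]
    push_cast
    apply Finset.sum_congr
    · ext n; simp
    · intro n _; rw [one_div]
  rw [← h2]
  exact_mod_cast h1

theorem t_H1 : S_H1 := by
  intro D _
  have h0 := base D
  have h2 := step 1 D 2 Nat.prime_two
  have h3 := step (2 * 1) D 3 Nat.prime_three
  have h5 := step (3 * (2 * 1)) D 5 Nat.prime_five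
  have h7 := step (5 * (3 * (2 * 1))) D 7 (by norm_num)
  have he : hs D = FF (7 * (5 * (3 * (2 * 1)))) D := by
    unfold hs FF
    norm_num
  rw [he]
  norm_num at h2 h3 h5 h7 ⊢
  linarith

end Pool.Agent.H33R6.TH1
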