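import Pool.Agent.H33R6.Defs

namespace Pool.Agent.H33R6.TINJ

open Finset Pool.Agent.H33R6

theorem key (p r s r' s' : ℕ) (h1 : s < r) (h2 : s' < r') (i : Fin 4) (h3 : p ∣ fm i r s)
    (h4 : p ∣ fm i r' s') : (p : ℤ) ∣ (r : ℤ) * s' - r' * s := by
  fin_cases i
  · have a1 : (p : ℤ) ∣ r := by exact_mod_cast h3
    have a2 : (p : ℤ) ∣ r' := by exact_mod_cast h4
    exact dvd_sub (Dvd.dvd.mul_right a1 _) (Dvd.dvd.mul_right a2 _)
  · have a1 : (p : ℤ) ∣ s := by exact_mod_cast h3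
    have a2 : (p : ℤ) ∣ s' := by exact_mod_cast h4
    exact dvd_sub (Dvd.dvd.mul_left a2 _) (Dvd.dvd.mul_left a1 _)
  · have b1 : p ∣ r - s := h3
    have b2 : p ∣ r' - s' := h4
    have a1 : (p : ℤ) ∣ (r : ℤ) - s := by
      have := Int.natCast_dvd_natCast.mpr b1
      rwa [Nat.cast_sub h1.le] at this
    have a2 : (p : ℤ) ∣ (r' : ℤ) - s' := by
      have := Int.natCast_dvd_natCast.mpr b2
      rwa [Nat.cast_sub h2.le] at this
    have e : (r : ℤ) * s' - r' * s = ((r : ℤ) - s) * s' - ((r' : ℤ) - s') * s := by ring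
    rw [e]
    exact dvd_sub (Dvd.dvd.mul_right a1 _) (Dvd.dvd.mul_right a2 _)
  · have b1 : p ∣ r + s := h3
    have b2 : p ∣ r' + s' := h4
    have a1 : (p : ℤ) ∣ (r : ℤ) + s := by exact_mod_cast b1
    have a2 : (p : ℤ) ∣ (r' : ℤ) + s' := by exact_mod_cast b2
    have e : (r : ℤ) * s' - r' * s = ((r : ℤ) + s) * s' - ((r' : ℤ) + s') * s := by ring
    rw [e]
    exact dvd_sub (Dvd.dvd.mul_right a1 _) (Dvd.dvd.mul_right a2 _)

theorem t_INJ : S_INJ := by
  intro r s r' s' P hs hsr hs' hsr' hc hc' hP hd h1 h2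
  have h3 : (∏ p ∈ P, p) ∣ ((r : ℤ) * s' - r' * s).natAbs := by
    apply Finset.prod_primes_dvd
    · intro p hp
      exact (hP p hp).prime
    · intro p hp
      obtain ⟨i, hi1, hi2⟩ := hd p hp
      exact Int.natCast_dvd.mp (key p r s r' s' hsr hsr' i hi1 hi2)
  have h4 : ((r : ℤ) * s' - r' * s).natAbs < ∏ p ∈ P, p := by
    have e1 : (r : ℤ) * s' = ((r * s' : ℕ) : ℤ) := by push_cast; ring
    have e2 : (r' : ℤ) * s = ((r' * s : ℕ) : ℤ) := by push_cast; ring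
    rw [e1, e2]
    omega
  have h5 := Nat.eq_zero_of_dvd_of_lt h3 h4
  have h6 : r * s' = r' * s := by
    have h7 : (r : ℤ) * s' - r' * s = 0 := Int.natAbs_eq_zero.mp h5
    have h8 : (r : ℤ) * s' = r' * s := by linarith
    exact_mod_cast h8
  have h7 : r ∣ r' := by
    have : r ∣ r' * s := ⟨s', h6.symm⟩
    exact hc.dvd_of_dvd_mul_right this
  have h8 : r' ∣ r := by
    have : r' ∣ r * s' := ⟨s, h6⟩
    exact hc'.dvd_of_dvd_mul_right this
  have h9 : r = r' := Nat.dvd_antisymm h7 h8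
  subst h9
  refine ⟨rfl, ?_⟩
  have h10 : r * s' = r * s := h6
  exact (Nat.eq_of_mul_eq_mul_left (by omega) h10).symm

end Pool.Agent.H33R6.TINJ
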