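import Pool.Agent.H33R6.Defs

/-!
# Task MAIN: asymptotic assembly
-/

namespace Pool.Agent.H33R6.TMAIN

open Finset Pool.Agent.H33R6

open scoped Classical

lemma mem_VD {D : ℕ} {v : Fin 4 → ℕ} (hv : v ∈ VD D) : (∀ i, 1 ≤ v i ∧ v i ≤ D) ∧ Adm v := by
  unfold VD at hv
  rw [Finset.mem_filter, Fintype.mem_piFinset] at hv
  exact ⟨fun i => Finset.mem_Icc.mp (hv.1 i), hv.2⟩

lemma qv_ge {D : ℕ} {v : Fin 4 → ℕ} (hv : v ∈ VD D) : 1 ≤ qv v := by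
  unfold qv
  exact Finset.one_le_prod' fun i _ => ((mem_VD hv).1 i).1

lemma qv_le {D : ℕ} {v : Fin 4 → ℕ} (hv : v ∈ VD D) : qv v ≤ D ^ 4 := by
  unfold qv
  refine (Finset.prod_le_prod' fun i _ => ((mem_VD hv).1 i).2).trans ?_
  simp

lemma card_VD (D : ℕ) : (VD D).card ≤ D ^ 4 := by
  unfold VD
  refine (Finset.card_filter_le _ _).trans ?_
  rw [Fintype.card_piFinset]
  simp

/-- bounds for one vector -/
lemma one (hPV : S_PV) {j k r0 s0 : ℕ} (hres : Res j k r0 s0) {X : ℝ} (hX1 : 1 ≤ X)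
    (hX2 : 64000000 ≤ X ^ (1 / 2 : ℝ)) (hX3 : 14000 ≤ Real.log X) {v : Fin 4 → ℕ}
    (hv : v ∈ VD (Dx X)) :
    X ^ (1 / 2 : ℝ) / (16 * (Mo : ℝ) ^ 2) * ((499 / 500 * (22 / 27 - 1 / 50)) * (1 / (qv v : ℝ)) -
        1 / (qv v : ℝ) * ∑ p ∈ (qv v).primeFactors, (1 : ℝ) / p) - 600 * X ^ (457 / 1000 : ℝ) ≤
      ((Gd k r0 s0 v (Kx X v) (Yx X) (Bx X)).card : ℝ) := by
  have hX0 : 0 < X := by linarith
  set q : ℝ := (qv v : ℝ) with hq
  have hq1 : 1 ≤ q := by rw [hq]; exact_mod_cast qv_ge hv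
  have hq0 : 0 < q := by linarith
  have hD : (Dx X : ℝ) ≤ X ^ (1 / 100 : ℝ) := Nat.floor_le (by positivity)
  have hqD : q ≤ X ^ (4 / 100 : ℝ) := by
    have h1 : q ≤ (Dx X : ℝ) ^ 4 := by rw [hq]; exact_mod_cast qv_le hv
    have h2 : (Dx X : ℝ) ^ 4 ≤ (X ^ (1 / 100 : ℝ)) ^ 4 :=
      pow_le_pow_left₀ (Nat.cast_nonneg _) hD 4
    have h3 : (X ^ (1 / 100 : ℝ)) ^ 4 = X ^ (4 / 100 : ℝ) := by
      rw [← Real.rpow_natCast, ← Real.rpow_mul hX0.le]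
      norm_num
    linarith
  -- the real number `s = (q^2 X)^(1/4)`
  set s : ℝ := (q ^ 2 * X) ^ (1 / 4 : ℝ) with hs
  have hqX : 0 < q ^ 2 * X := by positivity
  have hs0 : 0 < s := by rw [hs]; positivity
  have hs2 : s ^ 2 = q * X ^ (1 / 2 : ℝ) := by
    rw [hs, ← Real.rpow_natCast, ← Real.rpow_mul hqX.le]
    rw [show (1 / 4 : ℝ) * ((2 : ℕ) : ℝ) = 1 / 2 by norm_num, Real.mul_rpow (by positivity) hX0.le]
    congr 1
    rw [← Real.sqrt_eq_rpow, Real.sqrt_sq hq0.le]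
  have hs8000 : 8000 ≤ s := by
    have h1 : (8000 : ℝ) ^ 2 ≤ s ^ 2 := by
      rw [hs2]
      have : X ^ (1 / 2 : ℝ) ≤ q * X ^ (1 / 2 : ℝ) := le_mul_of_one_le_left (by positivity) hq1
      linarith
    exact le_of_pow_le_pow_left₀ two_ne_zero hs0.le h1
  have hK : (Kx X v : ℕ) = ⌊s / 8⌋₊ := rfl
  have hKle : (Kx X v : ℝ) ≤ s / 8 := by rw [hK]; exact Nat.floor_le (by positivity)
  have hKlt : s / 8 - 1 < (Kx X v : ℝ) := by rw [hK]; exact Nat.sub_one_lt_floor _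
  have hK1 : 1 ≤ Kx X v := by
    have : (0 : ℝ) < Kx X v := by linarith
    exact_mod_cast this
  have hK0 : (0 : ℝ) ≤ Kx X v := Nat.cast_nonneg _
  -- `Y` and `B`
  have hYle : (Yx X : ℝ) ≤ X ^ (1 / 1000 : ℝ) := Nat.floor_le (by positivity)
  have hY1 : 1 ≤ Yx X := by
    unfold Yx
    rw [Nat.one_le_floor_iff]
    exact Real.one_le_rpow hX1 (by norm_num)
  have hY1' : (1 : ℝ) ≤ Yx X := by exact_mod_cast hY1
  have hlogY : Real.log (Yx X) ≤ Real.log X / 1000 := by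
    have h1 := Real.log_le_log (by linarith) hYle
    rw [Real.log_rpow hX0] at h1
    linarith
  have hlogB : Real.log (Bx X) = Real.log X / 4 := by
    unfold Bx
    rw [Real.log_rpow hX0]
    ring
  have hB1 : 1 < Bx X := by
    unfold Bx
    apply Real.one_lt_rpow _ (by norm_num)
    by_contra hcon
    push Not at hcon
    have := Real.log_nonpos hX0.le hcon
    linarith
  have hmain := hPV j k r0 s0 hres v (mem_VD hv).2 (Kx X v) hK1 (Yx X) hY1 (Bx X) hB1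
  rw [← hq] at hmain
  set L : ℝ := Real.log X with hL
  set P : ℝ := ∑ p ∈ (qv v).primeFactors, (1 : ℝ) / p with hP
  have hP0 : 0 ≤ P := Finset.sum_nonneg fun p _ => by positivity
  set T : ℝ := X ^ (1 / 2 : ℝ) / (16 * (Mo : ℝ) ^ 2) with hT
  have hMo : (0 : ℝ) < (Mo : ℝ) ^ 2 := by unfold Mo; positivity
  have hT0 : 0 < T := by rw [hT]; positivity
  -- bounds for `W`
  have hWdef : W (Kx X v) v = 4 * (Kx X v : ℝ) ^ 2 / ((Mo : ℝ) ^ 2 * q ^ 2) := rfl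
  have hTq : T / q = 4 * (s ^ 2 / 64) / ((Mo : ℝ) ^ 2 * q ^ 2) := by
    rw [hs2, hT]
    field_simp
    ring
  have hWle : W (Kx X v) v ≤ T / q := by
    rw [hWdef, hTq]
    apply div_le_div_of_nonneg_right _ (by positivity)
    have : (Kx X v : ℝ) ^ 2 ≤ (s / 8) ^ 2 := pow_le_pow_left₀ hK0 hKle 2
    nlinarith
  have hWge : 499 / 500 * (T / q) ≤ W (Kx X v) v := by
    rw [hWdef, hTq, ← mul_div_assoc]
    apply div_le_div_of_nonneg_right _ (by positivity)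
    have h1 : (s / 8 - 1) ^ 2 ≤ (Kx X v : ℝ) ^ 2 :=
      pow_le_pow_left₀ (by linarith) hKlt.le 2
    nlinarith
  have hW0 : 0 ≤ W (Kx X v) v := by rw [hWdef]; positivity
  -- the factor
  have hfac : (14 + 4 * Real.log (Yx X)) / Real.log (Bx X) ≤ 1 / 50 := by
    rw [hlogB, div_le_iff₀ (by linarith)]
    linarith
  have hA : W (Kx X v) v * (1 - 5 / 27 - P - (14 + 4 * Real.log (Yx X)) / Real.log (Bx X)) ≥
      T * ((499 / 500 * (22 / 27 - 1 / 50)) * (1 / q) - 1 / q * P) := by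
    have h1 : W (Kx X v) v * (22 / 27 - 1 / 50) ≥ 499 / 500 * (T / q) * (22 / 27 - 1 / 50) :=
      mul_le_mul_of_nonneg_right hWge (by norm_num)
    have h2 : W (Kx X v) v * P ≤ T / q * P := mul_le_mul_of_nonneg_right hWle hP0
    have h3 : W (Kx X v) v * ((14 + 4 * Real.log (Yx X)) / Real.log (Bx X)) ≤
        W (Kx X v) v * (1 / 50) := mul_le_mul_of_nonneg_left hfac hW0
    have h4 : T * ((499 / 500 * (22 / 27 - 1 / 50)) * (1 / q) - 1 / q * P) =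
        499 / 500 * (T / q) * (22 / 27 - 1 / 50) - T / q * P := by ring
    have h5 : W (Kx X v) v * (1 - 5 / 27 - P - (14 + 4 * Real.log (Yx X)) / Real.log (Bx X)) =
        W (Kx X v) v * (22 / 27 - 1 / 50) + W (Kx X v) v * (1 / 50) - W (Kx X v) v * P -
          W (Kx X v) v * ((14 + 4 * Real.log (Yx X)) / Real.log (Bx X)) := by ring
    rw [h4, h5]
    linarith
  -- the error
  have hE : 300 * (Kx X v : ℝ) ^ (3 / 2 : ℝ) * q * (Yx X : ℝ) ^ 2 * (1 + 1 / Real.log (Bx X)) ≤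
      600 * X ^ (457 / 1000 : ℝ) := by
    have h1 : (Kx X v : ℝ) ^ (3 / 2 : ℝ) ≤ q * X ^ (3 / 8 : ℝ) := by
      have e1 : (Kx X v : ℝ) ^ (3 / 2 : ℝ) ≤ s ^ (3 / 2 : ℝ) :=
        Real.rpow_le_rpow hK0 (by linarith) (by norm_num)
      have e2 : s ^ (3 / 2 : ℝ) = (q ^ 2) ^ (3 / 8 : ℝ) * X ^ (3 / 8 : ℝ) := by
        rw [hs, ← Real.rpow_mul hqX.le, ← Real.mul_rpow (by positivity) hX0.le]
        norm_num
      have e3 : (q ^ 2) ^ (3 / 8 : ℝ) ≤ q := by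
        have : (q ^ 2) ^ (3 / 8 : ℝ) = q ^ (3 / 4 : ℝ) := by
          rw [← Real.rpow_natCast, ← Real.rpow_mul hq0.le]
          norm_num
        rw [this]
        calc q ^ (3 / 4 : ℝ) ≤ q ^ (1 : ℝ) := Real.rpow_le_rpow_of_exponent_le hq1 (by norm_num)
          _ = q := Real.rpow_one q
      rw [e2] at e1
      exact e1.trans (mul_le_mul_of_nonneg_right e3 (by positivity))
    have h2 : (Yx X : ℝ) ^ 2 ≤ X ^ (2 / 1000 : ℝ) := by
      have e1 : (Yx X : ℝ) ^ 2 ≤ (X ^ (1 / 1000 : ℝ)) ^ 2 :=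
        pow_le_pow_left₀ (by linarith) hYle 2
      have e2 : (X ^ (1 / 1000 : ℝ)) ^ 2 = X ^ (2 / 1000 : ℝ) := by
        rw [← Real.rpow_natCast, ← Real.rpow_mul hX0.le]
        norm_num
      linarith
    have h3 : 1 + 1 / Real.log (Bx X) ≤ 2 := by
      rw [hlogB]
      have : 1 / (L / 4) ≤ 1 := by
        rw [div_le_one (by linarith)]
        linarith
      linarith
    have h30 : 0 ≤ 1 + 1 / Real.log (Bx X) := by
      rw [hlogB]
      positivity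
    have h4 : (Kx X v : ℝ) ^ (3 / 2 : ℝ) * q ≤ X ^ (3 / 8 : ℝ) * X ^ (8 / 100 : ℝ) := by
      have e1 : (Kx X v : ℝ) ^ (3 / 2 : ℝ) * q ≤ q * X ^ (3 / 8 : ℝ) * q :=
        mul_le_mul_of_nonneg_right h1 hq0.le
      have e2 : q * q ≤ X ^ (8 / 100 : ℝ) := by
        have : X ^ (8 / 100 : ℝ) = X ^ (4 / 100 : ℝ) * X ^ (4 / 100 : ℝ) := by
          rw [← Real.rpow_add hX0]
          norm_num
        rw [this]
        exact mul_le_mul hqD hqD hq0.le (by positivity)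
      have e3 : q * X ^ (3 / 8 : ℝ) * q = X ^ (3 / 8 : ℝ) * (q * q) := by ring
      rw [e3] at e1
      exact e1.trans (mul_le_mul_of_nonneg_left e2 (by positivity))
    have h5 : (Kx X v : ℝ) ^ (3 / 2 : ℝ) * q * (Yx X : ℝ) ^ 2 ≤
        X ^ (3 / 8 : ℝ) * X ^ (8 / 100 : ℝ) * X ^ (2 / 1000 : ℝ) :=
      mul_le_mul h4 h2 (by positivity) (by positivity)
    have h6 : X ^ (3 / 8 : ℝ) * X ^ (8 / 100 : ℝ) * X ^ (2 / 1000 : ℝ) = X ^ (457 / 1000 : ℝ) := by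
      rw [← Real.rpow_add hX0, ← Real.rpow_add hX0]
      norm_num
    rw [h6] at h5
    calc 300 * (Kx X v : ℝ) ^ (3 / 2 : ℝ) * q * (Yx X : ℝ) ^ 2 * (1 + 1 / Real.log (Bx X)) =
        300 * ((Kx X v : ℝ) ^ (3 / 2 : ℝ) * q * (Yx X : ℝ) ^ 2) * (1 + 1 / Real.log (Bx X)) := by
          ring
      _ ≤ 300 * X ^ (457 / 1000 : ℝ) * 2 :=
          mul_le_mul (by linarith) h3 h30 (by positivity)
      _ = 600 * X ^ (457 / 1000 : ℝ) := by ring
  linarith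

theorem t_MAIN : S_PV → S_V1 → S_V2 → S_H1 → S_MAIN := by
  intro hPV hV1 hV2 hH1 j k r0 s0 hres
  set c : ℝ := 1 / 5 * (2 / 875) ^ 4 / (16 * (Mo : ℝ) ^ 2) with hc
  have hMo : (0 : ℝ) < (Mo : ℝ) ^ 2 := by unfold Mo; positivity
  have hc0 : 0 < c := by rw [hc]; positivity
  refine ⟨c, hc0, ?_⟩
  have ev : ∀ᶠ X : ℝ in Filter.atTop, 1 ≤ X ∧ 64000000 ≤ X ^ (1 / 2 : ℝ) ∧ 14000 ≤ Real.log X ∧
      600 / c ≤ X ^ (3 / 1000 : ℝ) := by
    refine (Filter.eventually_ge_atTop 1).and (((tendsto_rpow_atTop (by norm_num)).eventually_ge_atTop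
      _).and ((Real.tendsto_log_atTop.eventually_ge_atTop _).and
      ((tendsto_rpow_atTop (by norm_num)).eventually_ge_atTop _)))
  obtain ⟨X0, hX0⟩ := Filter.eventually_atTop.mp ev
  refine ⟨X0, fun X hX => ?_⟩
  obtain ⟨hX1, hX2, hX3, hX4⟩ := hX0 X hX
  have hXpos : 0 < X := by linarith
  set D : ℕ := Dx X with hD
  have hD1 : 1 ≤ D := by
    rw [hD]
    unfold Dx
    rw [Nat.one_le_floor_iff]
    exact Real.one_le_rpow hX1 (by norm_num)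
  have hDle : (D : ℝ) ≤ X ^ (1 / 100 : ℝ) := Nat.floor_le (by positivity)
  have hDlt : X ^ (1 / 100 : ℝ) < (D : ℝ) + 1 := Nat.lt_floor_add_one _
  set L : ℝ := Real.log X with hL
  have hlogD : L / 100 ≤ Real.log (D + 1) := by
    have h1 := Real.log_le_log (by positivity) hDlt.le
    rw [Real.log_rpow hXpos] at h1
    linarith
  have hhs : 2 / 875 * L ≤ hs D := by
    have h1 := hH1 D hD1
    linarith
  have hhs4 : (2 / 875) ^ 4 * L ^ 4 ≤ hs D ^ 4 := by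
    rw [← mul_pow]
    exact pow_le_pow_left₀ (by positivity) hhs 4
  have hsum := Finset.sum_le_sum fun v (hv : v ∈ VD D) => one hPV hres hX1 hX2 hX3 hv
  refine le_trans ?_ hsum
  rw [Finset.sum_sub_distrib, ← Finset.mul_sum, Finset.sum_sub_distrib, ← Finset.mul_sum,
    Finset.sum_const, nsmul_eq_mul]
  have h1 := hV1 D hD1
  have h2 := hV2 D hD1
  set T : ℝ := X ^ (1 / 2 : ℝ) / (16 * (Mo : ℝ) ^ 2) with hT
  have hT0 : 0 < T := by rw [hT]; positivity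
  set S1 : ℝ := ∑ v ∈ VD D, (1 : ℝ) / qv v with hS1
  set S2 : ℝ := ∑ v ∈ VD D, (1 : ℝ) / qv v * ∑ p ∈ (qv v).primeFactors, (1 : ℝ) / p with hS2
  have h3 : 2 / 5 * hs D ^ 4 ≤ 499 / 500 * (22 / 27 - 1 / 50) * S1 - S2 := by
    have h4 : 0 ≤ hs D ^ 4 := by positivity
    nlinarith
  have h5 : T * (2 / 5 * ((2 / 875) ^ 4 * L ^ 4)) ≤
      T * (499 / 500 * (22 / 27 - 1 / 50) * S1 - S2) :=
    mul_le_mul_of_nonneg_left (by linarith) hT0.le
  have h6 : T * (2 / 5 * ((2 / 875) ^ 4 * L ^ 4)) = 2 * (c * X ^ (1 / 2 : ℝ) * L ^ 4) := by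
    rw [hT, hc]
    ring
  -- the error
  have hcard : ((VD D).card : ℝ) ≤ X ^ (4 / 100 : ℝ) := by
    have e1 : ((VD D).card : ℝ) ≤ (D : ℝ) ^ 4 := by exact_mod_cast card_VD D
    have e2 : (D : ℝ) ^ 4 ≤ (X ^ (1 / 100 : ℝ)) ^ 4 := pow_le_pow_left₀ (Nat.cast_nonneg _) hDle 4
    have e3 : (X ^ (1 / 100 : ℝ)) ^ 4 = X ^ (4 / 100 : ℝ) := by
      rw [← Real.rpow_natCast, ← Real.rpow_mul hXpos.le]
      norm_num
    linarith
  have h7 : ((VD D).card : ℝ) * (600 * X ^ (457 / 1000 : ℝ)) ≤ 600 * X ^ (497 / 1000 : ℝ) := by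
    have e1 : ((VD D).card : ℝ) * (600 * X ^ (457 / 1000 : ℝ)) ≤
        X ^ (4 / 100 : ℝ) * (600 * X ^ (457 / 1000 : ℝ)) :=
      mul_le_mul_of_nonneg_right hcard (by positivity)
    have e2 : X ^ (4 / 100 : ℝ) * (600 * X ^ (457 / 1000 : ℝ)) = 600 * X ^ (497 / 1000 : ℝ) := by
      rw [mul_left_comm, ← Real.rpow_add hXpos]
      norm_num
    linarith
  have h8 : 600 * X ^ (497 / 1000 : ℝ) ≤ c * X ^ (1 / 2 : ℝ) * L ^ 4 := by
    have e1 : X ^ (1 / 2 : ℝ) = X ^ (3 / 1000 : ℝ) * X ^ (497 / 1000 : ℝ) := by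
      rw [← Real.rpow_add hXpos]
      norm_num
    have e2 : 600 ≤ c * X ^ (3 / 1000 : ℝ) := by
      rw [div_le_iff₀ hc0] at hX4
      linarith
    have e3 : (1 : ℝ) ≤ L ^ 4 := one_le_pow₀ (by linarith)
    have e4 : 600 * X ^ (497 / 1000 : ℝ) ≤ c * X ^ (3 / 1000 : ℝ) * X ^ (497 / 1000 : ℝ) :=
      mul_le_mul_of_nonneg_right e2 (by positivity)
    have e5 : c * X ^ (3 / 1000 : ℝ) * X ^ (497 / 1000 : ℝ) = c * X ^ (1 / 2 : ℝ) := by
      rw [e1]; ring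
    rw [e5] at e4
    have e6 : c * X ^ (1 / 2 : ℝ) * 1 ≤ c * X ^ (1 / 2 : ℝ) * L ^ 4 :=
      mul_le_mul_of_nonneg_left e3 (by positivity)
    linarith
  linarith

end Pool.Agent.H33R6.TMAIN
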