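import Pool.Agent.H33R6.Defs

namespace Pool.Agent.H33R6.TMER

open Finset Pool.Agent.H33R6

theorem pdvd {p Y : ℕ} (hp : p.Prime) : p ^ (Y / p) ∣ Y.factorial := by
  rw [hp.pow_dvd_factorial_iff (b := Nat.log p Y + 2) (by omega)]
  have h1 : Y / p = Y / p ^ 1 := by rw [pow_one]
  rw [h1]
  exact Finset.single_le_sum (f := fun i => Y / p ^ i) (fun _ _ => Nat.zero_le _)
    (Finset.mem_Ico.mpr ⟨le_rfl, by omega⟩)

theorem t_MER : S_MER := by
  intro Y hY
  set P := (Icc 1 Y).filter Nat.Prime with hP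
  have hmem : ∀ p ∈ P, p.Prime ∧ p ≤ Y := by
    intro p hp
    rw [hP, Finset.mem_filter, Finset.mem_Icc] at hp
    exact ⟨hp.2, hp.1.2⟩
  have hY0 : (0 : ℝ) < Y := by exact_mod_cast hY
  have h1 : (∏ p ∈ P, p ^ (Y / p)) ∣ Y.factorial := by
    apply Finset.prod_dvd_of_isRelPrime
    · intro p hp q hq hpq
      apply Nat.coprime_iff_isRelPrime.mp
      exact Nat.Coprime.pow _ _ ((Nat.coprime_primes (hmem p hp).1 (hmem q hq).1).mpr hpq)
    · intro p hp
      exact pdvd (hmem p hp).1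
  have h2 : ∏ p ∈ P, p ^ (Y / p) ≤ Y ^ Y :=
    (Nat.le_of_dvd (Nat.factorial_pos _) h1).trans (Nat.factorial_le_pow Y)
  have h3 : ∑ p ∈ P, ((Y / p : ℕ) : ℝ) * Real.log p ≤ Y * Real.log Y := by
    have h4 : ((∏ p ∈ P, p ^ (Y / p) : ℕ) : ℝ) ≤ ((Y ^ Y : ℕ) : ℝ) := by exact_mod_cast h2
    have h5 : (0 : ℝ) < ((∏ p ∈ P, p ^ (Y / p) : ℕ) : ℝ) := by
      have : 0 < ∏ p ∈ P, p ^ (Y / p) :=
        Finset.prod_pos (fun p hp => pow_pos (hmem p hp).1.pos _)
      exact_mod_cast this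
    have h6 := Real.log_le_log h5 h4
    push_cast at h6
    rw [Real.log_pow, Real.log_prod] at h6
    · refine le_trans (le_of_eq ?_) h6
      apply Finset.sum_congr rfl
      intro p _
      rw [Real.log_pow]
    · intro p hp
      have : (p : ℝ) ≠ 0 := by exact_mod_cast (hmem p hp).1.ne_zero
      exact pow_ne_zero _ this
  have h4 : ∑ p ∈ P, Real.log p ≤ Y * 2 := by
    have h5 : ∏ p ∈ P, p ≤ 4 ^ Y := by
      refine le_trans (le_of_eq ?_) (primorial_le_four_pow Y)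
      unfold primorial
      apply Finset.prod_congr _ (fun _ _ => rfl)
      ext p
      rw [hP, Finset.mem_filter, Finset.mem_Icc, Finset.mem_filter, Finset.mem_range]
      constructor
      · rintro ⟨⟨_, b⟩, c⟩
        exact ⟨by omega, c⟩
      · rintro ⟨a, b⟩
        exact ⟨⟨b.one_le, by omega⟩, b⟩
    have h6 : ((∏ p ∈ P, p : ℕ) : ℝ) ≤ ((4 ^ Y : ℕ) : ℝ) := by exact_mod_cast h5
    have h7 : (0 : ℝ) < ((∏ p ∈ P, p : ℕ) : ℝ) := by
      have : 0 < ∏ p ∈ P, p := Finset.prod_pos (fun p hp => (hmem p hp).1.pos)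
      exact_mod_cast this
    have h8 := Real.log_le_log h7 h6
    push_cast at h8
    rw [Real.log_pow, Real.log_prod] at h8
    · have h9 : Real.log 4 ≤ 2 := by
        have : (4 : ℝ) = 2 ^ 2 := by norm_num
        rw [this, Real.log_pow]
        have := Real.log_two_lt_d9
        push_cast
        linarith
      exact h8.trans (mul_le_mul_of_nonneg_left h9 hY0.le)
    · intro p hp
      exact_mod_cast (hmem p hp).1.ne_zero
  have h5 : Y * ∑ p ∈ P, Real.log p / p ≤ ∑ p ∈ P, ((Y / p : ℕ) : ℝ) * Real.log p +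
      ∑ p ∈ P, Real.log p := by
    rw [Finset.mul_sum, ← Finset.sum_add_distrib]
    apply Finset.sum_le_sum
    intro p hp
    have hp0 : (0 : ℝ) < p := by exact_mod_cast (hmem p hp).1.pos
    have hlog : 0 ≤ Real.log p := Real.log_nonneg (by exact_mod_cast (hmem p hp).1.one_le)
    have h6 : (Y : ℝ) / p ≤ ((Y / p : ℕ) : ℝ) + 1 := by
      have := Nat.lt_floor_add_one ((Y : ℝ) / p)
      rw [Nat.floor_div_eq_div] at this
      exact this.le
    calc (Y : ℝ) * (Real.log p / p) = (Y / p) * Real.log p := by ring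
      _ ≤ (((Y / p : ℕ) : ℝ) + 1) * Real.log p := mul_le_mul_of_nonneg_right h6 hlog
      _ = _ := by ring
  have h6 : (Y : ℝ) * ∑ p ∈ P, Real.log p / p ≤ Y * (Real.log Y + 2) := by
    calc (Y : ℝ) * ∑ p ∈ P, Real.log p / p ≤ _ := h5
      _ ≤ Y * Real.log Y + Y * 2 := add_le_add h3 h4
      _ = _ := by ring
  exact le_of_mul_le_mul_left h6 hY0

end Pool.Agent.H33R6.TMER
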