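import Pool.Agent.H33R6.Defs

set_option autoImplicit false

namespace Pool.Agent.H33R6.TNP

open Finset

open scoped Classical

theorem t_NP : S_NP := by
  intro Y d n hd hlt
  by_contra hc
  push Not at hc
  set S := d.primeFactors.filter (fun p => Y < p) with hS
  have h1 : ∏ p ∈ S, p ∣ d :=
    (Finset.prod_dvd_prod_of_subset _ _ _ (Finset.filter_subset _ _)).trans
      (Nat.prod_primeFactors_dvd d)
  have h2 : ∏ p ∈ S, p ≤ d := Nat.le_of_dvd hd h1
  have h3 : (Y + 1) ^ S.card ≤ ∏ p ∈ S, p := by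
    rw [← Finset.prod_const]
    refine Finset.prod_le_prod' fun p hp => ?_
    exact (mem_filter.1 hp).2
  have h4 : (Y + 1) ^ (n + 1) ≤ (Y + 1) ^ S.card :=
    Nat.pow_le_pow_right (by omega) hc
  omega

end Pool.Agent.H33R6.TNP
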