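import Pool.Agent.H33R6.Defs

/-! Task PV: lower bound for one vector. -/

set_option autoImplicit false

namespace Pool.Agent.H33R6.TPV

open Finset

open scoped Classical

theorem qv_pos {v : Fin 4 → ℕ} (hv : Adm v) : 1 ≤ qv v := by
  unfold qv
  exact Nat.one_le_iff_ne_zero.2 (Finset.prod_ne_zero_iff.2 fun i _ => by
    have := (hv.1 i).1
    omega)

theorem W_nonneg (K : ℕ) (v : Fin 4 → ℕ) : 0 ≤ W K v := by
  unfold W
  positivity

theorem mem_box {r0 s0 : ℕ} {v : Fin 4 → ℕ} {K : ℕ} {t : ℕ × ℕ} (h : t ∈ G0 r0 s0 v K) :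
    4 * K < t.1 ∧ t.1 ≤ 8 * K ∧ K < t.2 ∧ t.2 ≤ 2 * K := by
  unfold G0 at h
  rw [mem_filter, mem_product, mem_Ioc, mem_Ioc] at h
  exact ⟨h.1.1.1, h.1.1.2, h.1.2.1, h.1.2.2⟩

theorem fm_bd {K : ℕ} {t : ℕ × ℕ} (h : 4 * K < t.1 ∧ t.1 ≤ 8 * K ∧ K < t.2 ∧ t.2 ≤ 2 * K)
    (i : Fin 4) : 0 < fm i t.1 t.2 ∧ fm i t.1 t.2 ≤ 10 * K := by
  obtain ⟨h1, h2, h3, h4⟩ := h
  unfold fm
  fin_cases i <;> simp <;> omega

theorem sm_pos (Y d : ℕ) : 1 ≤ sm Y d := by
  unfold sm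
  exact Nat.one_le_iff_ne_zero.2 (Finset.prod_ne_zero_iff.2 fun p hp => by
    rw [mem_filter] at hp
    exact hp.2.1.ne_zero)

/-- both coordinates divisible by a prime -/
noncomputable def B1 (r0 s0 : ℕ) (v : Fin 4 → ℕ) (K : ℕ) : Finset (ℕ × ℕ) :=
  ((Icc 11 (2 * K)).filter Nat.Prime).biUnion fun p =>
    (G0 r0 s0 v K).filter (fun t => p ∣ t.1 ∧ p ∣ t.2)

/-- a square divides one of the forms -/
noncomputable def B2 (r0 s0 : ℕ) (v : Fin 4 → ℕ) (K : ℕ) : Finset (ℕ × ℕ) :=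
  (((Icc 11 (10 * K)).filter Nat.Prime).filter (fun p => p ^ 2 ≤ 10 * K)).biUnion fun p =>
    (univ : Finset (Fin 4)).biUnion fun i =>
      (G0 r0 s0 v K).filter (fun t => ¬ (p ∣ t.1 ∧ p ∣ t.2) ∧ p ^ 2 * (v i) ^ 2 ∣ fm i t.1 t.2)

/-- large smooth part -/
noncomputable def B3 (k r0 s0 : ℕ) (v : Fin 4 → ℕ) (K Y : ℕ) (B : ℝ) : Finset (ℕ × ℕ) :=
  ((G0 r0 s0 v K).filter (fun t => Sv v t.1 t.2)).filter
    (fun t => B < (sm Y (dv k v t.1 t.2) : ℝ))

/-- the covering -/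
theorem cover (k r0 s0 : ℕ) (v : Fin 4 → ℕ) (hv : Adm v) (K Y : ℕ) (B : ℝ) :
    G0 r0 s0 v K ⊆ Gd k r0 s0 v K Y B ∪ B1 r0 s0 v K ∪ B2 r0 s0 v K ∪ B3 k r0 s0 v K Y B := by
  unfold B1 B2 B3
  intro t ht
  have hb := mem_box ht
  by_cases hS : Sv v t.1 t.2
  · by_cases hB : (sm Y (dv k v t.1 t.2) : ℝ) ≤ B
    · refine mem_union_left _ (mem_union_left _ (mem_union_left _ ?_))
      unfold Gd
      rw [mem_filter]
      exact ⟨ht, hS, hB⟩
    · refine mem_union_right _ ?_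
      rw [mem_filter, mem_filter]
      exact ⟨⟨ht, hS⟩, not_le.1 hB⟩
  · unfold Sv at hS
    push Not at hS
    obtain ⟨p, hp, hp11, hS⟩ := hS
    by_cases hd : p ∣ t.1 ∧ p ∣ t.2
    · refine mem_union_left _ (mem_union_left _ (mem_union_right _ ?_))
      rw [mem_biUnion]
      refine ⟨p, ?_, ?_⟩
      · rw [mem_filter, mem_Icc]
        refine ⟨⟨hp11, ?_⟩, hp⟩
        exact (Nat.le_of_dvd (by omega) hd.2).trans hb.2.2.2
      · rw [mem_filter]
        exact ⟨ht, hd⟩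
    · obtain ⟨i, hi⟩ := hS (by
        intro h
        exact fun h' => hd ⟨h, h'⟩)
      refine mem_union_left _ (mem_union_right _ ?_)
      have hf := fm_bd hb i
      have h1 := Nat.le_of_dvd hf.1 hi
      have h2 : 1 ≤ v i := (hv.1 i).1
      have h3 : p ^ 2 ≤ 10 * K := by
        calc p ^ 2 = p ^ 2 * 1 := by ring
          _ ≤ p ^ 2 * (v i) ^ 2 := Nat.mul_le_mul_left _ (Nat.one_le_pow _ _ h2)
          _ ≤ 10 * K := h1.trans hf.2
      rw [mem_biUnion]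
      refine ⟨p, ?_, ?_⟩
      · rw [mem_filter, mem_filter, mem_Icc]
        refine ⟨⟨⟨hp11, ?_⟩, hp⟩, h3⟩
        nlinarith
      · rw [mem_biUnion]
        refine ⟨i, mem_univ _, ?_⟩
        rw [mem_filter]
        exact ⟨ht, hd, hi⟩

theorem sum_inv (N : ℕ) :
    ∑ p ∈ (Icc 11 N).filter Nat.Prime, (1 : ℝ) / p ≤ 1 + Real.log N := by
  have h1 : ∑ p ∈ (Icc 11 N).filter Nat.Prime, (1 : ℝ) / p ≤ ∑ p ∈ Icc 1 N, (1 : ℝ) / p := by
    apply sum_le_sum_of_subset_of_nonneg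
    · intro p hp
      rw [mem_filter, mem_Icc] at hp
      rw [mem_Icc]
      omega
    · intro p _ _
      positivity
  refine h1.trans ?_
  have h2 := harmonic_le_one_add_log N
  rw [harmonic_eq_sum_Icc] at h2
  push_cast at h2
  simpa using h2

theorem sum_E0 (hSIG : S_SIG) (v : Fin 4 → ℕ) (hv : Adm v) (K : ℕ) :
    ∑ p ∈ (Icc 11 (2 * K)).filter Nat.Prime, (if p ∣ qv v then W K v / p + 6 * K
      else W K v / (p : ℝ) ^ 2 + 5 * K / p + 1) ≤
    W K v * (∑ p ∈ (qv v).primeFactors, (1 : ℝ) / p) + 6 * K * qv v + W K v / 27 +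
      5 * K * (1 + Real.log ((2 * K : ℕ) : ℝ)) + 2 * K := by
  have hW := W_nonneg K v
  have hq := qv_pos hv
  set P := (Icc 11 (2 * K)).filter Nat.Prime with hP
  have h1 : ∀ p ∈ P, (if p ∣ qv v then W K v / p + 6 * K
      else W K v / (p : ℝ) ^ 2 + 5 * K / p + 1) ≤
      (if p ∣ qv v then W K v / p + 6 * K else 0) +
        (W K v * (1 / (p : ℝ) ^ 2) + 5 * K * (1 / p) + 1) := by
    intro p _
    split_ifs with h
    · have : 0 ≤ W K v * (1 / (p : ℝ) ^ 2) + 5 * K * (1 / p) + 1 := by positivity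
      linarith
    · rw [zero_add]
      apply le_of_eq
      ring
  refine (sum_le_sum h1).trans ?_
  rw [sum_add_distrib, sum_add_distrib, sum_add_distrib, ← mul_sum, ← mul_sum, ← sum_filter]
  have h2 : ∑ p ∈ P.filter (fun p => p ∣ qv v), (W K v / p + 6 * K) ≤
      W K v * (∑ p ∈ (qv v).primeFactors, (1 : ℝ) / p) + 6 * K * qv v := by
    calc ∑ p ∈ P.filter (fun p => p ∣ qv v), (W K v / p + 6 * K)
        ≤ ∑ p ∈ (qv v).primeFactors, (W K v / p + 6 * K) := by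
          apply sum_le_sum_of_subset_of_nonneg
          · intro p hp
            rw [mem_filter, hP, mem_filter] at hp
            rw [Nat.mem_primeFactors]
            exact ⟨hp.1.2, hp.2, by omega⟩
          · intro p _ _
            positivity
      _ = W K v * (∑ p ∈ (qv v).primeFactors, (1 : ℝ) / p) +
            ((qv v).primeFactors.card : ℝ) * (6 * K) := by
          rw [sum_add_distrib, mul_sum, sum_const, nsmul_eq_mul]
          congr 1
          exact sum_congr rfl fun p _ => by ring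
      _ ≤ _ := by
          have h3 : ((qv v).primeFactors.card : ℝ) ≤ qv v := by
            have : (qv v).primeFactors.card ≤ (Icc 1 (qv v)).card := by
              apply card_le_card
              intro p hp
              rw [Nat.mem_primeFactors] at hp
              rw [mem_Icc]
              exact ⟨hp.1.one_lt.le, Nat.le_of_dvd (by omega) hp.2.1⟩
            rw [Nat.card_Icc] at this
            have h4 : (qv v).primeFactors.card ≤ qv v := by omega
            exact_mod_cast h4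
          have h5 : ((qv v).primeFactors.card : ℝ) * (6 * K) ≤ (qv v : ℝ) * (6 * K) :=
            mul_le_mul_of_nonneg_right h3 (by positivity)
          linarith
  have h3 : W K v * ∑ p ∈ P, (1 : ℝ) / (p : ℝ) ^ 2 ≤ W K v / 27 := by
    have := mul_le_mul_of_nonneg_left (hSIG (2 * K)) hW
    refine this.trans (le_of_eq ?_)
    ring
  have h4 : 5 * (K : ℝ) * ∑ p ∈ P, (1 : ℝ) / (p : ℝ) ≤ 5 * K * (1 + Real.log ((2 * K : ℕ) : ℝ)) :=
    mul_le_mul_of_nonneg_left (sum_inv (2 * K)) (by positivity)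
  have h5 : ∑ p ∈ P, (1 : ℝ) ≤ 2 * K := by
    rw [sum_const, nsmul_eq_mul, mul_one]
    have : P.card ≤ (Icc 1 (2 * K)).card := by
      apply card_le_card
      intro p hp
      rw [hP, mem_filter, mem_Icc] at hp
      rw [mem_Icc]
      omega
    rw [Nat.card_Icc] at this
    have h6 : P.card ≤ 2 * K := by omega
    exact_mod_cast h6
  linarith

theorem sum_EI (hSIG : S_SIG) (v : Fin 4 → ℕ) (K : ℕ) :
    ∑ p ∈ ((Icc 11 (10 * K)).filter Nat.Prime).filter (fun p => p ^ 2 ≤ 10 * K),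
      ∑ _i : Fin 4, (W K v / (p : ℝ) ^ 2 + 6 * K) ≤
    4 * (W K v / 27 + 6 * K * Real.sqrt (10 * K)) := by
  have hW := W_nonneg K v
  set P := ((Icc 11 (10 * K)).filter Nat.Prime).filter (fun p => p ^ 2 ≤ 10 * K) with hP
  have e : ∑ p ∈ P, ∑ _i : Fin 4, (W K v / (p : ℝ) ^ 2 + 6 * K) =
      4 * (W K v * ∑ p ∈ P, (1 : ℝ) / (p : ℝ) ^ 2 + 6 * K * P.card) := by
    simp only [sum_const, card_univ, Fintype.card_fin, nsmul_eq_mul]
    rw [mul_sum, mul_add, ← mul_sum, sum_add_distrib, sum_const, nsmul_eq_mul, mul_add, mul_sum,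
      mul_sum]
    congr 1
    · exact sum_congr rfl fun p _ => by push_cast; ring
    · push_cast
      ring
  rw [e]
  have h1 : ∑ p ∈ P, (1 : ℝ) / (p : ℝ) ^ 2 ≤ 1 / 27 := by
    refine le_trans ?_ (hSIG (10 * K))
    apply sum_le_sum_of_subset_of_nonneg (filter_subset _ _)
    intro p _ _
    positivity
  have h2 : (P.card : ℝ) ≤ Real.sqrt (10 * K) := by
    have h3 : P.card ≤ (Icc 1 (Nat.sqrt (10 * K))).card := by
      apply card_le_card
      intro p hp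
      rw [hP, mem_filter, mem_filter, mem_Icc] at hp
      rw [mem_Icc]
      refine ⟨by omega, ?_⟩
      rw [Nat.le_sqrt']
      exact hp.2
    rw [Nat.card_Icc] at h3
    have h4 : P.card ≤ Nat.sqrt (10 * K) := by omega
    have h5 : ((Nat.sqrt (10 * K) : ℕ) : ℝ) ≤ Real.sqrt ((10 * K : ℕ) : ℝ) := Real.nat_sqrt_le_real_sqrt
    have h6 : (P.card : ℝ) ≤ ((Nat.sqrt (10 * K) : ℕ) : ℝ) := by exact_mod_cast h4
    refine h6.trans (h5.trans (le_of_eq ?_))
    push_cast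
    rfl
  have h3 : W K v * ∑ p ∈ P, (1 : ℝ) / (p : ℝ) ^ 2 ≤ W K v * (1 / 27) :=
    mul_le_mul_of_nonneg_left h1 hW
  have h4 : 6 * (K : ℝ) * P.card ≤ 6 * K * Real.sqrt (10 * K) :=
    mul_le_mul_of_nonneg_left h2 (by positivity)
  linarith

theorem markov {α : Type} (S : Finset α) (f : α → ℝ) (L T : ℝ) (hL : 0 < L)
    (hf : ∀ t ∈ S, 0 ≤ f t) (hT : ∑ t ∈ S, f t ≤ T) (Q : α → Prop) [DecidablePred Q] (hQ : ∀ t ∈ S, Q t → L ≤ f t) :
    ((S.filter Q).card : ℝ) ≤ T / L := by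
  rw [le_div_iff₀ hL]
  calc ((S.filter Q).card : ℝ) * L = ∑ t ∈ S.filter Q, L := by rw [sum_const, nsmul_eq_mul]
    _ ≤ ∑ t ∈ S.filter Q, f t := by
        apply sum_le_sum
        intro t ht
        rw [mem_filter] at ht
        exact hQ t ht.1 ht.2
    _ ≤ ∑ t ∈ S, f t := by
        apply sum_le_sum_of_subset_of_nonneg (filter_subset _ _)
        intro t ht _
        exact hf t ht
    _ ≤ T := hT

/-- the numerical inequality for the error terms -/
theorem numeric (K q Y l : ℝ) (hK : 1 ≤ K) (hq : 1 ≤ q) (hY : 1 ≤ Y) (hl : 0 < l) :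
    5 * K + 6 * K * q + 5 * K * (1 + Real.log (2 * K)) + 2 * K + 24 * K * Real.sqrt (10 * K) +
      (36 * K + 24 * K * Y * Real.log Y) / l ≤
    300 * K ^ (3 / 2 : ℝ) * q * Y ^ 2 * (1 + 1 / l) := by
  have hK0 : 0 < K := by linarith
  have e1 : K ^ (3 / 2 : ℝ) = K * Real.sqrt K := by
    rw [Real.sqrt_eq_rpow, ← Real.rpow_one_add' hK0.le (by norm_num)]
    norm_num
  have e2 : Real.sqrt (10 * K) ≤ 4 * Real.sqrt K := by
    have : (4 : ℝ) = Real.sqrt 16 := by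
      rw [show (16 : ℝ) = 4 ^ 2 by norm_num, Real.sqrt_sq (by norm_num)]
    rw [this, ← Real.sqrt_mul (by norm_num)]
    apply Real.sqrt_le_sqrt
    linarith
  have hs1 : 1 ≤ Real.sqrt K := by
    rw [Real.one_le_sqrt]
    exact hK
  have hss : Real.sqrt K * Real.sqrt K = K := Real.mul_self_sqrt hK0.le
  have e3 : Real.log (2 * K) ≤ 2 * Real.sqrt K := by
    rw [Real.log_mul (by norm_num) hK0.ne']
    have h1 : Real.log K = 2 * Real.log (Real.sqrt K) := by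
      conv_lhs => rw [← hss]
      rw [Real.log_mul (by positivity) (by positivity)]
      ring
    have h2 := Real.log_le_sub_one_of_pos (by positivity : 0 < Real.sqrt K)
    have h3 := Real.log_two_lt_d9
    rw [h1]
    linarith
  have e4 : Real.log Y ≤ Y := by
    have := Real.log_le_sub_one_of_pos (by linarith : 0 < Y)
    linarith
  set S := Real.sqrt K with hS
  rw [e1]
  set U : ℝ := K * S * q * Y ^ 2 with hU
  have hY2 : 1 ≤ Y ^ 2 := by nlinarith
  have hqY : 1 ≤ q * Y ^ 2 := by nlinarith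
  have hKS : K ≤ K * S := by nlinarith
  have u1 : K * S ≤ U := by
    have : U = K * S * (q * Y ^ 2) := by rw [hU]; ring
    rw [this]
    have : 0 ≤ K * S := by positivity
    nlinarith
  have u2 : K * q ≤ U := by
    have h1 : U = K * q * (S * Y ^ 2) := by rw [hU]; ring
    rw [h1]
    have h2 : 1 ≤ S * Y ^ 2 := by nlinarith
    have : 0 ≤ K * q := by positivity
    nlinarith
  have u3 : K * Y ^ 2 ≤ U := by
    have h1 : U = K * Y ^ 2 * (S * q) := by rw [hU]; ring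
    rw [h1]
    have h2 : 1 ≤ S * q := by nlinarith
    have : 0 ≤ K * Y ^ 2 := by positivity
    nlinarith
  have a1 : 5 * K * (1 + Real.log (2 * K)) ≤ 5 * K + 10 * (K * S) := by nlinarith
  have a2 : 24 * K * Real.sqrt (10 * K) ≤ 96 * (K * S) := by nlinarith
  have a3 : 36 * K + 24 * K * Y * Real.log Y ≤ 60 * U := by
    have : 24 * K * Y * Real.log Y ≤ 24 * K * Y * Y :=
      mul_le_mul_of_nonneg_left e4 (by positivity)
    nlinarith
  have a4 : (36 * K + 24 * K * Y * Real.log Y) / l ≤ 60 * U / l :=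
    div_le_div_of_nonneg_right a3 hl.le
  have hU0 : 0 ≤ U := by positivity
  have a5 : 0 ≤ U / l := by positivity
  have a6 : 300 * (K * S) * q * Y ^ 2 * (1 + 1 / l) = 300 * U + 300 * (U / l) := by
    rw [hU]
    ring
  have a7 : 60 * U / l = 60 * (U / l) := by ring
  rw [a6]
  rw [a7] at a4
  linarith

theorem card_B1 (hE0 : S_E0) (hSIG : S_SIG) (r0 s0 : ℕ) (v : Fin 4 → ℕ) (hv : Adm v) (K : ℕ)
    (hK : 1 ≤ K) : ((B1 r0 s0 v K).card : ℝ) ≤
      W K v * (∑ p ∈ (qv v).primeFactors, (1 : ℝ) / p) + 6 * K * qv v + W K v / 27 +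
      5 * K * (1 + Real.log ((2 * K : ℕ) : ℝ)) + 2 * K := by
  refine le_trans ?_ (sum_E0 hSIG v hv K)
  have h1 : (B1 r0 s0 v K).card ≤ ∑ p ∈ (Icc 11 (2 * K)).filter Nat.Prime,
      ((G0 r0 s0 v K).filter (fun t => p ∣ t.1 ∧ p ∣ t.2)).card := by
    unfold B1
    exact card_biUnion_le
  have h2 : ((B1 r0 s0 v K).card : ℝ) ≤ ((∑ p ∈ (Icc 11 (2 * K)).filter Nat.Prime,
      ((G0 r0 s0 v K).filter (fun t => p ∣ t.1 ∧ p ∣ t.2)).card : ℕ) : ℝ) := Nat.cast_le.2 h1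
  rw [Nat.cast_sum] at h2
  refine h2.trans (sum_le_sum ?_)
  intro p hp
  rw [mem_filter, mem_Icc] at hp
  exact hE0 r0 s0 v hv K hK p hp.2 hp.1.1

theorem card_B2 (hEI : S_EI) (hSIG : S_SIG) (r0 s0 : ℕ) (v : Fin 4 → ℕ) (hv : Adm v) (K : ℕ)
    (hK : 1 ≤ K) : ((B2 r0 s0 v K).card : ℝ) ≤
      4 * (W K v / 27 + 6 * K * Real.sqrt (10 * K)) := by
  refine le_trans ?_ (sum_EI hSIG v K)
  have h1 : (B2 r0 s0 v K).card ≤
      ∑ p ∈ ((Icc 11 (10 * K)).filter Nat.Prime).filter (fun p => p ^ 2 ≤ 10 * K),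
        ∑ i : Fin 4, ((G0 r0 s0 v K).filter (fun t => ¬ (p ∣ t.1 ∧ p ∣ t.2) ∧
          p ^ 2 * (v i) ^ 2 ∣ fm i t.1 t.2)).card := by
    unfold B2
    exact card_biUnion_le.trans (sum_le_sum fun p _ => card_biUnion_le)
  have h2 : ((B2 r0 s0 v K).card : ℝ) ≤
      ((∑ p ∈ ((Icc 11 (10 * K)).filter Nat.Prime).filter (fun p => p ^ 2 ≤ 10 * K),
        ∑ i : Fin 4, ((G0 r0 s0 v K).filter (fun t => ¬ (p ∣ t.1 ∧ p ∣ t.2) ∧
          p ^ 2 * (v i) ^ 2 ∣ fm i t.1 t.2)).card : ℕ) : ℝ) := Nat.cast_le.2 h1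
  rw [Nat.cast_sum] at h2
  refine h2.trans (sum_le_sum ?_)
  intro p hp
  rw [mem_filter, mem_filter, mem_Icc] at hp
  rw [Nat.cast_sum]
  refine sum_le_sum ?_
  intro i _
  exact hEI r0 s0 v hv K hK p hp.1.2 hp.1.1.1 2 (by norm_num) i

theorem card_B3 (hSMT : S_SMT) (j k r0 s0 : ℕ) (hR : Res j k r0 s0) (v : Fin 4 → ℕ) (hv : Adm v)
    (K : ℕ) (hK : 1 ≤ K) (Y : ℕ) (hY : 1 ≤ Y) (B : ℝ) (hB : 1 < B) :
    ((B3 k r0 s0 v K Y B).card : ℝ) ≤
      (6 * (W K v + 6 * K) + 4 * (W K v * (Real.log Y + 2) + 6 * K * Y * Real.log Y)) /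
        Real.log B := by
  have hT := hSMT j k r0 s0 hR v hv K hK Y hY
  obtain ⟨T, hTd⟩ : ∃ T : ℝ, T = 6 * (W K v + 6 * K) +
    4 * (W K v * (Real.log Y + 2) + 6 * K * Y * Real.log Y) := ⟨_, rfl⟩
  rw [← hTd] at hT ⊢
  unfold B3
  apply markov _ _ _ _ (Real.log_pos hB) _ hT
  · intro t _ ht
    exact Real.log_le_log (by linarith) ht.le
  · intro t _
    apply Real.log_nonneg
    exact_mod_cast sm_pos Y _

theorem card4 {α : Type} [DecidableEq α] (G D S1 S2 S3 : Finset α) (h : G ⊆ D ∪ S1 ∪ S2 ∪ S3) :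
    (G.card : ℝ) ≤ D.card + S1.card + S2.card + S3.card := by
  have h1 := card_le_card h
  have h2 := card_union_le (D ∪ S1 ∪ S2) S3
  have h3 := card_union_le (D ∪ S1) S2
  have h4 := card_union_le D S1
  have h5 : G.card ≤ D.card + S1.card + S2.card + S3.card := by omega
  exact_mod_cast h5

theorem t_PV : S_CL → S_E0 → S_EI → S_SMT → S_SIG → S_PV := by
  intro hCL hE0 hEI hSMT hSIG j k r0 s0 hR v hv K hK Y hY B hB
  have hl : 0 < Real.log B := Real.log_pos hB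
  have b0 := hCL r0 s0 hR.2.2.1 hR.2.2.2.1 v hv K hK
  have b1 := card_B1 hE0 hSIG r0 s0 v hv K hK
  have b2 := card_B2 hEI hSIG r0 s0 v hv K hK
  have b3 := card_B3 hSMT j k r0 s0 hR v hv K hK Y hY B hB
  have hc := card4 _ _ _ _ _ (cover k r0 s0 v hv K Y B)
  have hnum := numeric K (qv v) Y (Real.log B) (by exact_mod_cast hK)
    (by exact_mod_cast qv_pos hv) (by exact_mod_cast hY) hl
  generalize ((B1 r0 s0 v K).card : ℝ) = c1 at b1 hc
  generalize ((B2 r0 s0 v K).card : ℝ) = c2 at b2 hc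
  generalize ((B3 k r0 s0 v K Y B).card : ℝ) = c3 at b3 hc
  generalize ((G0 r0 s0 v K).card : ℝ) = c0 at b0 hc
  generalize ((Gd k r0 s0 v K Y B).card : ℝ) = cd at hc ⊢
  generalize ∑ p ∈ (qv v).primeFactors, (1 : ℝ) / p = Sp at b1 ⊢
  have hW := W_nonneg K v
  generalize W K v = w at b0 b1 b2 b3 hW ⊢
  have e1 : (6 * (w + 6 * K) + 4 * (w * (Real.log Y + 2) + 6 * K * Y * Real.log Y)) /
        Real.log B = w * ((14 + 4 * Real.log Y) / Real.log B) +
        (36 * K + 24 * K * Y * Real.log Y) / Real.log B := by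
    field_simp
    ring
  rw [e1] at b3
  push_cast at b1
  have e2 : w * (1 - 5 / 27 - Sp - (14 + 4 * Real.log Y) / Real.log B) = w - 5 * (w / 27) -
      w * Sp - w * ((14 + 4 * Real.log Y) / Real.log B) := by ring
  rw [e2]
  linarith

end Pool.Agent.H33R6.TPV
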