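import Pool.Agent.H33R6.Defs

namespace Pool.Agent.H33R6.TSIG

open Finset Pool.Agent.H33R6

theorem tele (M : ℕ) : ∑ k ∈ Icc 2 (M + 1), ((1 : ℝ) / (6 * k - 1) ^ 2 + 1 / (6 * k + 1) ^ 2) ≤
    1 / 27 - 1 / (18 * ((M : ℝ) + 3 / 2)) := by
  induction M with
  | zero => norm_num
  | succ M ih =>
    rw [Finset.sum_Icc_succ_top (by omega)]
    have hM : (0 : ℝ) ≤ M := Nat.cast_nonneg M
    have h1 : ((1 : ℝ) / (6 * ((M + 1 + 1 : ℕ) : ℝ) - 1) ^ 2 +
        1 / (6 * ((M + 1 + 1 : ℕ) : ℝ) + 1) ^ 2) ≤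
        1 / (18 * ((M : ℝ) + 3 / 2)) - 1 / (18 * (((M + 1 : ℕ) : ℝ) + 3 / 2)) := by
      push_cast
      have e1 : (6 * ((M : ℝ) + 1 + 1) - 1) = 6 * M + 11 := by ring
      have e2 : (6 * ((M : ℝ) + 1 + 1) + 1) = 6 * M + 13 := by ring
      rw [e1, e2, div_add_div _ _ (by positivity) (by positivity),
        div_sub_div _ _ (by positivity) (by positivity), div_le_div_iff₀ (by positivity)
          (by positivity)]
      nlinarith [mul_nonneg hM hM, mul_nonneg (mul_nonneg hM hM) hM,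
        mul_nonneg (mul_nonneg hM hM) (mul_nonneg hM hM)]
    linarith

theorem t_SIG : S_SIG := by
  intro N
  have h1 : ∑ p ∈ (Icc 11 N).filter Nat.Prime, (1 : ℝ) / (p : ℝ) ^ 2 ≤
      ∑ p ∈ ((Icc 2 (N + 1)).image (fun k : ℕ => 6 * k - 1)) ∪ ((Icc 2 (N + 1)).image
        (fun k : ℕ => 6 * k + 1)), (1 : ℝ) / (p : ℝ) ^ 2 := by
    apply Finset.sum_le_sum_of_subset_of_nonneg
    · intro p hp
      rw [Finset.mem_filter, Finset.mem_Icc] at hp
      obtain ⟨⟨hp1, hp2⟩, hpp⟩ := hp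
      have h2 : ¬ 2 ∣ p := fun h => by
        have := (Nat.prime_dvd_prime_iff_eq Nat.prime_two hpp).mp h
        omega
      have h3 : ¬ 3 ∣ p := fun h => by
        have := (Nat.prime_dvd_prime_iff_eq Nat.prime_three hpp).mp h
        omega
      have h4 : p % 6 = 1 ∨ p % 6 = 5 := by omega
      rw [Finset.mem_union, Finset.mem_image, Finset.mem_image]
      rcases h4 with h4 | h4
      · right
        exact ⟨p / 6, by rw [Finset.mem_Icc]; omega, by omega⟩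
      · left
        exact ⟨(p + 1) / 6, by rw [Finset.mem_Icc]; omega, by omega⟩
    · intro p _ _
      positivity
  have h2 : ∑ p ∈ ((Icc 2 (N + 1)).image (fun k : ℕ => 6 * k - 1)) ∪ ((Icc 2 (N + 1)).image
        (fun k : ℕ => 6 * k + 1)), (1 : ℝ) / (p : ℝ) ^ 2 ≤
      ∑ p ∈ (Icc 2 (N + 1)).image (fun k : ℕ => 6 * k - 1), (1 : ℝ) / (p : ℝ) ^ 2 +
      ∑ p ∈ (Icc 2 (N + 1)).image (fun k : ℕ => 6 * k + 1), (1 : ℝ) / (p : ℝ) ^ 2 := by
    rw [← Finset.sum_union_inter]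
    have : 0 ≤ ∑ p ∈ ((Icc 2 (N + 1)).image (fun k : ℕ => 6 * k - 1)) ∩ ((Icc 2 (N + 1)).image
        (fun k : ℕ => 6 * k + 1)), (1 : ℝ) / (p : ℝ) ^ 2 :=
      Finset.sum_nonneg (fun p _ => by positivity)
    linarith
  have h3 : ∑ p ∈ (Icc 2 (N + 1)).image (fun k : ℕ => 6 * k - 1), (1 : ℝ) / (p : ℝ) ^ 2 =
      ∑ k ∈ Icc 2 (N + 1), (1 : ℝ) / (6 * (k : ℝ) - 1) ^ 2 := by
    rw [Finset.sum_image]
    · apply Finset.sum_congr rfl
      intro k hk
      rw [Finset.mem_Icc] at hk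
      rw [Nat.cast_sub (by omega)]
      push_cast
      ring
    · intro a ha b hb hab
      have h1 := (Finset.mem_Icc.mp (Finset.mem_coe.mp ha))
      have h2 := (Finset.mem_Icc.mp (Finset.mem_coe.mp hb))
      simp only at hab
      omega
  have h4 : ∑ p ∈ (Icc 2 (N + 1)).image (fun k : ℕ => 6 * k + 1), (1 : ℝ) / (p : ℝ) ^ 2 =
      ∑ k ∈ Icc 2 (N + 1), (1 : ℝ) / (6 * (k : ℝ) + 1) ^ 2 := by
    rw [Finset.sum_image]
    · apply Finset.sum_congr rfl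
      intro k _
      push_cast
      ring
    · intro a _ b _ hab
      simp only at hab
      omega
  have h5 := tele N
  rw [Finset.sum_add_distrib] at h5
  have h6 : (0 : ℝ) ≤ 1 / (18 * ((N : ℝ) + 3 / 2)) := by positivity
  linarith

end Pool.Agent.H33R6.TSIG
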