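import Pool.Agent.H33R6.Defs

set_option autoImplicit false

namespace Pool.Agent.H33R6.TSMR

open Finset

open scoped Classical

theorem t_SMR : S_SMR := by
  intro Y d hd
  have hd0 : d ≠ 0 := hd.ne_zero
  have e : (Icc 1 Y).filter (fun p => p.Prime ∧ p ∣ d) =
      d.primeFactors.filter (fun p => ¬ Y < p) := by
    ext p
    simp only [mem_filter, mem_Icc, Nat.mem_primeFactors, not_lt]
    constructor
    · rintro ⟨⟨_, h2⟩, h3, h4⟩
      exact ⟨⟨h3, h4, hd0⟩, h2⟩
    · rintro ⟨⟨h3, h4, _⟩, h2⟩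
      exact ⟨⟨h3.one_lt.le, h2⟩, h3, h4⟩
  unfold sm ro
  rw [e, mul_comm, Finset.prod_filter_mul_prod_filter_not]
  exact Nat.prod_primeFactors_of_squarefree hd

end Pool.Agent.H33R6.TSMR
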