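import Pool.Agent.H33R6.Defs

/-!
Project TU, task SMT: the sum of the logarithms of the smooth parts.
-/

namespace Pool.Agent.H33R6.TSMT

open Finset

open scoped Classical

/-- the condition for one prime and one form -/
def Ac (v : Fin 4 → ℕ) (p : ℕ) (i : Fin 4) (t : ℕ × ℕ) : Prop :=
  ¬ (p ∣ t.1 ∧ p ∣ t.2) ∧ p ^ 1 * (v i) ^ 2 ∣ fm i t.1 t.2

theorem D0_eq (r s : ℕ) : D0 r s = fm 0 r s * fm 1 r s * fm 2 r s * fm 3 r s := rfl

theorem exists_form {k : ℕ} (v : Fin 4 → ℕ) (hv : Adm v) (r s p : ℕ)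
    (hd : ∀ i, (v i) ^ 2 ∣ fm i r s) (hkq : k * (qv v) ^ 2 ∣ D0 r s) (hk : 0 < k)
    (hp : p.Prime) (hpd : p ∣ dv k v r s) : ∃ i, p ^ 1 * (v i) ^ 2 ∣ fm i r s := by
  choose a ha using hd
  have hq : 0 < qv v := Finset.prod_pos fun i _ => (hv.1 i).1
  obtain ⟨d, hdd⟩ := hkq
  have hdv : dv k v r s = d := by
    unfold dv
    rw [hdd]
    exact Nat.mul_div_cancel_left d (by positivity)
  have hqq : qv v = v 0 * v 1 * v 2 * v 3 := by
    unfold qv
    exact Fin.prod_univ_four v
  have h1 : (qv v) ^ 2 * (a 0 * a 1 * a 2 * a 3) = (qv v) ^ 2 * (k * d) := by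
    have h2 : D0 r s = (qv v) ^ 2 * (a 0 * a 1 * a 2 * a 3) := by
      rw [D0_eq, ha 0, ha 1, ha 2, ha 3, hqq]
      ring
    rw [← h2, hdd]
    ring
  have h3 : a 0 * a 1 * a 2 * a 3 = k * d := Nat.eq_of_mul_eq_mul_left (by positivity) h1
  have h4 : p ∣ a 0 * a 1 * a 2 * a 3 := by
    rw [h3, ← hdv]
    exact Dvd.dvd.mul_left hpd k
  have key : ∀ i, p ∣ a i → p ^ 1 * (v i) ^ 2 ∣ fm i r s := by
    intro i hi
    rw [ha i, pow_one, mul_comm]
    exact Nat.mul_dvd_mul_left _ hi
  rcases (Nat.Prime.dvd_mul hp).1 h4 with h5 | h5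
  · rcases (Nat.Prime.dvd_mul hp).1 h5 with h6 | h6
    · rcases (Nat.Prime.dvd_mul hp).1 h6 with h7 | h7
      · exact ⟨0, key 0 h7⟩
      · exact ⟨1, key 1 h7⟩
    · exact ⟨2, key 2 h6⟩
  · exact ⟨3, key 3 h5⟩

theorem small_sum (T : Finset ℕ) (hT : ∀ p ∈ T, p.Prime ∧ p < 11) :
    ∑ p ∈ T, Real.log (p : ℝ) ≤ 6 := by
  have hsub : T ⊆ ({2, 3, 5, 7} : Finset ℕ) := by
    intro p hp
    obtain ⟨h1, h2⟩ := hT p hp
    interval_cases p <;> first | (exfalso; revert h1; norm_num; done) | simp
  calc ∑ p ∈ T, Real.log (p : ℝ) ≤ ∑ p ∈ ({2, 3, 5, 7} : Finset ℕ), Real.log (p : ℝ) :=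
        Finset.sum_le_sum_of_subset_of_nonneg hsub fun p _ _ => Real.log_natCast_nonneg p
    _ = Real.log 210 := by
        rw [Finset.sum_insert (by decide), Finset.sum_insert (by decide),
          Finset.sum_insert (by decide), Finset.sum_singleton]
        push_cast
        rw [← Real.log_mul (by norm_num) (by norm_num), ← Real.log_mul (by norm_num) (by norm_num),
          ← Real.log_mul (by norm_num) (by norm_num)]
        norm_num
    _ ≤ 6 := by
        rw [Real.log_le_iff_le_exp (by norm_num)]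
        have h1 : Real.exp 6 = Real.exp 1 ^ 6 := by
          rw [← Real.exp_nat_mul]; norm_num
        rw [h1]
        have h2 : (2.7 : ℝ) < Real.exp 1 := lt_trans (by norm_num) Real.exp_one_gt_d9
        calc (210 : ℝ) ≤ 2.7 ^ 6 := by norm_num
          _ ≤ Real.exp 1 ^ 6 := pow_le_pow_left₀ (by norm_num) h2.le 6

theorem t_SMT (hDV : S_DV) (hUP : S_UP) (hEI : S_EI) (hMER : S_MER) : S_SMT := by
  intro j k r0 s0 hres v hv K hK Y hY
  have hk : 0 < k := by rcases hres.1 with h | h <;> omega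
  set P : Finset ℕ := (Icc 11 Y).filter Nat.Prime with hP
  have hW : 0 ≤ W K v := by unfold W; positivity
  have hlogY : 0 ≤ Real.log Y := Real.log_natCast_nonneg Y
  -- pointwise bound
  have hpt : ∀ t ∈ (G0 r0 s0 v K).filter (fun t => Sv v t.1 t.2),
      Real.log (sm Y (dv k v t.1 t.2)) ≤
        6 + ∑ p ∈ P, ∑ i : Fin 4, (if Ac v p i t then Real.log (p : ℝ) else 0) := by
    intro t ht
    rw [Finset.mem_filter] at ht
    obtain ⟨htG, htS⟩ := ht
    unfold G0 at htG
    rw [Finset.mem_filter, Finset.mem_product, Finset.mem_Ioc, Finset.mem_Ioc] at htG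
    obtain ⟨⟨⟨h1, h2⟩, h3, h4⟩, h5, h6, h7⟩ := htG
    obtain ⟨hkq, -, -, -⟩ := hDV j k r0 s0 hres v hv t.1 t.2 (by omega) (by omega) h5 h6 h7 htS
    set d := dv k v t.1 t.2 with hd
    unfold sm
    rw [Nat.cast_prod, Real.log_prod]
    swap
    · intro p hp
      have := (Finset.mem_filter.1 hp).2.1.pos
      positivity
    rw [← Finset.sum_filter_add_sum_filter_not _ (fun p => p < 11)]
    refine add_le_add ?_ ?_
    · refine small_sum _ fun p hp => ?_
      rw [Finset.mem_filter, Finset.mem_filter] at hp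
      exact ⟨hp.1.2.1, hp.2⟩
    · calc ∑ p ∈ ((Icc 1 Y).filter (fun p => p.Prime ∧ p ∣ d)).filter (fun p => ¬ p < 11),
            Real.log (p : ℝ)
          ≤ ∑ p ∈ ((Icc 1 Y).filter (fun p => p.Prime ∧ p ∣ d)).filter (fun p => ¬ p < 11),
            ∑ i : Fin 4, (if Ac v p i t then Real.log (p : ℝ) else 0) := by
            refine Finset.sum_le_sum fun p hp => ?_
            rw [Finset.mem_filter, Finset.mem_filter] at hp
            obtain ⟨⟨-, hpp, hpd⟩, hp11⟩ := hp
            obtain ⟨i, hi⟩ := exists_form (k := k) v hv t.1 t.2 p h7 hkq hk hpp hpd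
            have hA : Ac v p i t := ⟨(htS p hpp (by omega)).1, hi⟩
            calc Real.log (p : ℝ) = (if Ac v p i t then Real.log (p : ℝ) else 0) := by
                  rw [if_pos hA]
              _ ≤ ∑ i : Fin 4, (if Ac v p i t then Real.log (p : ℝ) else 0) :=
                  Finset.single_le_sum
                    (f := fun i : Fin 4 => (if Ac v p i t then Real.log (p : ℝ) else 0))
                    (fun i _ => by
                      split_ifs
                      · exact Real.log_natCast_nonneg p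
                      · exact le_refl 0) (Finset.mem_univ i)
        _ ≤ ∑ p ∈ P, ∑ i : Fin 4, (if Ac v p i t then Real.log (p : ℝ) else 0) := by
            refine Finset.sum_le_sum_of_subset_of_nonneg ?_ ?_
            · intro p hp
              rw [Finset.mem_filter, Finset.mem_filter, Finset.mem_Icc] at hp
              rw [hP, Finset.mem_filter, Finset.mem_Icc]
              exact ⟨⟨by omega, hp.1.1.2⟩, hp.1.2.1⟩
            · intro p _ _
              refine Finset.sum_nonneg fun i _ => ?_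
              split_ifs
              · exact Real.log_natCast_nonneg p
              · exact le_refl 0
  -- the number of points for one prime and one form
  have hcard : ∀ p ∈ P, ∀ i : Fin 4,
      ∑ t ∈ (G0 r0 s0 v K).filter (fun t => Sv v t.1 t.2),
        (if Ac v p i t then Real.log (p : ℝ) else 0) ≤
        Real.log p * (W K v / p + 6 * K) := by
    intro p hp i
    rw [hP, Finset.mem_filter, Finset.mem_Icc] at hp
    rw [← Finset.sum_filter, Finset.sum_const, nsmul_eq_mul, mul_comm]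
    refine mul_le_mul_of_nonneg_left ?_ (Real.log_natCast_nonneg p)
    have h1 := hEI r0 s0 v hv K hK p hp.2 hp.1.1 1 le_rfl i
    rw [show ((p : ℝ)) ^ 1 = p from pow_one _] at h1
    refine le_trans ?_ h1
    have hsub : ((G0 r0 s0 v K).filter (fun t => Sv v t.1 t.2)).filter (fun t => Ac v p i t) ⊆
        (G0 r0 s0 v K).filter (fun t => ¬ (p ∣ t.1 ∧ p ∣ t.2) ∧
          p ^ 1 * (v i) ^ 2 ∣ fm i t.1 t.2) := by
      intro t ht
      rw [Finset.mem_filter, Finset.mem_filter] at ht
      rw [Finset.mem_filter]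
      exact ⟨ht.1.1, ht.2⟩
    exact_mod_cast Finset.card_le_card hsub
  -- sums over the primes
  have hs1 : ∑ p ∈ P, Real.log (p : ℝ) / p ≤ Real.log Y + 2 := by
    refine le_trans ?_ (hMER Y hY)
    refine Finset.sum_le_sum_of_subset_of_nonneg ?_ ?_
    · intro p hp
      rw [hP, Finset.mem_filter, Finset.mem_Icc] at hp
      rw [Finset.mem_filter, Finset.mem_Icc]
      exact ⟨⟨by omega, hp.1.2⟩, hp.2⟩
    · intro p _ _
      exact div_nonneg (Real.log_natCast_nonneg p) (Nat.cast_nonneg p)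
  have hs2 : ∑ p ∈ P, Real.log (p : ℝ) ≤ Y * Real.log Y := by
    have h1 : ∑ p ∈ P, Real.log (p : ℝ) ≤ ∑ _p ∈ P, Real.log Y := by
      refine Finset.sum_le_sum fun p hp => ?_
      rw [hP, Finset.mem_filter, Finset.mem_Icc] at hp
      refine Real.log_le_log ?_ ?_
      · have := hp.2.pos
        positivity
      · exact_mod_cast hp.1.2
    refine h1.trans ?_
    rw [Finset.sum_const, nsmul_eq_mul]
    refine mul_le_mul_of_nonneg_right ?_ hlogY
    have h2 : P.card ≤ (Icc 1 Y).card := by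
      refine Finset.card_le_card ?_
      intro p hp
      rw [hP, Finset.mem_filter, Finset.mem_Icc] at hp
      rw [Finset.mem_Icc]
      exact ⟨by omega, hp.1.2⟩
    rw [Nat.card_Icc, Nat.add_sub_cancel] at h2
    exact_mod_cast h2
  calc ∑ t ∈ (G0 r0 s0 v K).filter (fun t => Sv v t.1 t.2), Real.log (sm Y (dv k v t.1 t.2))
      ≤ ∑ t ∈ (G0 r0 s0 v K).filter (fun t => Sv v t.1 t.2),
        (6 + ∑ p ∈ P, ∑ i : Fin 4, (if Ac v p i t then Real.log (p : ℝ) else 0)) :=
        Finset.sum_le_sum hpt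
    _ = 6 * (((G0 r0 s0 v K).filter (fun t => Sv v t.1 t.2)).card : ℝ) +
        ∑ p ∈ P, ∑ i : Fin 4, ∑ t ∈ (G0 r0 s0 v K).filter (fun t => Sv v t.1 t.2),
          (if Ac v p i t then Real.log (p : ℝ) else 0) := by
        rw [Finset.sum_add_distrib, Finset.sum_const, nsmul_eq_mul, mul_comm]
        congr 1
        rw [Finset.sum_comm]
        refine Finset.sum_congr rfl fun p _ => ?_
        rw [Finset.sum_comm]
    _ ≤ 6 * (W K v + 6 * K) + ∑ p ∈ P, ∑ _i : Fin 4, Real.log p * (W K v / p + 6 * K) := by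
        refine add_le_add ?_ ?_
        · refine mul_le_mul_of_nonneg_left ?_ (by norm_num)
          refine le_trans ?_ (hUP r0 s0 v hv K hK)
          exact_mod_cast Finset.card_le_card (Finset.filter_subset _ _)
        · exact Finset.sum_le_sum fun p hp => Finset.sum_le_sum fun i _ => hcard p hp i
    _ = 6 * (W K v + 6 * K) + 4 * (W K v * (∑ p ∈ P, Real.log (p : ℝ) / p) +
        6 * K * ∑ p ∈ P, Real.log (p : ℝ)) := by
        congr 1
        rw [Finset.mul_sum, Finset.mul_sum, ← Finset.sum_add_distrib, Finset.mul_sum]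
        refine Finset.sum_congr rfl fun p _ => ?_
        rw [Finset.sum_const, Finset.card_univ, Fintype.card_fin, nsmul_eq_mul]
        push_cast
        ring
    _ ≤ 6 * (W K v + 6 * K) + 4 * (W K v * (Real.log Y + 2) + 6 * K * Y * Real.log Y) := by
        have h1 : W K v * (∑ p ∈ P, Real.log (p : ℝ) / p) ≤ W K v * (Real.log Y + 2) :=
          mul_le_mul_of_nonneg_left hs1 hW
        have h2 : 6 * (K : ℝ) * ∑ p ∈ P, Real.log (p : ℝ) ≤ 6 * K * (Y * Real.log Y) :=
          mul_le_mul_of_nonneg_left hs2 (by positivity)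
        nlinarith

end Pool.Agent.H33R6.TSMT
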