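import Pool.Agent.H33R6.Defs

/-!
`SZL`: lower bound for the value
-/

namespace Pool.Agent.H33R6.TSZL

open Finset Pool.Agent.H33R6

open scoped Classical

theorem t_SZL : S_SZL := by
  refine ⟨65536, ?_⟩
  intro X hX k r0 s0 hk v hv t ht hdvd
  obtain ⟨r, s⟩ := t
  unfold G0 at ht
  rw [mem_filter, mem_product, mem_Ioc, mem_Ioc] at ht
  obtain ⟨⟨⟨hr1, hr2⟩, hs1, hs2⟩, -⟩ := ht
  simp only at hr1 hr2 hs1 hs2 hdvd ⊢
  set K := Kx X v with hK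
  have hq1 : 1 ≤ qv v := by
    unfold qv
    exact Nat.one_le_iff_ne_zero.2 (Finset.prod_ne_zero_iff.2 (fun i _ => by
      have := (hv.1 i).1
      omega))
  have hq1' : (1 : ℝ) ≤ (qv v : ℝ) := by exact_mod_cast hq1
  set q : ℝ := (qv v : ℝ) with hq
  have hX0 : (0 : ℝ) < X := by linarith
  have hqX : 0 < q ^ 2 * X := by positivity
  set T : ℝ := (q ^ 2 * X) ^ (1 / 4 : ℝ) with hT
  have hT4 : T ^ 4 = q ^ 2 * X := by
    rw [hT, ← Real.rpow_natCast, ← Real.rpow_mul hqX.le]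
    norm_num
  have hT0 : 0 ≤ T := Real.rpow_nonneg hqX.le _
  have hT16 : 16 ≤ T := by
    by_contra hcon
    push Not at hcon
    have h1 : T ^ 4 < 16 ^ 4 := pow_lt_pow_left₀ hcon hT0 (by norm_num)
    rw [hT4] at h1
    have h2 : X ≤ q ^ 2 * X := by nlinarith
    linarith
  have hKT : T / 8 < (K : ℝ) + 1 := by
    rw [hK]
    unfold Kx
    exact Nat.lt_floor_add_one _
  have hKT' : T / 16 ≤ (K : ℝ) := by linarith
  have hK4 : q ^ 2 * X / 65536 ≤ (K : ℝ) ^ 4 := by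
    have h1 : (T / 16) ^ 4 ≤ (K : ℝ) ^ 4 := pow_le_pow_left₀ (by positivity) hKT' 4
    have h2 : (T / 16) ^ 4 = q ^ 2 * X / 65536 := by
      rw [div_pow, hT4]; norm_num
    linarith
  have hK0 : (0 : ℝ) ≤ K := Nat.cast_nonneg K
  have hr : 4 * (K : ℝ) ≤ (r : ℝ) := by
    have : 4 * K ≤ r := hr1.le
    exact_mod_cast this
  have hs : (K : ℝ) ≤ (s : ℝ) := by exact_mod_cast hs1.le
  have hs' : (s : ℝ) ≤ 2 * (K : ℝ) := by exact_mod_cast hs2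
  have hsr : s ≤ r := by omega
  have hD : ((D0 r s : ℕ) : ℝ) = (r : ℝ) * s * ((r : ℝ) - s) * ((r : ℝ) + s) := by
    unfold D0
    push_cast [Nat.cast_sub hsr]
    ring
  have hD2 : 48 * (K : ℝ) ^ 4 ≤ ((D0 r s : ℕ) : ℝ) := by
    rw [hD]
    have h1 : 4 * (K : ℝ) * K ≤ (r : ℝ) * s := by
      apply mul_le_mul hr hs hK0 (by linarith)
    have h2 : 12 * (K : ℝ) ^ 2 ≤ ((r : ℝ) - s) * ((r : ℝ) + s) := by
      have h3 : (4 * (K : ℝ)) ^ 2 ≤ (r : ℝ) ^ 2 := pow_le_pow_left₀ (by positivity) hr 2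
      have h4 : (s : ℝ) ^ 2 ≤ (2 * (K : ℝ)) ^ 2 := pow_le_pow_left₀ (Nat.cast_nonneg s) hs' 2
      nlinarith
    have h3 : (4 * (K : ℝ) * K) * (12 * (K : ℝ) ^ 2) ≤
        ((r : ℝ) * s) * (((r : ℝ) - s) * ((r : ℝ) + s)) :=
      mul_le_mul h1 h2 (by positivity) (by positivity)
    nlinarith
  have hk4 : (k : ℝ) ≤ 4 := by
    rcases hk with h | h <;> rw [h] <;> norm_num
  have hk0 : (0 : ℝ) < (k : ℝ) := by
    rcases hk with h | h <;> rw [h] <;> norm_num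
  have hpos : (0 : ℝ) < (k : ℝ) * q ^ 2 := by positivity
  have hcast : ((dv k v r s : ℕ) : ℝ) = ((D0 r s : ℕ) : ℝ) / ((k : ℝ) * q ^ 2) := by
    unfold dv
    have hne : ((k * qv v ^ 2 : ℕ) : ℝ) ≠ 0 := by
      push_cast
      exact hpos.ne'
    rw [Nat.cast_div hdvd hne]
    push_cast
    rfl
  rw [hcast, le_div_iff₀ hpos]
  have h5 : X / 6000 * ((k : ℝ) * q ^ 2) ≤ X / 6000 * (4 * q ^ 2) := by
    gcongr
  have h6 : X / 6000 * (4 * q ^ 2) ≤ 48 * (q ^ 2 * X / 65536) := by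
    nlinarith [mul_nonneg (sq_nonneg q) hX0.le]
  linarith

end Pool.Agent.H33R6.TSZL
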