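import Pool.Agent.H33R6.Defs

/-!
Project TU, task SZU: the value is at most `X / 4`.
-/

namespace Pool.Agent.H33R6.TSZU

open Finset Pool.Agent.H33R6

open scoped Classical

theorem D0_le (K r s : ℕ) (hr : r ≤ 8 * K) (hs : s ≤ 2 * K) : D0 r s ≤ 1024 * K ^ 4 := by
  unfold D0
  have h1 : r * s ≤ (8 * K) * (2 * K) := Nat.mul_le_mul hr hs
  have h2 : (r - s) * (r + s) ≤ (8 * K) * (8 * K) := by
    have h3 : (r - s) * (r + s) ≤ r * r := by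
      rcases le_total r s with h | h
      · rw [Nat.sub_eq_zero_of_le h]
        simp
      · obtain ⟨t, rfl⟩ := Nat.exists_eq_add_of_le h
        have : s + t - s = t := by omega
        rw [this]
        nlinarith [Nat.zero_le (s * s)]
    exact h3.trans (Nat.mul_le_mul hr hr)
  calc r * s * (r - s) * (r + s) = (r * s) * ((r - s) * (r + s)) := by ring
    _ ≤ ((8 * K) * (2 * K)) * ((8 * K) * (8 * K)) := Nat.mul_le_mul h1 h2
    _ = 1024 * K ^ 4 := by ring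

theorem t_SZU : S_SZU := by
  intro k r0 s0 hk v hv X hX t ht
  have hq : 1 ≤ qv v := by
    unfold qv
    exact Nat.succ_le_of_lt (Finset.prod_pos (fun i _ => Nat.lt_of_lt_of_le Nat.zero_lt_one (hv.1 i).1))
  have hqR : (1 : ℝ) ≤ (qv v : ℝ) := by exact_mod_cast hq
  set K := Kx X v with hK
  unfold G0 at ht
  rw [Finset.mem_filter, Finset.mem_product, Finset.mem_Ioc, Finset.mem_Ioc] at ht
  have hD := D0_le K t.1 t.2 ht.1.1.2 ht.1.2.2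
  have hDR : (D0 t.1 t.2 : ℝ) ≤ 1024 * (K : ℝ) ^ 4 := by exact_mod_cast hD
  have hy : 0 ≤ (qv v : ℝ) ^ 2 * X := by positivity
  have hK1 : (K : ℝ) ≤ ((qv v : ℝ) ^ 2 * X) ^ (1 / 4 : ℝ) / 8 := by
    rw [hK]
    unfold Kx
    exact Nat.floor_le (by positivity)
  have hK4 : (K : ℝ) ^ 4 ≤ (qv v : ℝ) ^ 2 * X / 4096 := by
    have h1 : (K : ℝ) ^ 4 ≤ (((qv v : ℝ) ^ 2 * X) ^ (1 / 4 : ℝ) / 8) ^ 4 :=
      pow_le_pow_left₀ (Nat.cast_nonneg _) hK1 4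
    have h2 : (((qv v : ℝ) ^ 2 * X) ^ (1 / 4 : ℝ)) ^ 4 = (qv v : ℝ) ^ 2 * X := by
      rw [← Real.rpow_natCast, ← Real.rpow_mul hy]
      norm_num
    calc (K : ℝ) ^ 4 ≤ (((qv v : ℝ) ^ 2 * X) ^ (1 / 4 : ℝ) / 8) ^ 4 := h1
      _ = (((qv v : ℝ) ^ 2 * X) ^ (1 / 4 : ℝ)) ^ 4 / 4096 := by ring
      _ = (qv v : ℝ) ^ 2 * X / 4096 := by rw [h2]
  have hk1 : (1 : ℝ) ≤ (k : ℝ) := by
    rcases hk with h | h <;> rw [h] <;> norm_num
  unfold dv
  refine (Nat.cast_div_le).trans ?_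
  push_cast
  rw [div_le_iff₀ (by positivity)]
  have h5 : X / 4 * (qv v : ℝ) ^ 2 ≤ X / 4 * ((k : ℝ) * (qv v : ℝ) ^ 2) := by
    have : 0 ≤ X / 4 * (qv v : ℝ) ^ 2 := by positivity
    nlinarith
  linarith

end Pool.Agent.H33R6.TSZU
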