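import Pool.Agent.H33R6.Defs

/-! Project TU, task UP (helper774): upper bound for the number of lattice points. -/

namespace Pool.Agent.H33R6.TUP

open Finset Pool.Agent.H33R6

open scoped Classical

theorem cop_Mo {n : ℕ} (h : Nat.Coprime n 210) : Nat.Coprime Mo n := by
  have h1 : Nat.Coprime 210 n := h.symm
  have h2 : Mo ∣ 210 ^ 5 := by
    unfold Mo
    decide
  exact Nat.Coprime.coprime_dvd_left h2 (Nat.Coprime.pow_left 5 h1)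

theorem t_UP : S_CU → S_UP := by
  intro hCU r0 s0 v hv K hK
  obtain ⟨hv1, hv2⟩ := hv
  have hpos : ∀ i, 1 ≤ v i := fun i => (hv1 i).1
  have hmo : ∀ i, Nat.Coprime Mo (v i ^ 2) := fun i => Nat.Coprime.pow_right 2 (cop_Mo (hv1 i).2)
  have hc : ∀ i j, i ≠ j → Nat.Coprime (v i ^ 2) (v j ^ 2) := fun i j hij =>
    Nat.Coprime.pow 2 2 (hv2 i j hij)
  have hMo1 : 1 ≤ Mo := by unfold Mo; norm_num
  have hsq : ∀ i, 1 ≤ v i ^ 2 := fun i => Nat.one_le_pow _ _ (hpos i)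
  have hm1 : 1 ≤ Mo * v 1 ^ 2 := Nat.mul_le_mul hMo1 (hsq 1)
  have hm2 : 1 ≤ Mo * (v 0 ^ 2 * (v 2 ^ 2 * v 3 ^ 2)) :=
    Nat.mul_le_mul hMo1 (Nat.mul_le_mul (hsq 0) (Nat.mul_le_mul (hsq 2) (hsq 3)))
  have hmem : ∀ a ∈ G0 r0 s0 v K, (4 * K < a.1 ∧ a.1 ≤ 8 * K) ∧ (K < a.2 ∧ a.2 ≤ 2 * K) ∧
      a.1 % Mo = r0 ∧ a.2 % Mo = s0 ∧ v 0 ^ 2 ∣ a.1 ∧ v 1 ^ 2 ∣ a.2 ∧ v 2 ^ 2 ∣ a.1 - a.2 ∧
      v 3 ^ 2 ∣ a.1 + a.2 := by
    intro a ha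
    unfold G0 at ha
    rw [Finset.mem_filter, Finset.mem_product, Finset.mem_Ioc, Finset.mem_Ioc] at ha
    obtain ⟨⟨h1, h2⟩, h3, h4, h5⟩ := ha
    exact ⟨h1, h2, h3, h4, h5 0, h5 1, h5 2, h5 3⟩
  have h := hCU K (Mo * v 1 ^ 2) (Mo * (v 0 ^ 2 * (v 2 ^ 2 * v 3 ^ 2))) hm1 hm2 (G0 r0 s0 v K)
    (Finset.filter_subset _ _) ?_ ?_
  · refine h.trans ?_
    unfold W
    have hq : (qv v : ℝ) = (v 0 : ℝ) * v 1 * v 2 * v 3 := by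
      unfold qv
      rw [Fin.prod_univ_four]
      push_cast
      ring
    rw [hq]
    push_cast
    have e1 : (1 : ℝ) ≤ (Mo : ℝ) * (v 1 : ℝ) ^ 2 := by exact_mod_cast hm1
    have e2 : (1 : ℝ) ≤ (Mo : ℝ) * ((v 0 : ℝ) ^ 2 * ((v 2 : ℝ) ^ 2 * (v 3 : ℝ) ^ 2)) := by
      exact_mod_cast hm2
    have eK : (1 : ℝ) ≤ K := by exact_mod_cast hK
    set m1 : ℝ := (Mo : ℝ) * (v 1 : ℝ) ^ 2 with hm1'
    set m2 : ℝ := (Mo : ℝ) * ((v 0 : ℝ) ^ 2 * ((v 2 : ℝ) ^ 2 * (v 3 : ℝ) ^ 2)) with hm2'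
    have e3 : (Mo : ℝ) ^ 2 * ((v 0 : ℝ) * v 1 * v 2 * v 3) ^ 2 = m1 * m2 := by
      rw [hm1', hm2']
      ring
    rw [e3]
    have p1 : 0 < m1 := by linarith
    have p2 : 0 < m2 := by linarith
    have f1 : (K : ℝ) / m1 ≤ K := div_le_self (by linarith) e1
    have f2 : 4 * (K : ℝ) / m2 ≤ 4 * K := div_le_self (by linarith) e2
    have f3 : ((K : ℝ) / m1 + 1) * (4 * (K : ℝ) / m2 + 1) =
        4 * (K : ℝ) ^ 2 / (m1 * m2) + (K : ℝ) / m1 + 4 * (K : ℝ) / m2 + 1 := by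
      field_simp
      ring
    rw [f3]
    linarith
  · intro a ha b hb
    obtain ⟨_, _, _, ha4, _, ha6, _, _⟩ := hmem a ha
    obtain ⟨_, _, _, hb4, _, hb6, _, _⟩ := hmem b hb
    refine (Nat.modEq_and_modEq_iff_modEq_mul (hmo 1)).1 ⟨?_, ?_⟩
    · exact ha4.trans hb4.symm
    · exact ((Nat.modEq_zero_iff_dvd).2 ha6).trans ((Nat.modEq_zero_iff_dvd).2 hb6).symm
  · intro a ha b hb hab
    obtain ⟨ha1, ha2, ha3, _, ha5, _, ha7, ha8⟩ := hmem a ha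
    obtain ⟨hb1, hb2, hb3, _, hb5, _, hb7, hb8⟩ := hmem b hb
    have hc1 : Nat.Coprime (v 2 ^ 2) (v 3 ^ 2) := hc 2 3 (by decide)
    have hc2 : Nat.Coprime (v 0 ^ 2) (v 2 ^ 2 * v 3 ^ 2) :=
      Nat.Coprime.mul_right (hc 0 2 (by decide)) (hc 0 3 (by decide))
    have hc3 : Nat.Coprime Mo (v 0 ^ 2 * (v 2 ^ 2 * v 3 ^ 2)) :=
      Nat.Coprime.mul_right (hmo 0) (Nat.Coprime.mul_right (hmo 2) (hmo 3))
    refine (Nat.modEq_and_modEq_iff_modEq_mul hc3).1 ⟨ha3.trans hb3.symm, ?_⟩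
    refine (Nat.modEq_and_modEq_iff_modEq_mul hc2).1
      ⟨((Nat.modEq_zero_iff_dvd).2 ha5).trans ((Nat.modEq_zero_iff_dvd).2 hb5).symm, ?_⟩
    refine (Nat.modEq_and_modEq_iff_modEq_mul hc1).1 ⟨?_, ?_⟩
    · have h1 : a.2 ≡ a.1 [MOD v 2 ^ 2] := (Nat.modEq_iff_dvd' (by omega)).2 ha7
      have h2 : b.2 ≡ b.1 [MOD v 2 ^ 2] := (Nat.modEq_iff_dvd' (by omega)).2 hb7
      rw [hab] at h1
      exact h1.symm.trans h2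
    · have h1 : a.1 + a.2 ≡ b.1 + b.2 [MOD v 3 ^ 2] :=
        ((Nat.modEq_zero_iff_dvd).2 ha8).trans ((Nat.modEq_zero_iff_dvd).2 hb8).symm
      rw [hab] at h1
      exact Nat.ModEq.add_right_cancel' _ h1

end Pool.Agent.H33R6.TUP
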