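import Pool.Agent.H33R6.Defs

set_option autoImplicit false

namespace Pool.Agent.H33R6.TV1

open Finset

open scoped Classical

/-- the numbers up to `D` coprime to 210 -/
noncomputable def A (D : ℕ) : Finset ℕ := (Icc 1 D).filter (fun n => Nat.Coprime n 210)

theorem hs_eq (D : ℕ) : hs D = ∑ n ∈ A D, (1 : ℝ) / n := rfl

theorem hs_nonneg (D : ℕ) : 0 ≤ hs D := by
  rw [hs_eq]
  exact sum_nonneg fun _ _ => by positivity

theorem div_sum (D p : ℕ) (hp : 0 < p) :
    ∑ n ∈ (A D).filter (fun n => p ∣ n), (1 : ℝ) / n ≤ hs D / p := by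
  have hsub : (A D).filter (fun n => p ∣ n) ⊆ (A D).image (fun m => p * m) := by
    intro n hn
    rw [mem_filter] at hn
    obtain ⟨hn, m, rfl⟩ := hn
    rw [mem_image]
    refine ⟨m, ?_, rfl⟩
    unfold A at hn ⊢
    rw [mem_filter, mem_Icc] at hn ⊢
    refine ⟨⟨?_, ?_⟩, ?_⟩
    · rcases Nat.eq_zero_or_pos m with h | h
      · subst h; simp at hn
      · exact h
    · exact (Nat.le_mul_of_pos_left m hp).trans hn.1.2
    · exact Nat.Coprime.coprime_mul_left hn.2
  calc ∑ n ∈ (A D).filter (fun n => p ∣ n), (1 : ℝ) / n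
      ≤ ∑ n ∈ (A D).image (fun m => p * m), (1 : ℝ) / n :=
        sum_le_sum_of_subset_of_nonneg hsub (fun _ _ _ => by positivity)
    _ = ∑ m ∈ A D, (1 : ℝ) / ((p * m : ℕ) : ℝ) :=
        sum_image (fun a _ b _ hab => Nat.eq_of_mul_eq_mul_left hp hab)
    _ = hs D / p := by
        rw [hs_eq, sum_div]
        refine sum_congr rfl fun m _ => ?_
        push_cast
        rw [div_div, mul_comm]

theorem prod_inv (v : Fin 4 → ℕ) : ∏ i, (1 : ℝ) / (v i : ℝ) = 1 / (qv v : ℝ) := by
  unfold qv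
  rw [prod_div_distrib]
  simp

theorem pow_four (D : ℕ) :
    (hs D) ^ 4 = ∑ v ∈ Fintype.piFinset (fun _ : Fin 4 => A D), (1 : ℝ) / qv v := by
  have h := Finset.prod_univ_sum (fun _ : Fin 4 => A D) (fun _ n => (1 : ℝ) / (n : ℝ))
  rw [prod_const, card_univ, Fintype.card_fin, ← hs_eq] at h
  rw [h]
  exact sum_congr rfl fun v _ => prod_inv v

theorem prod_two (a h : ℝ) (i j : Fin 4) (hij : i < j) :
    ∏ k : Fin 4, (if k = i ∨ k = j then a else h) = a ^ 2 * h ^ 2 := by
  have hc : ∀ i j : Fin 4, i < j → (univ.filter (fun k : Fin 4 => k = i ∨ k = j)).card = 2 ∧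
      (univ.filter (fun k : Fin 4 => ¬ (k = i ∨ k = j))).card = 2 := by decide
  rw [prod_ite, prod_const, prod_const, (hc i j hij).1, (hc i j hij).2]

theorem pair_sum (D p : ℕ) (hp : 0 < p) (i j : Fin 4) (hij : i < j) :
    ∑ v ∈ Fintype.piFinset (fun _ : Fin 4 => A D),
      (if p ∣ v i ∧ p ∣ v j then (1 : ℝ) / qv v else 0) ≤ (hs D) ^ 4 * (1 / (p : ℝ) ^ 2) := by
  rw [← sum_filter]
  have hset : (Fintype.piFinset (fun _ : Fin 4 => A D)).filter (fun v => p ∣ v i ∧ p ∣ v j) =
      Fintype.piFinset (fun k : Fin 4 =>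
        if k = i ∨ k = j then (A D).filter (fun n => p ∣ n) else A D) := by
    ext v
    rw [mem_filter, Fintype.mem_piFinset, Fintype.mem_piFinset]
    constructor
    · rintro ⟨h1, h2, h3⟩ k
      split_ifs with hk
      · rw [mem_filter]
        refine ⟨h1 k, ?_⟩
        rcases hk with rfl | rfl
        · exact h2
        · exact h3
      · exact h1 k
    · intro h
      refine ⟨fun k => ?_, ?_, ?_⟩
      · have := h k
        split_ifs at this with hk
        · exact (mem_filter.1 this).1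
        · exact this
      · have := h i
        rw [if_pos (Or.inl rfl)] at this
        exact (mem_filter.1 this).2
      · have := h j
        rw [if_pos (Or.inr rfl)] at this
        exact (mem_filter.1 this).2
  rw [hset]
  have h := Finset.prod_univ_sum (fun k : Fin 4 =>
        if k = i ∨ k = j then (A D).filter (fun n => p ∣ n) else A D)
        (fun _ n => (1 : ℝ) / (n : ℝ))
  have h2 : ∏ k : Fin 4, ∑ n ∈ (if k = i ∨ k = j then (A D).filter (fun n => p ∣ n) else A D),
      (1 : ℝ) / (n : ℝ) = ∏ k : Fin 4,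
        (if k = i ∨ k = j then (∑ n ∈ (A D).filter (fun n => p ∣ n), (1 : ℝ) / n) else hs D) := by
    refine prod_congr rfl fun k _ => ?_
    split_ifs
    · rfl
    · rfl
  rw [h2, prod_two _ _ i j hij] at h
  have h3 : ∑ v ∈ Fintype.piFinset (fun k : Fin 4 =>
        if k = i ∨ k = j then (A D).filter (fun n => p ∣ n) else A D), (1 : ℝ) / (qv v : ℝ) =
      (∑ n ∈ (A D).filter (fun n => p ∣ n), (1 : ℝ) / n) ^ 2 * (hs D) ^ 2 := by
    rw [h]
    exact sum_congr rfl fun v _ => (prod_inv v).symm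
  rw [h3]
  have h4 := div_sum D p hp
  have h5 : 0 ≤ ∑ n ∈ (A D).filter (fun n => p ∣ n), (1 : ℝ) / n :=
    sum_nonneg fun _ _ => by positivity
  calc (∑ n ∈ (A D).filter (fun n => p ∣ n), (1 : ℝ) / n) ^ 2 * (hs D) ^ 2
      ≤ (hs D / p) ^ 2 * (hs D) ^ 2 := by gcongr
    _ = (hs D) ^ 4 * (1 / (p : ℝ) ^ 2) := by ring

theorem exists_prime {D : ℕ} {v : Fin 4 → ℕ} (hv : ∀ i, v i ∈ A D) (hna : ¬ Adm v) :
    ∃ i j : Fin 4, i < j ∧ ∃ p, p.Prime ∧ 11 ≤ p ∧ p ≤ D ∧ p ∣ v i ∧ p ∣ v j := by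
  have hv' : ∀ i, (1 ≤ v i ∧ v i ≤ D) ∧ Nat.Coprime (v i) 210 := by
    intro i
    have := hv i
    unfold A at this
    rw [mem_filter, mem_Icc] at this
    exact this
  have h1 : ∃ i j : Fin 4, i ≠ j ∧ ¬ Nat.Coprime (v i) (v j) := by
    by_contra h
    push Not at h
    exact hna ⟨fun i => ⟨(hv' i).1.1, (hv' i).2⟩, fun i j hij => h i j hij⟩
  obtain ⟨i, j, hij, hc⟩ := h1
  obtain ⟨p, hp, hpi, hpj⟩ := Nat.Prime.not_coprime_iff_dvd.1 hc
  have hp11 : 11 ≤ p := by
    by_contra hlt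
    have hlt' : p < 11 := by omega
    have hnd : ¬ p ∣ 210 := by
      intro hd
      have := Nat.dvd_gcd hpi hd
      rw [(hv' i).2] at this
      exact hp.one_lt.ne' (Nat.dvd_one.1 this)
    interval_cases p <;> revert hp hnd <;> norm_num
  have hpD : p ≤ D := (Nat.le_of_dvd (hv' i).1.1 hpi).trans (hv' i).1.2
  rcases lt_or_gt_of_ne hij with h | h
  · exact ⟨i, j, h, p, hp, hp11, hpD, hpi, hpj⟩
  · exact ⟨j, i, h, p, hp, hp11, hpD, hpj, hpi⟩

/-- the six pairs -/
def pairs : Finset (Fin 4 × Fin 4) := univ.filter (fun x => x.1 < x.2)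

theorem card_pairs : pairs.card = 6 := by decide

theorem t_V1 (hSIG : S_SIG) : S_V1 := by
  intro D _
  have hkey : (hs D) ^ 4 ≤ (∑ v ∈ VD D, (1 : ℝ) / qv v) +
      ∑ x ∈ pairs, ∑ p ∈ (Icc 11 D).filter Nat.Prime, (hs D) ^ 4 * (1 / (p : ℝ) ^ 2) := by
    have hpt : ∀ v ∈ Fintype.piFinset (fun _ : Fin 4 => A D), (1 : ℝ) / qv v ≤
        (if Adm v then (1 : ℝ) / qv v else 0) +
        ∑ x ∈ pairs, ∑ p ∈ (Icc 11 D).filter Nat.Prime,
          (if p ∣ v x.1 ∧ p ∣ v x.2 then (1 : ℝ) / qv v else 0) := by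
      intro v hv
      rw [Fintype.mem_piFinset] at hv
      have hnn : ∀ (x : Fin 4 × Fin 4) (p : ℕ),
          0 ≤ (if p ∣ v x.1 ∧ p ∣ v x.2 then (1 : ℝ) / qv v else 0) := by
        intro x p
        split_ifs
        · positivity
        · exact le_refl _
      by_cases ha : Adm v
      · rw [if_pos ha]
        exact le_add_of_nonneg_right (sum_nonneg fun x _ => sum_nonneg fun p _ => hnn x p)
      · rw [if_neg ha, zero_add]
        obtain ⟨i, j, hij, p, hp, hp11, hpD, hpi, hpj⟩ := exists_prime hv ha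
        have hx : (i, j) ∈ pairs := by
          unfold pairs
          rw [mem_filter]
          exact ⟨mem_univ _, hij⟩
        have hp' : p ∈ (Icc 11 D).filter Nat.Prime := by
          rw [mem_filter, mem_Icc]
          exact ⟨⟨hp11, hpD⟩, hp⟩
        have h1 := single_le_sum (f := fun q : ℕ =>
          (if q ∣ v i ∧ q ∣ v j then (1 : ℝ) / qv v else 0)) (fun q _ => hnn (i, j) q) hp'
        have h2 := single_le_sum (f := fun x : Fin 4 × Fin 4 =>
          ∑ q ∈ (Icc 11 D).filter Nat.Prime, (if q ∣ v x.1 ∧ q ∣ v x.2 then (1 : ℝ) / qv v else 0))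
          (fun x _ => sum_nonneg fun q _ => hnn x q) hx
        simp only [hpi, hpj, and_self, if_true] at h1
        exact h1.trans h2
    rw [pow_four]
    calc ∑ v ∈ Fintype.piFinset (fun _ : Fin 4 => A D), (1 : ℝ) / qv v
        ≤ ∑ v ∈ Fintype.piFinset (fun _ : Fin 4 => A D),
          ((if Adm v then (1 : ℝ) / qv v else 0) +
          ∑ x ∈ pairs, ∑ p ∈ (Icc 11 D).filter Nat.Prime,
          (if p ∣ v x.1 ∧ p ∣ v x.2 then (1 : ℝ) / qv v else 0)) := sum_le_sum hpt
      _ = (∑ v ∈ Fintype.piFinset (fun _ : Fin 4 => A D),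
            (if Adm v then (1 : ℝ) / qv v else 0)) +
          ∑ x ∈ pairs, ∑ p ∈ (Icc 11 D).filter Nat.Prime,
            ∑ v ∈ Fintype.piFinset (fun _ : Fin 4 => A D),
            (if p ∣ v x.1 ∧ p ∣ v x.2 then (1 : ℝ) / qv v else 0) := by
          rw [sum_add_distrib, sum_comm]
          congr 1
          refine sum_congr rfl fun x _ => ?_
          rw [sum_comm]
      _ ≤ _ := by
          rw [← pow_four]
          refine add_le_add ?_ ?_
          · rw [← sum_filter]
            refine sum_le_sum_of_subset_of_nonneg ?_ (fun _ _ _ => by positivity)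
            intro v hv
            rw [mem_filter, Fintype.mem_piFinset] at hv
            unfold VD
            rw [mem_filter, Fintype.mem_piFinset]
            exact ⟨fun i => (mem_filter.1 (hv.1 i)).1, hv.2⟩
          · refine sum_le_sum fun x hx => sum_le_sum fun p hp => ?_
            rw [mem_filter, mem_Icc] at hp
            exact pair_sum D p hp.2.pos x.1 x.2 (mem_filter.1 hx).2
  rw [sum_const, card_pairs, ← mul_sum] at hkey
  have h1 := hSIG D
  have h2 : 0 ≤ (hs D) ^ 4 := pow_nonneg (hs_nonneg D) 4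
  have h3 : (hs D) ^ 4 * ∑ p ∈ (Icc 11 D).filter Nat.Prime, (1 : ℝ) / (p : ℝ) ^ 2 ≤
      (hs D) ^ 4 * (1 / 27) := mul_le_mul_of_nonneg_left h1 h2
  simp only [nsmul_eq_mul, Nat.cast_ofNat] at hkey
  linarith

end Pool.Agent.H33R6.TV1
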