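import Pool.Agent.H33R6.Defs

set_option autoImplicit false

namespace Pool.Agent.H33R6.TV2

open Finset
open scoped Classical

/-- the numbers up to `D` coprime to 210 -/
noncomputable def AA (D : ℕ) : Finset ℕ := (Icc 1 D).filter (fun n => Nat.Coprime n 210)

theorem hs_eq (D : ℕ) : hs D = ∑ n ∈ AA D, (1 : ℝ) / n := rfl

/-- sum of `1/p` over the prime factors -/
noncomputable def ff (n : ℕ) : ℝ := ∑ p ∈ n.primeFactors, (1 : ℝ) / p

theorem ff_nonneg (n : ℕ) : 0 ≤ ff n := Finset.sum_nonneg fun p _ => by positivity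

theorem mem_AA {D n : ℕ} : n ∈ AA D ↔ (1 ≤ n ∧ n ≤ D) ∧ Nat.Coprime n 210 := by
  unfold AA
  rw [Finset.mem_filter, Finset.mem_Icc]

theorem hs_nonneg (D : ℕ) : 0 ≤ hs D := by
  rw [hs_eq]
  exact Finset.sum_nonneg fun p _ => by positivity

theorem prime_ge {p n : ℕ} (hp : p.Prime) (hpn : p ∣ n) (hn : Nat.Coprime n 210) : 11 ≤ p := by
  by_contra h
  push Not at h
  have h1 : ¬ p ∣ 210 := by
    intro h2
    have h3 := Nat.dvd_gcd hpn h2
    rw [Nat.Coprime] at hn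
    rw [hn] at h3
    exact hp.one_lt.ne' (Nat.dvd_one.1 h3)
  have h2 := hp.two_le
  interval_cases p
  · exact h1 (by norm_num)
  · exact h1 (by norm_num)
  · exact absurd hp (by norm_num)
  · exact h1 (by norm_num)
  · exact absurd hp (by norm_num)
  · exact h1 (by norm_num)
  · exact absurd hp (by norm_num)
  · exact absurd hp (by norm_num)
  · exact absurd hp (by norm_num)

theorem mult_le (D p : ℕ) (hp : p.Prime) :
    ∑ n ∈ (AA D).filter (fun n => p ∣ n), (1 : ℝ) / n ≤ 1 / p * hs D := by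
  have hp0 : (p : ℝ) ≠ 0 := Nat.cast_ne_zero.2 hp.ne_zero
  have h1 : ∀ n ∈ (AA D).filter (fun n => p ∣ n),
      (1 : ℝ) / n = 1 / p * (1 / ((n / p : ℕ) : ℝ)) := by
    intro n hn
    obtain ⟨m, rfl⟩ := (Finset.mem_filter.1 hn).2
    rw [Nat.mul_div_cancel_left _ hp.pos]
    push_cast
    rw [one_div_mul_one_div]
  rw [Finset.sum_congr rfl h1, ← Finset.mul_sum]
  refine mul_le_mul_of_nonneg_left ?_ (by positivity)
  rw [hs_eq]
  have hinj : Set.InjOn (fun n => n / p) ((AA D).filter (fun n => p ∣ n) : Set ℕ) := by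
    intro a ha b hb hab
    rw [Finset.mem_coe, Finset.mem_filter] at ha hb
    obtain ⟨a', rfl⟩ := ha.2
    obtain ⟨b', rfl⟩ := hb.2
    simp only [Nat.mul_div_cancel_left _ hp.pos] at hab
    rw [hab]
  rw [← Finset.sum_image (g := fun n => n / p) (f := fun m : ℕ => (1 : ℝ) / m) hinj]
  refine Finset.sum_le_sum_of_subset_of_nonneg ?_ fun _ _ _ => by positivity
  intro m hm
  obtain ⟨n, hn, rfl⟩ := Finset.mem_image.1 hm
  obtain ⟨hnA, m', rfl⟩ := Finset.mem_filter.1 hn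
  obtain ⟨⟨h2, h3⟩, h4⟩ := mem_AA.1 hnA
  rw [mem_AA, Nat.mul_div_cancel_left _ hp.pos]
  refine ⟨⟨?_, ?_⟩, h4.coprime_mul_left⟩
  · rcases Nat.eq_zero_or_pos m' with h | h
    · rw [h] at h2; simp at h2
    · exact h
  · exact (Nat.le_mul_of_pos_left m' hp.pos).trans h3

theorem sum_ff (hS : S_SIG) (D : ℕ) : ∑ n ∈ AA D, (1 : ℝ) / n * ff n ≤ 1 / 27 * hs D := by
  have h1 : ∀ n ∈ AA D, (1 : ℝ) / n * ff n =
      ∑ p ∈ (Icc 11 D).filter Nat.Prime, (1 : ℝ) / p * (if p ∣ n then (1 : ℝ) / n else 0) := by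
    intro n hn
    obtain ⟨⟨h2, h3⟩, h4⟩ := mem_AA.1 hn
    have e : n.primeFactors = ((Icc 11 D).filter Nat.Prime).filter (fun p => p ∣ n) := by
      ext p
      rw [Nat.mem_primeFactors, Finset.mem_filter, Finset.mem_filter, Finset.mem_Icc]
      constructor
      · rintro ⟨h5, h6, -⟩
        exact ⟨⟨⟨prime_ge h5 h6 h4, (Nat.le_of_dvd h2 h6).trans h3⟩, h5⟩, h6⟩
      · rintro ⟨⟨-, h5⟩, h6⟩
        exact ⟨h5, h6, by omega⟩
    unfold ff
    rw [e, Finset.sum_filter, Finset.mul_sum]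
    refine Finset.sum_congr rfl fun p _ => ?_
    split_ifs <;> ring
  rw [Finset.sum_congr rfl h1, Finset.sum_comm]
  have h2 : ∀ p ∈ (Icc 11 D).filter Nat.Prime,
      ∑ n ∈ AA D, (1 : ℝ) / p * (if p ∣ n then (1 : ℝ) / n else 0) ≤
        (1 : ℝ) / (p : ℝ) ^ 2 * hs D := by
    intro p hp
    have hp' := (Finset.mem_filter.1 hp).2
    rw [← Finset.mul_sum, ← Finset.sum_filter]
    have h3 := mult_le D p hp'
    calc (1 : ℝ) / p * ∑ n ∈ (AA D).filter (fun n => p ∣ n), (1 : ℝ) / n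
        ≤ (1 : ℝ) / p * (1 / p * hs D) := mul_le_mul_of_nonneg_left h3 (by positivity)
      _ = _ := by ring
  refine (Finset.sum_le_sum h2).trans ?_
  rw [← Finset.sum_mul]
  exact mul_le_mul_of_nonneg_right (hS D) (hs_nonneg D)

theorem factor (D : ℕ) (i : Fin 4) :
    ∑ v ∈ Fintype.piFinset (fun _ : Fin 4 => AA D), (∏ j, (1 : ℝ) / v j) * ff (v i) =
      (∑ n ∈ AA D, (1 : ℝ) / n * ff n) * hs D ^ 3 := by
  have h1 := Finset.prod_univ_sum (fun _ : Fin 4 => AA D)
    (fun (j : Fin 4) (n : ℕ) => if j = i then (1 : ℝ) / n * ff n else 1 / n)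
  have h2 : ∀ v ∈ Fintype.piFinset (fun _ : Fin 4 => AA D),
      (∏ j, (1 : ℝ) / v j) * ff (v i) =
        ∏ j, (if j = i then (1 : ℝ) / v j * ff (v j) else 1 / v j) := by
    intro v _
    have e : ∀ j : Fin 4, (if j = i then (1 : ℝ) / v j * ff (v j) else 1 / v j) =
        (1 / v j) * (if j = i then ff (v j) else 1) := by
      intro j
      split_ifs <;> simp
    simp_rw [e]
    rw [Finset.prod_mul_distrib, Finset.prod_ite_eq' Finset.univ i]
    simp
  rw [Finset.sum_congr rfl h2, ← h1]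
  have h3 : ∀ j : Fin 4, (∑ n ∈ AA D, if j = i then (1 : ℝ) / n * ff n else 1 / n) =
      if j = i then ∑ n ∈ AA D, (1 : ℝ) / n * ff n else hs D := by
    intro j
    split_ifs
    · rfl
    · rfl
  simp_rw [h3]
  rw [Finset.prod_ite, Finset.prod_const, Finset.prod_const]
  have h4 : (Finset.univ.filter (fun j : Fin 4 => j = i)).card = 1 := by
    rw [Finset.card_eq_one]
    exact ⟨i, by ext j; simp⟩
  have h5 : (Finset.univ.filter (fun j : Fin 4 => ¬ j = i)).card = 3 := by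
    have := Finset.card_filter_add_card_filter_not (s := (Finset.univ : Finset (Fin 4)))
      (fun j : Fin 4 => j = i)
    rw [h4, Finset.card_univ, Fintype.card_fin] at this
    omega
  rw [h4, h5, pow_one]

theorem sum_bU {ι : Type*} (s : Finset ι) (t : ι → Finset ℕ) (f : ℕ → ℝ) (hf : ∀ n, 0 ≤ f n) :
    ∑ p ∈ s.biUnion t, f p ≤ ∑ i ∈ s, ∑ p ∈ t i, f p := by
  induction s using Finset.induction_on with
  | empty => simp
  | insert a s ha ih =>
    rw [Finset.biUnion_insert, Finset.sum_insert ha]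
    have h1 := Finset.sum_union_inter (s₁ := t a) (s₂ := s.biUnion t) (f := f)
    have h2 : 0 ≤ ∑ p ∈ t a ∩ s.biUnion t, f p := Finset.sum_nonneg fun p _ => hf p
    linarith

theorem t_V2 (hS : S_SIG) : S_V2 := by
  intro D _
  have hsub : VD D ⊆ Fintype.piFinset (fun _ : Fin 4 => AA D) := by
    intro v hv
    obtain ⟨h1, h2⟩ := Finset.mem_filter.1 hv
    rw [Fintype.mem_piFinset] at h1 ⊢
    intro i
    rw [mem_AA]
    exact ⟨Finset.mem_Icc.1 (h1 i), (h2.1 i).2⟩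
  have hstep : ∀ v ∈ VD D, (1 : ℝ) / qv v * ∑ p ∈ (qv v).primeFactors, (1 : ℝ) / p ≤
      (∏ j, (1 : ℝ) / v j) * ∑ i, ff (v i) := by
    intro v hv
    have hv0 : ∀ i, v i ≠ 0 := fun i => by
      have := ((Finset.mem_filter.1 hv).2.1 i).1
      omega
    have e1 : (1 : ℝ) / qv v = ∏ j, (1 : ℝ) / v j := by
      unfold qv
      push_cast
      simp [Finset.prod_inv_distrib]
    rw [e1]
    refine mul_le_mul_of_nonneg_left ?_ (Finset.prod_nonneg fun j _ => by positivity)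
    have e2 : (qv v).primeFactors ⊆ Finset.univ.biUnion (fun i => (v i).primeFactors) := by
      intro p hp
      obtain ⟨h1, h2, -⟩ := Nat.mem_primeFactors.1 hp
      unfold qv at h2
      obtain ⟨i, -, h3⟩ := (Prime.dvd_finsetProd_iff h1.prime _).1 h2
      exact Finset.mem_biUnion.2 ⟨i, Finset.mem_univ _, Nat.mem_primeFactors.2 ⟨h1, h3, hv0 i⟩⟩
    calc ∑ p ∈ (qv v).primeFactors, (1 : ℝ) / p
        ≤ ∑ p ∈ Finset.univ.biUnion (fun i => (v i).primeFactors), (1 : ℝ) / p :=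
          Finset.sum_le_sum_of_subset_of_nonneg e2 fun _ _ _ => by positivity
      _ ≤ ∑ i, ∑ p ∈ (v i).primeFactors, (1 : ℝ) / p :=
          sum_bU _ _ _ fun _ => by positivity
  calc ∑ v ∈ VD D, (1 : ℝ) / qv v * ∑ p ∈ (qv v).primeFactors, (1 : ℝ) / p
      ≤ ∑ v ∈ VD D, (∏ j, (1 : ℝ) / v j) * ∑ i, ff (v i) := Finset.sum_le_sum hstep
    _ ≤ ∑ v ∈ Fintype.piFinset (fun _ : Fin 4 => AA D), (∏ j, (1 : ℝ) / v j) * ∑ i, ff (v i) :=
        Finset.sum_le_sum_of_subset_of_nonneg hsub fun v _ _ =>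
          mul_nonneg (Finset.prod_nonneg fun j _ => by positivity)
            (Finset.sum_nonneg fun i _ => ff_nonneg _)
    _ = ∑ i : Fin 4, (∑ n ∈ AA D, (1 : ℝ) / n * ff n) * hs D ^ 3 := by
        simp_rw [Finset.mul_sum]
        rw [Finset.sum_comm]
        refine Finset.sum_congr rfl fun i _ => ?_
        rw [factor, Finset.sum_mul]
    _ ≤ ∑ i : Fin 4, (1 / 27 * hs D) * hs D ^ 3 :=
        Finset.sum_le_sum fun i _ =>
          mul_le_mul_of_nonneg_right (sum_ff hS D) (pow_nonneg (hs_nonneg D) 3)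
    _ = 4 / 27 * (hs D) ^ 4 := by
        rw [Finset.sum_const, Finset.card_univ, Fintype.card_fin]
        simp only [nsmul_eq_mul]
        push_cast
        ring

end Pool.Agent.H33R6.TV2
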