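import Pool.Agent.H33R6.Defs

namespace Pool.Agent.H33R6.TVU

open Finset Pool.Agent.H33R6

theorem p11 {b p : ℕ} (hp : p.Prime) (hb : Nat.Coprime b 210) (hpb : p ∣ b) : 11 ≤ p := by
  by_contra h
  have h1 : Nat.Coprime p 210 := Nat.Coprime.coprime_dvd_left hpb hb
  have h2 := hp.two_le
  interval_cases p
  · exact absurd h1 (by decide)
  · exact absurd h1 (by decide)
  · exact absurd hp (by decide)
  · exact absurd h1 (by decide)
  · exact absurd hp (by decide)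
  · exact absurd h1 (by decide)
  · exact absurd hp (by decide)
  · exact absurd hp (by decide)
  · exact absurd hp (by decide)

theorem key {a b n : ℕ} (ha : 1 ≤ a) (hb1 : 1 ≤ b) (hb : Nat.Coprime b 210) (h1 : a ^ 2 ∣ n)
    (h2 : b ^ 2 ∣ n) (h3 : ∀ p : ℕ, p.Prime → 11 ≤ p → ¬ (p ^ 2 * a ^ 2 ∣ n)) : b ∣ a := by
  obtain ⟨a', b', hco, ha', hb'⟩ := Nat.exists_coprime a b
  have hg : 0 < Nat.gcd a b := Nat.gcd_pos_of_pos_left _ ha
  by_contra hna
  have hb1' : b' ≠ 1 := by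
    intro h
    apply hna
    rw [h, one_mul] at hb'
    rw [hb']
    exact Nat.gcd_dvd_left a b
  obtain ⟨p, hp, hpb⟩ := Nat.exists_prime_and_dvd hb1'
  have hpb2 : p ∣ b := by
    rw [hb']
    exact Dvd.dvd.mul_right hpb _
  apply h3 p hp (p11 hp hb hpb2)
  obtain ⟨x, hx⟩ := h1
  have h4 : b' ^ 2 ∣ a' ^ 2 * x := by
    have h5 : Nat.gcd a b ^ 2 * b' ^ 2 ∣ Nat.gcd a b ^ 2 * (a' ^ 2 * x) := by
      have e1 : Nat.gcd a b ^ 2 * b' ^ 2 = b ^ 2 := by
        conv_rhs => rw [hb']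
        ring
      have e2 : Nat.gcd a b ^ 2 * (a' ^ 2 * x) = n := by
        rw [hx]
        conv_rhs => rw [ha']
        ring
      rw [e1, e2]
      exact h2
    exact Nat.dvd_of_mul_dvd_mul_left (by positivity) h5
  have h5 : b' ^ 2 ∣ x := by
    have hco2 : Nat.Coprime (b' ^ 2) (a' ^ 2) := Nat.Coprime.pow 2 2 hco.symm
    exact hco2.dvd_of_dvd_mul_left h4
  have h6 : p ^ 2 ∣ x := (pow_dvd_pow_of_dvd hpb 2).trans h5
  rw [hx, mul_comm (p ^ 2)]
  exact Nat.mul_dvd_mul_left _ h6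

theorem t_VU : S_VU := by
  intro v v' hv hv' r s hs hsr h1 h2 h3 h4
  funext i
  apply Nat.dvd_antisymm
  · exact key (hv'.1 i).1 (hv.1 i).1 (hv.1 i).2 (h2 i) (h1 i) (fun p hp hp11 => (h4 p hp hp11).2 i)
  · exact key (hv.1 i).1 (hv'.1 i).1 (hv'.1 i).2 (h1 i) (h2 i) (fun p hp hp11 => (h3 p hp hp11).2 i)

end Pool.Agent.H33R6.TVU
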