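import Pool.Agent.H33R6.Defs
import Pool.Agent.H33R6.Final
import Pool.Agent.H33R6.TCL
import Pool.Agent.H33R6.TCON
import Pool.Agent.H33R6.TCU
import Pool.Agent.H33R6.TDV
import Pool.Agent.H33R6.TE0
import Pool.Agent.H33R6.TEI
import Pool.Agent.H33R6.TFIB
import Pool.Agent.H33R6.TH1
import Pool.Agent.H33R6.TINJ
import Pool.Agent.H33R6.TMAIN
import Pool.Agent.H33R6.TMER
import Pool.Agent.H33R6.TNP
import Pool.Agent.H33R6.TPV
import Pool.Agent.H33R6.TRES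
import Pool.Agent.H33R6.TSIG
import Pool.Agent.H33R6.TSMR
import Pool.Agent.H33R6.TSMT
import Pool.Agent.H33R6.TSZL
import Pool.Agent.H33R6.TSZU
import Pool.Agent.H33R6.TUP
import Pool.Agent.H33R6.TV1
import Pool.Agent.H33R6.TV2
import Pool.Agent.H33R6.TVU

/-! Project TU: everything put together. -/

namespace Pool.Agent.H33R6.All

theorem final : S_FINAL := by
  have hCU := TCU.t_CU
  have hUP := TUP.t_UP hCU
  have hE0 := TE0.t_E0 hCU
  have hEI := TEI.t_EI hCU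
  have hDV := TDV.t_DV
  have hSMT := TSMT.t_SMT hDV hUP hEI TMER.t_MER
  have hPV := TPV.t_PV TCL.t_CL hE0 hEI hSMT TSIG.t_SIG
  have hMAIN := TMAIN.t_MAIN hPV (TV1.t_V1 TSIG.t_SIG) (TV2.t_V2 TSIG.t_SIG) TH1.t_H1
  have hFIB := TFIB.t_FIB hDV TVU.t_VU TINJ.t_INJ TSMR.t_SMR TNP.t_NP TSZU.t_SZU TSZL.t_SZL
  exact Final.final TRES.t_RES hDV TCON.t_CON TSZU.t_SZU hFIB hMAIN

end Pool.Agent.H33R6.All
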