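import Mathlib

/-!
Project TU (helper33): congruent numbers in residue classes modulo 8.
-/

namespace Pool.Agent.H33R6

open Finset

open scoped Classical

/-- the four linear forms `r`, `s`, `r - s`, `r + s` -/
def fm (i : Fin 4) (r s : ℕ) : ℕ := ![r, s, r - s, r + s] i

/-- `r s (r - s) (r + s)` -/
def D0 (r s : ℕ) : ℕ := r * s * (r - s) * (r + s)

/-- the product of the four numbers `v i` -/
def qv (v : Fin 4 → ℕ) : ℕ := ∏ i, v i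

/-- the modulus `2^5 * 9 * 5 * 7` -/
def Mo : ℕ := 10080

/-- admissible vectors: pairwise coprime, coprime to 210 -/
def Adm (v : Fin 4 → ℕ) : Prop :=
  (∀ i, 1 ≤ v i ∧ Nat.Coprime (v i) 210) ∧ ∀ i j, i ≠ j → Nat.Coprime (v i) (v j)

/-- admissible residues for the class `j` modulo `8` -/
def Res (j k r0 s0 : ℕ) : Prop :=
  (k = 1 ∨ k = 4) ∧ j % 4 ≠ 0 ∧ r0 < Mo ∧ s0 < Mo ∧
  ∀ r s : ℕ, 0 < s → s < r → r % Mo = r0 → s % Mo = s0 →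
    k ∣ D0 r s ∧ (D0 r s / k) % 8 = j % 8 ∧ ¬ 9 ∣ D0 r s ∧ ¬ 5 ∣ D0 r s ∧ ¬ 7 ∣ D0 r s

/-- the lattice points in the box `(4K, 8K] x (K, 2K]` -/
noncomputable def G0 (r0 s0 : ℕ) (v : Fin 4 → ℕ) (K : ℕ) : Finset (ℕ × ℕ) :=
  ((Ioc (4 * K) (8 * K)) ×ˢ (Ioc K (2 * K))).filter
    (fun p => p.1 % Mo = r0 ∧ p.2 % Mo = s0 ∧ ∀ i, (v i) ^ 2 ∣ fm i p.1 p.2)

/-- the sieve condition -/
def Sv (v : Fin 4 → ℕ) (r s : ℕ) : Prop :=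
  ∀ p : ℕ, p.Prime → 11 ≤ p → ¬ (p ∣ r ∧ p ∣ s) ∧ ∀ i, ¬ (p ^ 2 * (v i) ^ 2 ∣ fm i r s)

/-- the value `d` -/
def dv (k : ℕ) (v : Fin 4 → ℕ) (r s : ℕ) : ℕ := D0 r s / (k * (qv v) ^ 2)

/-- product of the primes `p ≤ Y` dividing `d` -/
noncomputable def sm (Y d : ℕ) : ℕ := ∏ p ∈ (Icc 1 Y).filter (fun p => p.Prime ∧ p ∣ d), p

/-- product of the primes `p > Y` dividing `d` -/
noncomputable def ro (Y d : ℕ) : ℕ := ∏ p ∈ d.primeFactors.filter (fun p => Y < p), p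

/-- main term -/
noncomputable def W (K : ℕ) (v : Fin 4 → ℕ) : ℝ :=
  4 * (K : ℝ) ^ 2 / ((Mo : ℝ) ^ 2 * (qv v : ℝ) ^ 2)

/-- good points for the vector `v` -/
noncomputable def Gd (k r0 s0 : ℕ) (v : Fin 4 → ℕ) (K Y : ℕ) (B : ℝ) : Finset (ℕ × ℕ) :=
  (G0 r0 s0 v K).filter (fun p => Sv v p.1 p.2 ∧ (sm Y (dv k v p.1 p.2) : ℝ) ≤ B)

/-- admissible vectors with entries at most `D` -/
noncomputable def VD (D : ℕ) : Finset (Fin 4 → ℕ) :=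
  (Fintype.piFinset (fun _ => Icc 1 D)).filter (fun v => Adm v)

/-- sum of `1/n`, `n ≤ D` coprime to 210 -/
noncomputable def hs (D : ℕ) : ℝ := ∑ n ∈ (Icc 1 D).filter (fun n => Nat.Coprime n 210), (1 : ℝ) / n

/-- size of the box -/
noncomputable def Kx (X : ℝ) (v : Fin 4 → ℕ) : ℕ := ⌊((qv v : ℝ) ^ 2 * X) ^ (1 / 4 : ℝ) / 8⌋₊

noncomputable def Dx (X : ℝ) : ℕ := ⌊X ^ (1 / 100 : ℝ)⌋₊
noncomputable def Yx (X : ℝ) : ℕ := ⌊X ^ (1 / 1000 : ℝ)⌋₊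
noncomputable def Bx (X : ℝ) : ℝ := X ^ (1 / 4 : ℝ)

/-- area of a right triangle with rational sides -/
def Cgr (d : ℕ) : Prop :=
  ∃ a b c : ℚ, 0 < a ∧ 0 < b ∧ 0 < c ∧ a ^ 2 + b ^ 2 = c ^ 2 ∧ a * b / 2 = d

/-- `RES`: residues exist -/
def S_RES : Prop := ∀ j : ℕ, j = 1 ∨ j = 2 ∨ j = 3 ∨ j = 5 ∨ j = 6 ∨ j = 7 →
  ∃ k r0 s0 : ℕ, Res j k r0 s0

/-- `DV`: the value is squarefree and in the right class -/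
def S_DV : Prop := ∀ (j k r0 s0 : ℕ), Res j k r0 s0 → ∀ v, Adm v → ∀ r s : ℕ, 0 < s → s < r →
  r % Mo = r0 → s % Mo = s0 → (∀ i, (v i) ^ 2 ∣ fm i r s) → Sv v r s →
    k * (qv v) ^ 2 ∣ D0 r s ∧ Squarefree (dv k v r s) ∧ dv k v r s % 8 = j % 8 ∧
      Nat.Coprime r s

/-- `CON`: the value is a congruent number -/
def S_CON : Prop := ∀ (k : ℕ), (k = 1 ∨ k = 4) → ∀ (q r s : ℕ), 0 < q → 0 < s → s < r →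
  k * q ^ 2 ∣ D0 r s → Cgr (D0 r s / (k * q ^ 2))

/-- `VU`: the vector is determined by the point -/
def S_VU : Prop := ∀ v v' : Fin 4 → ℕ, Adm v → Adm v' → ∀ r s : ℕ, 0 < s → s < r →
  (∀ i, (v i) ^ 2 ∣ fm i r s) → (∀ i, (v' i) ^ 2 ∣ fm i r s) → Sv v r s → Sv v' r s → v = v'

/-- `INJ`: the point is determined by the distribution of the large primes -/
def S_INJ : Prop := ∀ (r s r' s' : ℕ) (P : Finset ℕ), 0 < s → s < r → 0 < s' → s' < r' →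
  Nat.Coprime r s → Nat.Coprime r' s' → (∀ p ∈ P, p.Prime) →
  (∀ p ∈ P, ∃ i, p ∣ fm i r s ∧ p ∣ fm i r' s') →
  r * s' < ∏ p ∈ P, p → r' * s < ∏ p ∈ P, p → r = r' ∧ s = s'

/-- `SMR`: smooth part times rough part -/
def S_SMR : Prop := ∀ Y d : ℕ, Squarefree d → sm Y d * ro Y d = d

/-- `NP`: few large primes -/
def S_NP : Prop := ∀ (Y d n : ℕ), 0 < d → d < (Y + 1) ^ (n + 1) →
  (d.primeFactors.filter (fun p => Y < p)).card ≤ n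

/-- `SZU`: the value is at most `X / 4` -/
def S_SZU : Prop := ∀ (k r0 s0 : ℕ), (k = 1 ∨ k = 4) → ∀ v, Adm v → ∀ X : ℝ, 0 ≤ X →
  ∀ t ∈ G0 r0 s0 v (Kx X v), (dv k v t.1 t.2 : ℝ) ≤ X / 4

/-- `SZL`: the value is at least `X / 6000` -/
def S_SZL : Prop := ∃ X0 : ℝ, ∀ X ≥ X0, ∀ (k r0 s0 : ℕ), (k = 1 ∨ k = 4) → ∀ v, Adm v →
  ∀ t ∈ G0 r0 s0 v (Kx X v), k * (qv v) ^ 2 ∣ D0 t.1 t.2 → X / 6000 ≤ (dv k v t.1 t.2 : ℝ)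

/-- `FIB`: bounded fibres -/
def S_FIB : Prop := ∀ (j k r0 s0 : ℕ), Res j k r0 s0 → ∃ X0 : ℝ, ∀ X ≥ X0, ∀ d : ℕ,
  (((VD (Dx X)).sigma (fun v => Gd k r0 s0 v (Kx X v) (Yx X) (Bx X))).filter
    (fun t => dv k t.1 t.2.1 t.2.2 = d)).card ≤ 4 ^ 1001

/-- `SIG` -/
def S_SIG : Prop := ∀ N : ℕ, ∑ p ∈ (Icc 11 N).filter Nat.Prime, (1 : ℝ) / (p : ℝ) ^ 2 ≤ 1 / 27

/-- `MER` -/
def S_MER : Prop := ∀ Y : ℕ, 1 ≤ Y →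
  ∑ p ∈ (Icc 1 Y).filter Nat.Prime, Real.log p / p ≤ Real.log Y + 2

/-- `CU`: general upper bound for points in residue classes -/
def S_CU : Prop := ∀ (K m1 m2 : ℕ), 1 ≤ m1 → 1 ≤ m2 → ∀ S : Finset (ℕ × ℕ),
  S ⊆ (Ioc (4 * K) (8 * K)) ×ˢ (Ioc K (2 * K)) →
  (∀ a ∈ S, ∀ b ∈ S, a.2 ≡ b.2 [MOD m1]) →
  (∀ a ∈ S, ∀ b ∈ S, a.2 = b.2 → a.1 ≡ b.1 [MOD m2]) →
  (S.card : ℝ) ≤ ((K : ℝ) / m1 + 1) * (4 * (K : ℝ) / m2 + 1)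

/-- `CL`: lower bound for the number of lattice points -/
def S_CL : Prop := ∀ (r0 s0 : ℕ), r0 < Mo → s0 < Mo → ∀ v, Adm v → ∀ K : ℕ, 1 ≤ K →
  W K v - 5 * K ≤ ((G0 r0 s0 v K).card : ℝ)

/-- `UP`: upper bound for the number of lattice points -/
def S_UP : Prop := ∀ (r0 s0 : ℕ), ∀ v, Adm v → ∀ K : ℕ, 1 ≤ K →
  ((G0 r0 s0 v K).card : ℝ) ≤ W K v + 6 * K

/-- `E0`: points with both coordinates divisible by `p` -/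
def S_E0 : Prop := ∀ (r0 s0 : ℕ), ∀ v, Adm v → ∀ K : ℕ, 1 ≤ K → ∀ p : ℕ, p.Prime → 11 ≤ p →
  (((G0 r0 s0 v K).filter (fun t => p ∣ t.1 ∧ p ∣ t.2)).card : ℝ) ≤
    if p ∣ qv v then W K v / p + 6 * K else W K v / (p : ℝ) ^ 2 + 5 * K / p + 1

/-- `EI`: points where `p^e (v i)^2` divides the `i`-th form -/
def S_EI : Prop := ∀ (r0 s0 : ℕ), ∀ v, Adm v → ∀ K : ℕ, 1 ≤ K → ∀ p : ℕ, p.Prime → 11 ≤ p →
  ∀ e : ℕ, 1 ≤ e → ∀ i : Fin 4,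
  (((G0 r0 s0 v K).filter (fun t => ¬ (p ∣ t.1 ∧ p ∣ t.2) ∧
      p ^ e * (v i) ^ 2 ∣ fm i t.1 t.2)).card : ℝ) ≤ W K v / (p : ℝ) ^ e + 6 * K

/-- `SMT`: the sum of the logarithms of the smooth parts -/
def S_SMT : Prop := ∀ (j k r0 s0 : ℕ), Res j k r0 s0 → ∀ v, Adm v → ∀ K : ℕ, 1 ≤ K →
  ∀ Y : ℕ, 1 ≤ Y →
  ∑ t ∈ (G0 r0 s0 v K).filter (fun t => Sv v t.1 t.2), Real.log (sm Y (dv k v t.1 t.2)) ≤
    6 * (W K v + 6 * K) + 4 * (W K v * (Real.log Y + 2) + 6 * K * Y * Real.log Y)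

/-- `PV`: lower bound for one vector -/
def S_PV : Prop := ∀ (j k r0 s0 : ℕ), Res j k r0 s0 → ∀ v, Adm v → ∀ K : ℕ, 1 ≤ K →
  ∀ Y : ℕ, 1 ≤ Y → ∀ B : ℝ, 1 < B →
  W K v * (1 - 5 / 27 - ∑ p ∈ (qv v).primeFactors, (1 : ℝ) / p
      - (14 + 4 * Real.log Y) / Real.log B)
    - 300 * (K : ℝ) ^ (3 / 2 : ℝ) * qv v * (Y : ℝ) ^ 2 * (1 + 1 / Real.log B)
    ≤ ((Gd k r0 s0 v K Y B).card : ℝ)

/-- `H1`: lower bound for `hs` -/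
def S_H1 : Prop := ∀ D : ℕ, 1 ≤ D → 8 / 35 * Real.log (D + 1) ≤ hs D

/-- `V1`: the sum over admissible vectors -/
def S_V1 : Prop := ∀ D : ℕ, 1 ≤ D →
  (1 - 6 / 27) * (hs D) ^ 4 ≤ ∑ v ∈ VD D, (1 : ℝ) / qv v

/-- `V2`: weighted with the prime factors -/
def S_V2 : Prop := ∀ D : ℕ, 1 ≤ D →
  ∑ v ∈ VD D, (1 : ℝ) / qv v * ∑ p ∈ (qv v).primeFactors, (1 : ℝ) / p ≤ 4 / 27 * (hs D) ^ 4

/-- `MAIN`: the number of good tuples -/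
def S_MAIN : Prop := ∀ (j k r0 s0 : ℕ), Res j k r0 s0 → ∃ c : ℝ, 0 < c ∧ ∃ X0 : ℝ, ∀ X ≥ X0,
  c * X ^ (1 / 2 : ℝ) * (Real.log X) ^ 4 ≤
    ∑ v ∈ VD (Dx X), ((Gd k r0 s0 v (Kx X v) (Yx X) (Bx X)).card : ℝ)

/-- the final statement -/
def S_FINAL : Prop := ∀ j : ℕ, j = 1 ∨ j = 2 ∨ j = 3 ∨ j = 5 ∨ j = 6 ∨ j = 7 →
  ∃ c : ℝ, 0 < c ∧ ∃ X0 : ℝ, ∀ X ≥ X0,
    c * X ^ (1 / 2 : ℝ) * (Real.log X) ^ 4 ≤
      ({d : ℕ | (d : ℝ) ≤ X ∧ Squarefree d ∧ d % 8 = j ∧ Cgr d}.ncard : ℝ)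

end Pool.Agent.H33R6
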