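import Pool.Agent.H33R6.Defs

/-!
Project TU, task RES (helper760): admissible residues exist.
-/

set_option autoImplicit false

namespace Pool.Agent.H33R6.TRES

open Pool.Agent.H33R6

theorem dmod (r0 s0 c : ℕ) (h : ((r0 : ℤ) * s0 * (r0 - s0) * (r0 + s0)) % 10080 = c) {r s : ℕ}
    (hs : s < r) (hr : r % 10080 = r0) (hs' : s % 10080 = s0) : D0 r s % 10080 = c := by
  have h1 : (r : ℤ) ≡ r0 [ZMOD 10080] := by
    rw [← hr]; push_cast; exact (Int.mod_modEq _ _).symm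
  have h2 : (s : ℤ) ≡ s0 [ZMOD 10080] := by
    rw [← hs']; push_cast; exact (Int.mod_modEq _ _).symm
  have h3 : ((r : ℤ) * s * (r - s) * (r + s)) % 10080 = ((r0 : ℤ) * s0 * (r0 - s0) * (r0 + s0)) % 10080 :=
    ((h1.mul h2).mul (h1.sub h2)).mul (h1.add h2)
  have h4 : ((D0 r s : ℕ) : ℤ) = (r : ℤ) * s * (r - s) * (r + s) := by
    unfold D0
    push_cast [Nat.cast_sub hs.le]
    ring
  rw [h, ← h4] at h3
  omega

theorem res4 (j r0 s0 c : ℕ) (h : ((r0 : ℤ) * s0 * (r0 - s0) * (r0 + s0)) % 10080 = c)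
    (hj : j % 4 ≠ 0) (hr : r0 < 10080) (hs : s0 < 10080) (h4 : c % 4 = 0) (h8 : (c / 4) % 8 = j % 8)
    (h9 : c % 9 ≠ 0) (h5 : c % 5 ≠ 0) (h7 : c % 7 ≠ 0) : Res j 4 r0 s0 := by
  refine ⟨Or.inr rfl, hj, hr, hs, ?_⟩
  intro r s _ hsr hr' hs'
  have hD := dmod r0 s0 c h hsr hr' hs'
  generalize D0 r s = D at hD
  refine ⟨?_, ?_, ?_, ?_, ?_⟩ <;> omega

theorem res1 (j r0 s0 c : ℕ) (h : ((r0 : ℤ) * s0 * (r0 - s0) * (r0 + s0)) % 10080 = c)
    (hj : j % 4 ≠ 0) (hr : r0 < 10080) (hs : s0 < 10080) (h8 : c % 8 = j % 8)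
    (h9 : c % 9 ≠ 0) (h5 : c % 5 ≠ 0) (h7 : c % 7 ≠ 0) : Res j 1 r0 s0 := by
  refine ⟨Or.inl rfl, hj, hr, hs, ?_⟩
  intro r s _ hsr hr' hs'
  have hD := dmod r0 s0 c h hsr hr' hs'
  generalize D0 r s = D at hD
  refine ⟨?_, ?_, ?_, ?_, ?_⟩ <;> omega

theorem t_RES : S_RES := by
  intro j hj
  rcases hj with rfl | rfl | rfl | rfl | rfl | rfl
  · exact ⟨4, 9732, 5671, res4 1 9732 5671 8196 (by norm_num) (by norm_num) (by norm_num) (by norm_num)
      (by norm_num) (by norm_num) (by norm_num) (by norm_num) (by norm_num)⟩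
  · exact ⟨1, 7842, 1891, res1 2 7842 1891 6306 (by norm_num) (by norm_num) (by norm_num) (by norm_num)
      (by norm_num) (by norm_num) (by norm_num) (by norm_num)⟩
  · exact ⟨4, 9732, 3781, res4 3 9732 3781 5676 (by norm_num) (by norm_num) (by norm_num) (by norm_num)
      (by norm_num) (by norm_num) (by norm_num) (by norm_num) (by norm_num)⟩
  · exact ⟨4, 9732, 1891, res4 5 9732 1891 3156 (by norm_num) (by norm_num) (by norm_num) (by norm_num)
      (by norm_num) (by norm_num) (by norm_num) (by norm_num) (by norm_num)⟩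
  · exact ⟨1, 7842, 1, res1 6 7842 1 6 (by norm_num) (by norm_num) (by norm_num) (by norm_num)
      (by norm_num) (by norm_num) (by norm_num) (by norm_num)⟩
  · exact ⟨4, 9732, 1, res4 7 9732 1 636 (by norm_num) (by norm_num) (by norm_num) (by norm_num)
      (by norm_num) (by norm_num) (by norm_num) (by norm_num) (by norm_num)⟩

end Pool.Agent.H33R6.TRES
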